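import Mathlib

/-!
[H24 TS LNB]  The Dirichlet series of the partial sums `B(n) = ∑_{k ≤ n} b(k)`, `|B(n)| ≤ C n`:
`∑ B(n) n^(-s-1) = (∑ b(k) k^(-s))/s + K(s)`, `K` differentiable on `Re s > 0`
(the proof of `Pool/Agent/H48/OM/PsiSer.lean`, for general `b`).
-/

namespace Pool.Agent.H24.TS

open Filter

open Complex in
private theorem ps_bracket (s : ℂ) (hs : 0 < s.re) (n : ℕ) (hn : 1 ≤ n) :
    ‖(n : ℂ) ^ (-s - 1) - ((n : ℂ) ^ (-s) - ((n : ℂ) + 1) ^ (-s)) / s‖ ≤
      ‖s + 1‖ * (n : ℝ) ^ (-s.re - 2) := by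
  have hs0 : s ≠ 0 := by
    rintro rfl
    simp at hs
  have hn0 : (0 : ℝ) < n := by exact_mod_cast hn
  have hpos : ∀ x ∈ Set.Icc (n : ℝ) (n + 1), 0 < x := fun x hx => lt_of_lt_of_le hn0 hx.1
  have hder : ∀ (c : ℂ), ∀ x : ℝ, 0 < x →
      HasDerivAt (fun y : ℝ => (y : ℂ) ^ c) (c * (x : ℂ) ^ (c - 1)) x := by
    intro c x hx
    have h1 : HasDerivAt (fun z : ℂ => z ^ c) (c * (x : ℂ) ^ (c - 1) * 1) (x : ℂ) :=
      (hasDerivAt_id (x : ℂ)).cpow_const (Complex.ofReal_mem_slitPlane.mpr hx)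
    simpa using h1.comp_ofReal
  have hconv : Convex ℝ (Set.Icc (n : ℝ) (n + 1)) := convex_Icc _ _
  have hnm : (n : ℝ) ∈ Set.Icc (n : ℝ) (n + 1) := ⟨le_refl _, by linarith⟩
  have hnm1 : (n : ℝ) + 1 ∈ Set.Icc (n : ℝ) (n + 1) := ⟨by linarith, le_refl _⟩
  -- first application
  have hA : ∀ x ∈ Set.Icc (n : ℝ) (n + 1), ‖(x : ℂ) ^ (-s - 1) - ((n : ℝ) : ℂ) ^ (-s - 1)‖ ≤
      ‖s + 1‖ * (n : ℝ) ^ (-s.re - 2) := by
    intro x hx
    have h1 := hconv.norm_image_sub_le_of_norm_hasDerivWithin_le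
      (f := fun y : ℝ => (y : ℂ) ^ (-s - 1))
      (f' := fun y : ℝ => (-s - 1) * (y : ℂ) ^ (-s - 1 - 1))
      (C := ‖s + 1‖ * (n : ℝ) ^ (-s.re - 2))
      (fun y hy => (hder _ y (hpos y hy)).hasDerivWithinAt) (fun y hy => by
        rw [norm_mul, Complex.norm_cpow_eq_rpow_re_of_pos (hpos y hy)]
        have e1 : ‖-s - 1‖ = ‖s + 1‖ := by
          rw [← norm_neg]
          congr 1
          ring
        rw [e1]
        apply mul_le_mul_of_nonneg_left _ (norm_nonneg _)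
        have e2 : (-s - 1 - 1).re = -s.re - 2 := by
          simp
          ring
        rw [e2]
        exact Real.rpow_le_rpow_of_nonpos hn0 hy.1 (by linarith)) hnm hx
    refine h1.trans ?_
    calc ‖s + 1‖ * (n : ℝ) ^ (-s.re - 2) * ‖x - n‖ ≤ ‖s + 1‖ * (n : ℝ) ^ (-s.re - 2) * 1 := by
          apply mul_le_mul_of_nonneg_left _ (by positivity)
          rw [Real.norm_eq_abs, abs_le]
          constructor <;> linarith [hx.1, hx.2]
      _ = ‖s + 1‖ * (n : ℝ) ^ (-s.re - 2) := by ring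
  have h2 := hconv.norm_image_sub_le_of_norm_hasDerivWithin_le
    (f := fun y : ℝ => (y : ℂ) ^ (-s) / (-s) - ((n : ℝ) : ℂ) ^ (-s - 1) * (y : ℂ))
    (f' := fun y : ℝ => (y : ℂ) ^ (-s - 1) - ((n : ℝ) : ℂ) ^ (-s - 1))
    (C := ‖s + 1‖ * (n : ℝ) ^ (-s.re - 2))
    (fun y hy => by
      have h3 := (hder (-s) y (hpos y hy)).div_const (-s)
      have h4 : HasDerivAt (fun y : ℝ => ((n : ℝ) : ℂ) ^ (-s - 1) * (y : ℂ))
          (((n : ℝ) : ℂ) ^ (-s - 1) * 1) y :=
        (hasDerivAt_id (y : ℂ)).comp_ofReal.const_mul _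
      have h5 := h3.sub h4
      have e3 : -s * (y : ℂ) ^ (-s - 1) / -s - ((n : ℝ) : ℂ) ^ (-s - 1) * 1 =
          (y : ℂ) ^ (-s - 1) - ((n : ℝ) : ℂ) ^ (-s - 1) := by
        have : -s ≠ 0 := neg_ne_zero.mpr hs0
        field_simp
      rw [e3] at h5
      exact h5.hasDerivWithinAt) (fun y hy => hA y hy) hnm hnm1
  have e4 : ‖(n : ℝ) + 1 - (n : ℝ)‖ = 1 := by
    rw [add_sub_cancel_left]
    simp
  rw [e4, mul_one] at h2
  have e5 : (((n : ℝ) + 1 : ℝ) : ℂ) ^ (-s) / (-s) - ((n : ℝ) : ℂ) ^ (-s - 1) * (((n : ℝ) + 1 : ℝ) : ℂ) -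
      (((n : ℝ) : ℂ) ^ (-s) / (-s) - ((n : ℝ) : ℂ) ^ (-s - 1) * ((n : ℝ) : ℂ)) =
      -((n : ℂ) ^ (-s - 1) - ((n : ℂ) ^ (-s) - ((n : ℂ) + 1) ^ (-s)) / s) := by
    push_cast
    field_simp
    ring
  rw [e5, norm_neg] at h2
  exact h2

/-- the terms of the auxiliary series -/
private noncomputable def psT (B : ℕ → ℝ) (n : ℕ) (s : ℂ) : ℂ :=
  ((B n : ℝ) : ℂ) *
    ((n : ℂ) ^ (-s - 1) - ((n : ℂ) ^ (-s) - ((n : ℂ) + 1) ^ (-s)) / s)

private theorem psT_bound {B : ℕ → ℝ} {C : ℝ} (hC0 : 0 ≤ C) (hC : ∀ n : ℕ, |B n| ≤ C * n) (s : ℂ)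
    (hs : 0 < s.re) {σ M : ℝ} (_hσ : 0 < σ) (hσs : σ ≤ s.re) (hM : ‖s + 1‖ ≤ M) (n : ℕ) :
    ‖psT B n s‖ ≤ C * M * (n : ℝ) ^ (-σ - 1) := by
  have hM0 : 0 ≤ M := (norm_nonneg _).trans hM
  unfold psT
  rcases Nat.eq_zero_or_pos n with rfl | hn
  · have h0 : B 0 = 0 := by
      have := hC 0
      simpa using this
    rw [h0]
    simp only [Complex.ofReal_zero, zero_mul, norm_zero]
    positivity
  · have hn0 : (0 : ℝ) < n := by exact_mod_cast hn
    have hn1 : (1 : ℝ) ≤ n := by exact_mod_cast hn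
    rw [norm_mul, Complex.norm_real, Real.norm_eq_abs]
    have h1 := ps_bracket s hs n hn
    calc |B n| * _ ≤ (C * n) * (‖s + 1‖ * (n : ℝ) ^ (-s.re - 2)) :=
          mul_le_mul (hC n) h1 (norm_nonneg _) (by positivity)
      _ ≤ (C * n) * (M * (n : ℝ) ^ (-σ - 2)) := by
          apply mul_le_mul_of_nonneg_left _ (by positivity)
          apply mul_le_mul hM _ (by positivity) hM0
          exact Real.rpow_le_rpow_of_exponent_le hn1 (by linarith)
      _ = C * M * (n : ℝ) ^ (-σ - 1) := by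
          have : (n : ℝ) ^ (-σ - 1) = n * (n : ℝ) ^ (-σ - 2) := by
            nth_rewrite 2 [← Real.rpow_one (n : ℝ)]
            rw [← Real.rpow_add hn0]
            congr 1
            ring
          rw [this]
          ring

private theorem psT_diff {B : ℕ → ℝ} (hB0 : B 0 = 0) (n : ℕ) {s : ℂ} (hs : s ≠ 0) :
    DifferentiableAt ℂ (psT B n) s := by
  unfold psT
  rcases Nat.eq_zero_or_pos n with rfl | hn
  · rw [hB0]
    simp
  · have hn0 : (n : ℂ) ≠ 0 := by
      have : n ≠ 0 := by omega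
      exact_mod_cast this
    have hn1 : (n : ℂ) + 1 ≠ 0 := by
      exact_mod_cast Nat.succ_ne_zero n
    have d1 : DifferentiableAt ℂ (fun s : ℂ => (n : ℂ) ^ (-s - 1)) s :=
      (differentiableAt_id.neg.sub_const 1).const_cpow (Or.inl hn0)
    have d2 : DifferentiableAt ℂ (fun s : ℂ => (n : ℂ) ^ (-s)) s :=
      (differentiableAt_id.neg).const_cpow (Or.inl hn0)
    have d3 : DifferentiableAt ℂ (fun s : ℂ => ((n : ℂ) + 1) ^ (-s)) s :=
      (differentiableAt_id.neg).const_cpow (Or.inl hn1)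
    exact (d1.sub ((d2.sub d3).div differentiableAt_id hs)).const_mul _

private theorem ps_K {B : ℕ → ℝ} {C : ℝ} (hC0 : 0 ≤ C) (hC : ∀ n : ℕ, |B n| ≤ C * n)
    (hB0 : B 0 = 0) : DifferentiableOn ℂ (fun s => ∑' n, psT B n s) {s : ℂ | 0 < s.re} := by
  intro s0 hs0
  have hs0 : 0 < s0.re := hs0
  set U : Set ℂ := {s : ℂ | s0.re / 2 < s.re} ∩ Metric.ball 0 (‖s0‖ + 1) with hU
  have hUo : IsOpen U :=
    (isOpen_lt continuous_const Complex.continuous_re).inter Metric.isOpen_ball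
  have hmem : s0 ∈ U := by
    refine ⟨?_, ?_⟩
    · show s0.re / 2 < s0.re
      linarith
    · rw [Metric.mem_ball, dist_zero_right]
      linarith
  have hpos : ∀ w ∈ U, 0 < w.re := by
    intro w hw
    have : s0.re / 2 < w.re := hw.1
    linarith
  have hsum : Summable fun n : ℕ => C * (‖s0‖ + 2) * (n : ℝ) ^ (-(s0.re / 2) - 1) := by
    apply Summable.mul_left
    rw [Real.summable_nat_rpow]
    linarith
  have hd : DifferentiableOn ℂ (fun s => ∑' n, psT B n s) U := by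
    apply Complex.differentiableOn_tsum_of_summable_norm hsum _ hUo
    · intro n w hw
      apply psT_bound hC0 hC w (hpos w hw) (by linarith) (le_of_lt hw.1)
      have h1 : ‖w‖ < ‖s0‖ + 1 := by
        have := hw.2
        rwa [Metric.mem_ball, dist_zero_right] at this
      calc ‖w + 1‖ ≤ ‖w‖ + ‖(1 : ℂ)‖ := norm_add_le _ _
        _ ≤ ‖s0‖ + 2 := by rw [norm_one]; linarith
    · intro n w hw
      have : w ≠ 0 := by
        rintro rfl
        have := hpos 0 hw
        simp at this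
      exact (psT_diff hB0 n this).differentiableWithinAt
  exact (hd.differentiableAt (hUo.mem_nhds hmem)).differentiableWithinAt

private theorem ps_partial (B b : ℕ → ℝ) (hB0 : B 0 = 0) (hb : ∀ n, B (n + 1) = B n + b (n + 1))
    (s : ℂ) (N : ℕ) :
    ∑ n ∈ Finset.range (N + 1), ((B n : ℝ) : ℂ) * ((n : ℂ) ^ (-s) - ((n : ℂ) + 1) ^ (-s)) =
      ∑ n ∈ Finset.range (N + 1), LSeries.term (fun n => ((b n : ℝ) : ℂ)) s n -
        ((B N : ℝ) : ℂ) * ((N : ℂ) + 1) ^ (-s) := by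
  induction N with
  | zero =>
    simp [hB0]
  | succ N ih =>
    rw [Finset.sum_range_succ, ih, Finset.sum_range_succ _ (N + 1)]
    rw [LSeries.term_of_ne_zero (Nat.succ_ne_zero N), hb N, Complex.cpow_neg]
    push_cast
    rw [Complex.cpow_neg ((N : ℂ) + 1) s]
    rw [div_eq_mul_inv]
    ring

theorem lnb (B b : ℕ → ℝ) (C : ℝ) (hC0 : 0 ≤ C) (hC : ∀ n : ℕ, |B n| ≤ C * n)
    (hb : ∀ n, B (n + 1) = B n + b (n + 1))
    (hbs : ∀ s : ℂ, 1 < s.re → LSeriesSummable (fun n => ((b n : ℝ) : ℂ)) s) :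
    ∃ K : ℂ → ℂ, DifferentiableOn ℂ K {s : ℂ | 0 < s.re} ∧
    ∀ s : ℂ, 1 < s.re →
      LSeriesSummable (fun n => ((B n : ℝ) : ℂ)) (s + 1) ∧
      LSeries (fun n => ((B n : ℝ) : ℂ)) (s + 1) =
        LSeries (fun n => ((b n : ℝ) : ℂ)) s / s + K s := by
  have hB0 : B 0 = 0 := by
    have := hC 0
    simpa using this
  refine ⟨fun s => ∑' n, psT B n s, ps_K hC0 hC hB0, ?_⟩
  intro s hs
  have hs0 : s ≠ 0 := by
    rintro rfl
    simp at hs
    linarith
  have hsum : LSeriesSummable (fun n => ((B n : ℝ) : ℂ)) (s + 1) := by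
    apply LSeriesSummable_of_le_const_mul_rpow (x := 2)
    · simp
      linarith
    · refine ⟨C, fun n _ => ?_⟩
      rw [Complex.norm_real, Real.norm_eq_abs]
      have : (n : ℝ) ^ ((2 : ℝ) - 1) = n := by
        rw [show (2 : ℝ) - 1 = 1 by norm_num, Real.rpow_one]
      rw [this]
      exact hC n
  refine ⟨hsum, ?_⟩
  -- summability of the auxiliary terms
  have hTsum : Summable fun n => psT B n s := by
    apply Summable.of_norm_bounded (g := fun n : ℕ => C * ‖s + 1‖ * (n : ℝ) ^ (-s.re - 1))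
    · apply Summable.mul_left
      rw [Real.summable_nat_rpow]
      linarith
    · intro n
      exact psT_bound hC0 hC s (by linarith) (by linarith) le_rfl le_rfl n
  set A : ℕ → ℂ := LSeries.term (fun n => ((B n : ℝ) : ℂ)) (s + 1) with hA
  have hAsum : Summable A := hsum
  set D : ℕ → ℂ := fun n => ((B n : ℝ) : ℂ) * ((n : ℂ) ^ (-s) - ((n : ℂ) + 1) ^ (-s))
    with hD
  have hAB : ∀ n, D n = s * (A n - psT B n s) := by
    intro n
    rcases Nat.eq_zero_or_pos n with rfl | hn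
    · simp only [hA, hD, psT, hB0]
      simp
    · have hn' : n ≠ 0 := by omega
      simp only [hA, hD, psT]
      rw [LSeries.term_of_ne_zero hn']
      have e1 : ((B n : ℝ) : ℂ) / (n : ℂ) ^ (s + 1) =
          ((B n : ℝ) : ℂ) * (n : ℂ) ^ (-s - 1) := by
        rw [div_eq_mul_inv, ← Complex.cpow_neg]
        congr 2
        ring
      rw [e1]
      field_simp
      ring
  have hDsum : Summable D := by
    have := (hAsum.sub hTsum).mul_left s
    exact this.congr fun n => (hAB n).symm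
  have hDval : ∑' n, D n = LSeries (fun n => ((b n : ℝ) : ℂ)) s := by
    have h1 : Tendsto (fun N => ∑ n ∈ Finset.range (N + 1), D n) atTop (nhds (∑' n, D n)) :=
      (hDsum.hasSum.tendsto_sum_nat).comp (tendsto_add_atTop_nat 1)
    have h2 : Tendsto (fun N => ∑ n ∈ Finset.range (N + 1),
        LSeries.term (fun n => ((b n : ℝ) : ℂ)) s n) atTop
        (nhds (LSeries (fun n => ((b n : ℝ) : ℂ)) s)) :=
      ((hbs s hs).hasSum.tendsto_sum_nat).comp (tendsto_add_atTop_nat 1)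
    have h3 : Tendsto (fun N : ℕ => ((B N : ℝ) : ℂ) * ((N : ℂ) + 1) ^ (-s)) atTop
        (nhds 0) := by
      rw [tendsto_zero_iff_norm_tendsto_zero]
      have h4 : Tendsto (fun N : ℕ => C * (((N : ℝ) + 1) ^ (-(s.re - 1)))) atTop
          (nhds (C * 0)) := by
        apply Tendsto.const_mul
        have h5 := tendsto_rpow_neg_atTop (y := s.re - 1) (by linarith)
        have h6 : Tendsto (fun N : ℕ => (N : ℝ) + 1) atTop atTop :=
          tendsto_atTop_add_const_right _ _ tendsto_natCast_atTop_atTop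
        exact h5.comp h6
      rw [mul_zero] at h4
      apply squeeze_zero (fun _ => norm_nonneg _) _ h4
      intro N
      have hN : (0 : ℝ) < (N : ℝ) + 1 := by positivity
      rw [norm_mul, Complex.norm_real, Real.norm_eq_abs]
      have h7 : ‖((N : ℂ) + 1) ^ (-s)‖ = ((N : ℝ) + 1) ^ (-s.re) := by
        have := Complex.norm_cpow_eq_rpow_re_of_pos hN (-s)
        push_cast at this
        rw [this]
        simp
      rw [h7]
      calc |B N| * ((N : ℝ) + 1) ^ (-s.re)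
          ≤ (C * ((N : ℝ) + 1)) * ((N : ℝ) + 1) ^ (-s.re) := by
            apply mul_le_mul_of_nonneg_right _ (by positivity)
            refine (hC N).trans ?_
            apply mul_le_mul_of_nonneg_left _ hC0
            linarith
        _ = C * ((N : ℝ) + 1) ^ (-(s.re - 1)) := by
            rw [mul_assoc]
            congr 1
            nth_rewrite 1 [← Real.rpow_one ((N : ℝ) + 1)]
            rw [← Real.rpow_add hN]
            congr 1
            ring
    have h8 := h2.sub h3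
    rw [sub_zero] at h8
    refine tendsto_nhds_unique h1 (h8.congr fun N => ?_)
    rw [← ps_partial B b hB0 hb s N]
  have hfin : LSeries (fun n => ((B n : ℝ) : ℂ)) (s + 1) - ∑' n, psT B n s =
      (∑' n, D n) / s := by
    have h1 : ∑' n, D n = s * (∑' n, A n - ∑' n, psT B n s) := by
      rw [← hAsum.tsum_sub hTsum, ← tsum_mul_left]
      exact tsum_congr hAB
    rw [h1, mul_div_cancel_left₀ _ hs0]
    rfl
  rw [hDval] at hfin
  rw [← hfin]
  ring

end Pool.Agent.H24.TS
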