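import Pool.Agent.H24.TS.Ldt
import Pool.Agent.H24.TS.Lnb
import Pool.Agent.H24.TS.Zr

/-!
[H24 TS LND]  Landau's lemma for `π`: a one sided bound `-C n^α ≤ σ (π(n) - ∑_{k ≤ n} 1/log k)`,
`1/2 ≤ α`, implies `∑ |π(n) - ∑_{k ≤ n} 1/log k| n^(-1-w) < ∞` for all `w > α`.

`bb k = 1_{prime}(k) - 1/log (max k 2)`, `BB n = ∑_{1 ≤ k ≤ n} bb k`.
-/

namespace Pool.Agent.H24.TS

open Filter Complex Topology LSeries Finset
open scoped ComplexOrder

/-- the coefficients -/
noncomputable def bb (k : ℕ) : ℝ :=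
  if k = 0 then 0 else (if k.Prime then 1 else 0) - 1 / Real.log (max (k : ℝ) 2)

/-- the summatory function -/
noncomputable def BB (n : ℕ) : ℝ := ∑ k ∈ Icc 1 n, bb k

theorem BB_zero : BB 0 = 0 := by simp [BB]

theorem BB_succ (n : ℕ) : BB (n + 1) = BB n + bb (n + 1) := by
  unfold BB
  rw [Finset.sum_Icc_succ_top (by omega)]

theorem bb_log (k : ℕ) : 0 ≤ 1 / Real.log (max (k : ℝ) 2) ∧ 1 / Real.log (max (k : ℝ) 2) ≤ 2 := by
  have h1 : Real.log 2 ≤ Real.log (max (k : ℝ) 2) :=
    Real.log_le_log (by norm_num) (le_max_right _ _)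
  have h2 : (1 / 2 : ℝ) < Real.log 2 := by
    have := Real.log_two_gt_d9
    linarith
  have h3 : 0 < Real.log (max (k : ℝ) 2) := by linarith
  refine ⟨by positivity, ?_⟩
  rw [div_le_iff₀ h3]
  linarith

theorem bb_abs (k : ℕ) : |bb k| ≤ 2 := by
  have h := bb_log k
  unfold bb
  split_ifs
  · simp
  · rw [abs_le]; constructor <;> linarith
  · rw [abs_le]; constructor <;> linarith

theorem BB_abs (n : ℕ) : |BB n| ≤ 2 * n := by
  unfold BB
  refine (Finset.abs_sum_le_sum_abs _ _).trans ?_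
  refine (Finset.sum_le_sum fun k _ => bb_abs k).trans ?_
  simp [mul_comm]

theorem bb_summable (s : ℂ) (hs : 1 < s.re) : LSeriesSummable (fun n => ((bb n : ℝ) : ℂ)) s := by
  refine LSeriesSummable_of_bounded_of_one_lt_re (m := 2) (fun n _ => ?_) hs
  rw [norm_real, Real.norm_eq_abs]
  exact bb_abs n

/-- the contribution of the prime powers to `ψ` -/
noncomputable def pp (n : ℕ) : ℝ :=
  ArithmeticFunction.vonMangoldt n - (if n.Prime then Real.log n else 0)

theorem pp_nonneg (n : ℕ) : 0 ≤ pp n := by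
  unfold pp
  split_ifs with h
  · rw [ArithmeticFunction.vonMangoldt_apply_prime h]
    linarith
  · rw [sub_zero]
    exact ArithmeticFunction.vonMangoldt_nonneg

theorem pp_sum (n : ℕ) : ∑ k ∈ Icc 1 n, pp k = Chebyshev.psi n - Chebyshev.theta n := by
  unfold pp
  rw [Finset.sum_sub_distrib, Chebyshev.psi_eq_sum_Icc, Chebyshev.theta_eq_sum_Icc,
    Nat.floor_natCast, ← Finset.sum_filter]
  congr 1
  rw [← Finset.sum_erase (Icc 0 n) (a := 0) (by simp)]
  refine Finset.sum_congr ?_ fun _ _ => rfl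
  ext k
  simp only [mem_Icc, mem_erase]
  omega

theorem pp_summable (s : ℂ) (hs : 1 / 2 < s.re) :
    LSeriesSummable (fun n => ((pp n : ℝ) : ℂ)) s := by
  refine LSeriesSummable_of_sum_norm_bigO_and_nonneg (r := 1 / 2) ?_ pp_nonneg (by norm_num) hs
  obtain ⟨C, hC⟩ := Chebyshev.psi_sub_theta_le_mul_sqrt
  refine Asymptotics.IsBigO.of_bound C (Eventually.of_forall fun n => ?_)
  rw [pp_sum, Real.norm_eq_abs, Real.norm_eq_abs, abs_of_nonneg, abs_of_nonneg]
  · rw [← Real.sqrt_eq_rpow]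
    exact hC n
  · positivity
  · rw [← pp_sum]
    exact Finset.sum_nonneg fun k _ => pp_nonneg k

theorem pp_diff (s : ℂ) (hs : 1 / 2 < s.re) :
    DifferentiableAt ℂ (LSeries (fun n => ((pp n : ℝ) : ℂ))) s := by
  have h1 : abscissaOfAbsConv (fun n => ((pp n : ℝ) : ℂ)) ≤ ((1 / 2 : ℝ) : EReal) := by
    refine abscissaOfAbsConv_le_of_forall_lt_LSeriesSummable fun y hy => ?_
    exact pp_summable _ (by simpa using hy)
  have h2 : abscissaOfAbsConv (fun n => ((pp n : ℝ) : ℂ)) < ((s.re : ℝ) : EReal) :=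
    lt_of_le_of_lt h1 (by exact_mod_cast hs)
  exact (LSeries_hasDerivAt h2).differentiableAt

/-- the derivative of the Dirichlet series of `bb` -/
noncomputable def Gf (s : ℂ) : ℂ :=
  deriv riemannZeta₁ s / riemannZeta₁ s + riemannZeta₀ s +
    LSeries (fun n => ((pp n : ℝ) : ℂ)) s - 1

theorem Gf_diff (s : ℂ) (hs : 1 / 2 < s.re) (hz : riemannZeta₁ s ≠ 0) :
    DifferentiableAt ℂ Gf s := by
  have h0 : DifferentiableAt ℂ riemannZeta₀ s := differentiable_riemannZeta₀ s
  have h1 : DifferentiableAt ℂ riemannZeta₁ s := differentiable_riemannZeta₁ s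
  have h1' : DifferentiableAt ℂ (deriv riemannZeta₁) s := differentiable_riemannZeta₁.deriv s
  unfold Gf
  exact (((h1'.div h1 hz).add h0).add (pp_diff s hs)).sub_const 1

theorem bb_deriv (s : ℂ) (hs : 1 < s.re) :
    HasDerivAt (LSeries (fun n => ((bb n : ℝ) : ℂ))) (Gf s) s := by
  have habs : abscissaOfAbsConv (fun n => ((bb n : ℝ) : ℂ)) < ((s.re : ℝ) : EReal) := by
    have h1 : abscissaOfAbsConv (fun n => ((bb n : ℝ) : ℂ)) ≤ ((1 : ℝ) : EReal) := by
      refine abscissaOfAbsConv_le_of_forall_lt_LSeriesSummable fun y hy => ?_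
      exact bb_summable _ (by simpa using hy)
    exact lt_of_le_of_lt h1 (by exact_mod_cast hs)
  have h1 := LSeries_hasDerivAt habs
  have hs1 : s ≠ 1 := by
    intro h
    rw [h] at hs
    simp at hs
  have hz : riemannZeta s ≠ 0 := riemannZeta_ne_zero_of_one_lt_re hs
  have hsub : s - 1 ≠ 0 := sub_ne_zero.2 hs1
  have hz1 : riemannZeta₁ s ≠ 0 := by
    intro h
    apply hz
    rw [riemannZeta_eq_inv_sub_mul hs1, h, mul_zero]
  have hL : LSeriesHasSum (fun n => ((ArithmeticFunction.vonMangoldt n : ℝ) : ℂ)) s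
      (-(deriv riemannZeta s / riemannZeta s)) := by
    have h2 := (ArithmeticFunction.LSeriesSummable_vonMangoldt hs).LSeriesHasSum
    rw [ArithmeticFunction.LSeries_vonMangoldt_eq_deriv_riemannZeta_div hs, neg_div] at h2
    exact h2
  have hP := (pp_summable s (by linarith)).LSeriesHasSum
  have hO := LSeriesHasSum_one hs
  have hD : LSeriesHasSum LSeries.delta s 1 := by
    have h2 : LSeriesSummable LSeries.delta s :=
      LSeriesSummable_of_bounded_of_one_lt_re (m := 1) (fun n _ => by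
        unfold LSeries.delta
        split_ifs <;> simp) hs
    have h3 := h2.LSeriesHasSum
    rw [LSeries_delta] at h3
    exact h3
  have hall := ((hL.sub hP).sub hO).add hD
  have hcong : LSeriesHasSum (logMul (fun n => ((bb n : ℝ) : ℂ))) s
      (-(deriv riemannZeta s / riemannZeta s) - LSeries (fun n => ((pp n : ℝ) : ℂ)) s -
        riemannZeta s + 1) := by
    refine (LSeriesHasSum_congr s _ fun {n} hn => ?_).1 hall
    simp only [Pi.add_apply, Pi.sub_apply, Pi.one_apply, logMul, bb, if_neg hn, LSeries.delta, pp]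
    rcases Nat.lt_or_ge n 2 with h2 | h2
    · have h3 : n = 1 := by omega
      subst h3
      simp
    · have h3 : n ≠ 1 := by omega
      have h4 : max (n : ℝ) 2 = n := max_eq_left (by exact_mod_cast h2)
      have h5 : Real.log n ≠ 0 := by
        have : (1 : ℝ) < n := by exact_mod_cast (by omega : 1 < n)
        exact (Real.log_pos this).ne'
      have h6 : Complex.log n = ((Real.log n : ℝ) : ℂ) := by rw [natCast_log]
      rw [if_neg h3, h4, h6]
      generalize Real.log n = l at h5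
      have h5' : ((l : ℝ) : ℂ) ≠ 0 := by exact_mod_cast h5
      split_ifs with hp
      · push_cast
        field_simp
        ring
      · push_cast
        field_simp
        ring
  have e : -LSeries (logMul (fun n => ((bb n : ℝ) : ℂ))) s = Gf s := by
    rw [hcong.LSeries_eq]
    unfold Gf
    rw [deriv_riemannZeta_eq_neg_inv_sub_sq_mul_add hs1, riemannZeta_eq_inv_sub_mul hs1]
    have e0 : riemannZeta₁ s = (s - 1) * riemannZeta s := by
      rw [riemannZeta_eq_inv_sub_mul hs1]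
      field_simp
    have e1 : riemannZeta₀ s = (s - 1)⁻¹ * riemannZeta₁ s - (s - 1)⁻¹ := by
      have h3 := riemannZeta_eq_inv_sub_add hs1
      rw [riemannZeta_eq_inv_sub_mul hs1] at h3
      linear_combination -h3
    rw [e1]
    field_simp
    ring
  rw [e] at h1
  exact h1


theorem lnd_term (α : ℝ) {s : ℂ} (hs : s + 1 - α ≠ 0) (n : ℕ) :
    LSeries.term (fun n => (((n : ℝ) ^ α : ℝ) : ℂ)) (s + 1) n = 1 / (n : ℂ) ^ (s + 1 - α) := by
  rcases Nat.eq_zero_or_pos n with h | h
  · subst h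
    rw [LSeries.term_zero, Nat.cast_zero, Complex.zero_cpow hs, div_zero]
  · rw [LSeries.term_of_ne_zero h.ne']
    have h0 : (n : ℂ) ≠ 0 := by exact_mod_cast h.ne'
    rw [Complex.cpow_sub _ _ h0, Complex.ofReal_cpow (Nat.cast_nonneg n), Complex.ofReal_natCast]
    rw [one_div, inv_div]

theorem lnd_pow (α : ℝ) {s : ℂ} (hs : α < s.re) :
    LSeriesHasSum (fun n => (((n : ℝ) ^ α : ℝ) : ℂ)) (s + 1) (riemannZeta (s + 1 - α)) := by
  have hre : 1 < (s + 1 - α).re := by
    simp only [sub_re, add_re, one_re, ofReal_re]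
    linarith
  have hne : s + 1 - α ≠ 0 := by
    intro h
    rw [h] at hre
    simp at hre
    linarith
  unfold LSeriesHasSum
  have h1 : (LSeries.term (fun n => (((n : ℝ) ^ α : ℝ) : ℂ)) (s + 1)) =
      fun n : ℕ => 1 / (n : ℂ) ^ (s + 1 - α) := by
    ext n
    exact lnd_term α hne n
  rw [h1, zeta_eq_tsum_one_div_nat_cpow hre]
  exact (Complex.summable_one_div_nat_cpow.mpr hre).hasSum

/-- the nonnegative coefficients -/
noncomputable def aa (σ C α : ℝ) (n : ℕ) : ℂ := ((σ * BB n + C * (n : ℝ) ^ α : ℝ) : ℂ)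

/-- the series of `aa` far to the right -/
theorem aa_sum (σ C α : ℝ) (hα1 : α ≤ 1) (K : ℂ → ℂ)
    (hK : ∀ s : ℂ, 1 < s.re →
      LSeriesSummable (fun n => ((BB n : ℝ) : ℂ)) (s + 1) ∧
      LSeries (fun n => ((BB n : ℝ) : ℂ)) (s + 1) =
        LSeries (fun n => ((bb n : ℝ) : ℂ)) s / s + K s) {s : ℂ} (hs : 1 < s.re) :
    LSeriesHasSum (aa σ C α) (s + 1)
      (σ * (LSeries (fun n => ((bb n : ℝ) : ℂ)) s / s + K s) + C * riemannZeta (s + 1 - α)) := by
  have h1 : LSeriesHasSum (fun n => ((BB n : ℝ) : ℂ)) (s + 1)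
      (LSeries (fun n => ((bb n : ℝ) : ℂ)) s / s + K s) := by
    rw [← (hK s hs).2]
    exact (hK s hs).1.LSeriesHasSum
  have h3 := lnd_pow α (s := s) (by linarith)
  have h4 := (h1.smul (σ : ℂ)).add (h3.smul (C : ℂ))
  have e4 : aa σ C α = (σ : ℂ) • (fun n : ℕ => ((BB n : ℝ) : ℂ)) +
      (C : ℂ) • (fun n : ℕ => (((n : ℝ) ^ α : ℝ) : ℂ)) := by
    ext n
    simp only [aa, Pi.add_apply, Pi.smul_apply, smul_eq_mul]
    push_cast
    ring
  rw [e4]
  exact h4

/-- the abscissa -/
theorem aa_abs (σ C α : ℝ) (hσ : σ * σ = 1) (hα : 1 / 2 ≤ α) (hα1 : α ≤ 1)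
    (h0 : ∀ n : ℕ, 0 ≤ σ * BB n + C * (n : ℝ) ^ α) :
    abscissaOfAbsConv (aa σ C α) ≤ ((1 + α : ℝ) : EReal) := by
  obtain ⟨K, hK1, hK⟩ := lnb BB bb 2 (by norm_num) BB_abs BB_succ bb_summable
  have ha : (0 : ℕ → ℂ) ≤ aa σ C α := by
    intro n
    exact Complex.zero_le_real.2 (h0 n)
  have h2 : abscissaOfAbsConv (aa σ C α) ≤ ((2 : ℝ) : EReal) := by
    refine abscissaOfAbsConv_le_of_forall_lt_LSeriesSummable fun y hy => ?_
    have h3 := (aa_sum σ C α hα1 K hK (s := ((y - 1 : ℝ) : ℂ)) (by rw [ofReal_re]; linarith)).LSeriesSummable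
    have e : ((y - 1 : ℝ) : ℂ) + 1 = (y : ℂ) := by push_cast; ring
    rwa [e] at h3
  refine landau_local _ ha _ (ne_of_lt (lt_of_le_of_lt h2 (EReal.coe_lt_top _))) ?_
  intro x₀ hx₀ habs
  have hx₀2 : x₀ ≤ 2 := by rw [habs] at h2; exact_mod_cast h2
  set A : ℂ → ℂ := LSeries (aa σ C α) with hA
  have hAan : ∀ z : ℂ, x₀ < z.re → AnalyticAt ℂ A z := by
    intro z hz
    refine LSeries_analyticOnNhd _ z ?_
    show abscissaOfAbsConv (aa σ C α) < _
    rw [habs]
    exact_mod_cast hz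
  have hKan : ∀ z : ℂ, 1 < z.re → AnalyticAt ℂ (fun z => K (z - 1)) z := by
    intro z hz
    have hU : IsOpen {w : ℂ | 1 < w.re} := isOpen_lt continuous_const Complex.continuous_re
    have h3 : DifferentiableOn ℂ (fun z : ℂ => K (z - 1)) {w : ℂ | 1 < w.re} := by
      refine hK1.comp (by fun_prop) ?_
      intro w hw
      have hw : 1 < w.re := hw
      show 0 < (w - 1).re
      rw [sub_re, one_re]
      linarith
    exact h3.analyticAt (hU.mem_nhds hz)
  have hZan : ∀ z : ℂ, z - α ≠ 1 → AnalyticAt ℂ (fun z => riemannZeta (z - α)) z := by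
    intro z hz
    have hU : IsOpen {w : ℂ | w - α ≠ 1} := by
      refine isOpen_ne_fun (by fun_prop) (by fun_prop)
    have h3 : DifferentiableOn ℂ (fun z : ℂ => riemannZeta (z - α)) {w : ℂ | w - α ≠ 1} := by
      intro w hw
      refine DifferentiableAt.differentiableWithinAt ?_
      exact DifferentiableAt.comp w (differentiableAt_riemannZeta hw) (by fun_prop)
    exact h3.analyticAt (hU.mem_nhds hz)
  have hne1 : ∀ z : ℂ, x₀ ≤ z.re → z - α ≠ 1 := by
    intro z hz h
    have h3 : (z - α).re = 1 := by rw [h]; simp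
    rw [sub_re, ofReal_re] at h3
    linarith
  -- the function `E`
  set E : ℂ → ℂ := fun z => (z - 1) * (σ * (A z - C * riemannZeta (z - α)) - K (z - 1)) with hE
  have hEan : ∀ z : ℂ, x₀ < z.re → AnalyticAt ℂ E z := by
    intro z hz
    have h3 := hAan z hz
    have h4 := hKan z (by linarith)
    have h5 := hZan z (hne1 z hz.le)
    have h6 : AnalyticAt ℂ (fun z : ℂ => z - 1) z := by fun_prop
    exact h6.mul ((analyticAt_const.mul (h3.sub (analyticAt_const.mul h5))).sub h4)
  have hED : ∀ z : ℂ, 2 < z.re → E z = LSeries (fun n => ((bb n : ℝ) : ℂ)) (z - 1) := by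
    intro z hz
    have h3 := (aa_sum σ C α hα1 K hK (s := z - 1) (by rw [sub_re, one_re]; linarith)).LSeries_eq
    have e : z - 1 + 1 = z := by ring
    rw [e] at h3
    simp only [hE, hA]
    rw [h3]
    have hz1 : z - 1 ≠ 0 := by
      intro h
      have h4 : (z - 1).re = 0 := by rw [h]; simp
      rw [sub_re, one_re] at h4
      linarith
    have hσ' : (σ : ℂ) * σ = 1 := by exact_mod_cast hσ
    have e2 : (σ : ℂ) * (σ * (LSeries (fun n => ((bb n : ℝ) : ℂ)) (z - 1) / (z - 1) + K (z - 1)) +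
        C * riemannZeta (z - α) - C * riemannZeta (z - α)) - K (z - 1) =
        LSeries (fun n => ((bb n : ℝ) : ℂ)) (z - 1) / (z - 1) := by
      linear_combination (LSeries (fun n => ((bb n : ℝ) : ℂ)) (z - 1) / (z - 1) + K (z - 1)) * hσ'
    rw [e2]
    field_simp
  have hE' : ∀ z : ℂ, 2 < z.re → deriv E z = Gf (z - 1) := by
    intro z hz
    have h3 : E =ᶠ[𝓝 z] fun w => LSeries (fun n => ((bb n : ℝ) : ℂ)) (w - 1) := by
      have hU : IsOpen {w : ℂ | 2 < w.re} := isOpen_lt continuous_const Complex.continuous_re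
      filter_upwards [hU.mem_nhds hz] with w hw using hED w hw
    rw [h3.deriv_eq]
    have h4 := bb_deriv (z - 1) (by rw [sub_re, one_re]; linarith)
    exact (h4.comp_sub_const z 1).deriv
  -- a ball on which `Gf (z - 1)` is differentiable
  have hGreal : ∀ x : ℝ, x₀ ≤ x → AnalyticAt ℂ (fun z => Gf (z - 1)) (x : ℂ) := by
    intro x hx
    set V : Set ℂ := {w : ℂ | 3 / 2 < w.re ∧ riemannZeta₁ (w - 1) ≠ 0} with hV
    have hVo : IsOpen V := by
      refine (isOpen_lt continuous_const Complex.continuous_re).inter ?_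
      refine isOpen_ne_fun ?_ continuous_const
      exact differentiable_riemannZeta₁.continuous.comp (by fun_prop)
    have h3 : DifferentiableOn ℂ (fun z => Gf (z - 1)) V := by
      intro w hw
      refine DifferentiableAt.differentiableWithinAt ?_
      have h4 : 1 / 2 < (w - 1).re := by
        rw [sub_re, one_re]
        have := hw.1
        linarith
      exact DifferentiableAt.comp (g := Gf) (f := fun z : ℂ => z - 1) w (Gf_diff (w - 1) h4 hw.2)
        (by fun_prop)
    refine h3.analyticAt (hVo.mem_nhds ⟨?_, ?_⟩)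
    · show 3 / 2 < (x : ℂ).re
      rw [ofReal_re]
      linarith
    · show riemannZeta₁ ((x : ℂ) - 1) ≠ 0
      have e : (x : ℂ) - 1 = ((x - 1 : ℝ) : ℂ) := by push_cast; ring
      rw [e]
      exact zeta1_real _ (by linarith)
  have hex : ∃ R > 0, DifferentiableOn ℂ (fun z => Gf (z - 1)) (Metric.ball (x₀ : ℂ) R) ∧
      ∀ z ∈ Metric.ball (x₀ : ℂ) R, 1 < z.re ∧ z - α ≠ 1 := by
    have h3 := (hGreal x₀ le_rfl).eventually_analyticAt
    have h4 : ∀ᶠ z : ℂ in 𝓝 (x₀ : ℂ), 1 < z.re := by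
      refine (isOpen_lt continuous_const Complex.continuous_re).mem_nhds ?_
      show 1 < (x₀ : ℂ).re
      rw [ofReal_re]; linarith
    have h5 : ∀ᶠ z : ℂ in 𝓝 (x₀ : ℂ), z - α ≠ 1 := by
      have hU : IsOpen {w : ℂ | w - α ≠ 1} := isOpen_ne_fun (by fun_prop) (by fun_prop)
      exact hU.mem_nhds (hne1 _ (by rw [ofReal_re]))
    obtain ⟨R, hR, hb⟩ := Metric.eventually_nhds_iff_ball.1 (h3.and (h4.and h5))
    exact ⟨R, hR, fun z hz => (hb z hz).1.differentiableAt.differentiableWithinAt,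
      fun z hz => (hb z hz).2⟩
  obtain ⟨R, hR, hGB, hB⟩ := hex
  have hEG := anl_ext (deriv E) (fun z => Gf (z - 1)) x₀ 2 R hR (fun z hz => (hEan z hz).deriv)
    (fun x hx => hGreal x hx.le) hGB hE'
  obtain ⟨P, hP⟩ := hGB.isExactOn_ball
  -- `E - P` is constant on the half ball
  set W : Set ℂ := Metric.ball (x₀ : ℂ) R ∩ {z : ℂ | x₀ < z.re} with hW
  have hWo : IsOpen W := Metric.isOpen_ball.inter (isOpen_lt continuous_const Complex.continuous_re)
  have hWc : Convex ℝ W := (convex_ball _ _).inter (convex_halfSpace_re_gt x₀)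
  have hder : ∀ z ∈ W, HasDerivAt (fun w => E w - P w) 0 z := by
    intro z hz
    have h3 := (hEan z hz.2).differentiableAt.hasDerivAt
    rw [hEG z hz.1 hz.2] at h3
    have h4 := h3.sub (hP z hz.1)
    rw [sub_self] at h4
    exact h4
  obtain ⟨κ, hκ⟩ : ∃ κ : ℂ, ∀ z ∈ W, E z - P z = κ := by
    refine hWo.exists_is_const_of_deriv_eq_zero hWc.isPreconnected
      (fun z hz => (hder z hz).differentiableAt.differentiableWithinAt) (fun z hz => (hder z hz).deriv)
  refine ⟨fun z => σ * ((P z + κ) / (z - 1) + K (z - 1)) + C * riemannZeta (z - α), R, hR, ?_, ?_⟩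
  · intro z hz
    obtain ⟨h3, h4⟩ := hB z hz
    refine DifferentiableAt.differentiableWithinAt ?_
    have h5 : z - 1 ≠ 0 := by
      intro h
      have h4 : (z - 1).re = 0 := by rw [h]; simp
      rw [sub_re, one_re] at h4
      linarith
    have h6 := (hKan z h3).differentiableAt
    have h7 := (hZan z h4).differentiableAt
    have h8 := (hP z hz).differentiableAt
    exact ((((h8.add_const κ).div (by fun_prop) h5).add h6).const_mul _).add (h7.const_mul _)
  · intro z hz hz2
    have h3 := hκ z ⟨hz, hz2⟩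
    have h5 : z - 1 ≠ 0 := by
      intro h
      have h4 : (z - 1).re = 0 := by rw [h]; simp
      rw [sub_re, one_re] at h4
      linarith
    have hσ' : (σ : ℂ) * σ = 1 := by exact_mod_cast hσ
    have h4 : P z + κ = E z := by rw [← h3]; ring
    show (σ : ℂ) * ((P z + κ) / (z - 1) + K (z - 1)) + C * riemannZeta (z - α) = A z
    rw [h4]
    simp only [hE]
    rw [mul_div_cancel_left₀ _ h5]
    linear_combination (A z - C * riemannZeta (z - α)) * hσ'

/-- **Landau's lemma for `π`.** -/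
theorem lnd_sum (σ C α : ℝ) (hσ : |σ| = 1) (hC : 0 ≤ C) (hα : 1 / 2 ≤ α) (hα1 : α ≤ 1)
    (h0 : ∀ n : ℕ, 0 ≤ σ * BB n + C * (n : ℝ) ^ α) (w : ℝ) (hw : α < w) :
    Summable fun n : ℕ => |BB n| * (n : ℝ) ^ (-(1 + w)) := by
  have hσ2 : σ * σ = 1 := by
    have := sq_abs σ
    rw [hσ] at this
    nlinarith
  have h1 := aa_abs σ C α hσ2 hα hα1 h0
  have h2 : LSeriesSummable (aa σ C α) ((1 + w : ℝ) : ℂ) := by
    refine LSeriesSummable_of_abscissaOfAbsConv_lt_re (lt_of_le_of_lt h1 ?_)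
    rw [ofReal_re]
    exact_mod_cast (by linarith : 1 + α < 1 + w)
  have h3 := h2.norm
  have h4 : Summable fun n : ℕ => (n : ℝ) ^ (α - (1 + w)) := by
    rw [Real.summable_nat_rpow]
    linarith
  refine Summable.of_nonneg_of_le (fun n => by positivity) (fun n => ?_) (h3.add (h4.mul_left C))
  rcases Nat.eq_zero_or_pos n with hn | hn
  · subst hn
    rw [BB_zero, abs_zero, zero_mul]
    positivity
  · have hn0 : (0 : ℝ) < n := by exact_mod_cast hn
    rw [LSeries.norm_term_eq, if_neg hn.ne', ofReal_re]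
    have h5 : ‖aa σ C α n‖ = σ * BB n + C * (n : ℝ) ^ α := by
      unfold aa
      rw [norm_real, Real.norm_eq_abs, abs_of_nonneg (h0 n)]
    rw [h5]
    have h6 : |BB n| ≤ σ * BB n + 2 * (C * (n : ℝ) ^ α) := by
      have h7 : |BB n| = |σ * BB n| := by rw [abs_mul, hσ, one_mul]
      rw [h7, abs_le]
      have h8 := h0 n
      have h9 : 0 ≤ C * (n : ℝ) ^ α := by positivity
      constructor <;> linarith
    have e1 : (n : ℝ) ^ (α - (1 + w)) = (n : ℝ) ^ α * (n : ℝ) ^ (-(1 + w)) := by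
      rw [← Real.rpow_add hn0]
      congr 1
    rw [e1, div_eq_mul_inv, ← Real.rpow_neg hn0.le]
    have h10 : 0 ≤ (n : ℝ) ^ (-(1 + w)) := by positivity
    calc |BB n| * (n : ℝ) ^ (-(1 + w)) ≤
          (σ * BB n + 2 * (C * (n : ℝ) ^ α)) * (n : ℝ) ^ (-(1 + w)) :=
          mul_le_mul_of_nonneg_right h6 h10
      _ = _ := by ring

end Pool.Agent.H24.TS
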