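import Pool.Agent.H99.GB.Mv

/-!
# [H24 TS MVT]  the mean value of the character sums over primes, moduli up to `X^ρ`, `ρ < 1/3`

The proof of `H99/GB/Mv` (`th_mean`, `u = ⌊X^(1/3)⌋`): exponents `1`, `1 + ρ - 1/6`, `1/2 + 2ρ`, `1/3 + 5ρ/2` against `1 + ρ/2 - η`
(`0 < ρ < 1/3`, `η` small).
-/

set_option autoImplicit false

namespace Pool.Agent.H24.TS

open Finset Pool.Agent.H67.VS Pool.Agent.H21.MT Pool.Agent.H67.VU Pool.Agent.H99.GB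

theorem mvt (ρ : ℝ) (h0 : 0 < ρ) (h1 : ρ < 1 / 3) : ∃ η : ℝ, 0 < η ∧ ∃ X0 : ℕ, ∀ X : ℕ, X0 ≤ X →
    ∑ q ∈ QQ ⌊(X : ℝ) ^ ρ⌋₊, SC X q ≤ (X : ℝ) ^ (1 + ρ / 2 - η) := by
  obtain ⟨C, hC, hth⟩ := th_mean
  obtain ⟨g, hg0, hg1, hg2⟩ : ∃ g : ℝ, 0 < g ∧ g ≤ ρ ∧ g ≤ 1 / 3 - ρ :=
    ⟨min ρ (1 / 3 - ρ), lt_min h0 (by linarith), min_le_left _ _, min_le_right _ _⟩
  obtain ⟨X1, hX1⟩ := mv_log (100 * C) (g / 24) (by positivity) (by positivity) 5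
  refine ⟨g / 8, by positivity, max X1 8, fun X hX => ?_⟩
  have hX8 : 8 ≤ X := (le_max_right _ _).trans hX
  have hX8r : (8 : ℝ) ≤ X := by exact_mod_cast hX8
  have hX0 : (0 : ℝ) < X := by linarith
  have hXone : (1 : ℝ) ≤ X := by linarith
  have hlog := hX1 X ((le_max_left _ _).trans hX)
  set R : ℕ := ⌊(X : ℝ) ^ ρ⌋₊ with hR
  set u : ℕ := ⌊(X : ℝ) ^ (1 / 3 : ℝ)⌋₊ with hu
  have hRle : (R : ℝ) ≤ (X : ℝ) ^ ρ := Nat.floor_le (by positivity)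
  have hule : (u : ℝ) ≤ (X : ℝ) ^ (1 / 3 : ℝ) := Nat.floor_le (by positivity)
  have h2le : (2 : ℝ) ≤ (X : ℝ) ^ (1 / 3 : ℝ) := by
    have e1 : (2 : ℝ) = (8 : ℝ) ^ (1 / 3 : ℝ) := by
      rw [show (8 : ℝ) = 2 ^ (3 : ℝ) by norm_num, ← Real.rpow_mul (by norm_num)]
      norm_num
    rw [e1]
    exact Real.rpow_le_rpow (by norm_num) hX8r (by norm_num)
  have hu2 : 2 ≤ u := by
    rw [hu]
    exact Nat.le_floor (by exact_mod_cast h2le)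
  have huge : (X : ℝ) ^ (1 / 3 : ℝ) / 4 ≤ u := by
    have := Nat.lt_floor_add_one ((X : ℝ) ^ (1 / 3 : ℝ))
    rw [← hu] at this
    linarith
  have hu3 : u ^ 3 ≤ X := by
    have e1 : (u : ℝ) ^ 3 ≤ X := by
      calc (u : ℝ) ^ 3 ≤ ((X : ℝ) ^ (1 / 3 : ℝ)) ^ 3 := pow_le_pow_left₀ (Nat.cast_nonneg _) hule 3
        _ = X := by
            rw [← Real.rpow_natCast, ← Real.rpow_mul hX0.le]
            norm_num
    exact_mod_cast e1
  have hX2R : 2 * R ≤ 2 * X := by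
    have e1 : (R : ℝ) ≤ X := by
      calc (R : ℝ) ≤ (X : ℝ) ^ ρ := hRle
        _ ≤ (X : ℝ) ^ (1 : ℝ) := Real.rpow_le_rpow_of_exponent_le hXone (by linarith)
        _ = X := Real.rpow_one _
    have e2 : R ≤ X := by exact_mod_cast e1
    omega
  have hm := hth (2 * R) u X (2 * X) (by omega) hu3 (by omega) hX2R
  refine (mv_PC X R).trans (hm.trans ?_)
  have hsqu : (X : ℝ) ^ (1 / 6 : ℝ) / 2 ≤ Real.sqrt u := by
    rw [show (X : ℝ) ^ (1 / 6 : ℝ) / 2 = Real.sqrt ((X : ℝ) ^ (1 / 3 : ℝ) / 4) by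
      rw [Real.sqrt_div (by positivity), Real.sqrt_eq_rpow ((X : ℝ) ^ (1 / 3 : ℝ)), ← Real.rpow_mul hX0.le,
        show Real.sqrt 4 = 2 by
          rw [show (4 : ℝ) = 2 ^ 2 by norm_num]
          exact Real.sqrt_sq (by norm_num)]
      norm_num]
    exact Real.sqrt_le_sqrt huge
  push_cast
  have hsq2X : Real.sqrt (2 * X) ≤ 2 * (X : ℝ) ^ (1 / 2 : ℝ) := by
    rw [Real.sqrt_mul (by norm_num), Real.sqrt_eq_rpow (X : ℝ)]
    have : Real.sqrt 2 ≤ 2 := by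
      rw [Real.sqrt_le_left (by norm_num)]
      norm_num
    exact mul_le_mul_of_nonneg_right this (by positivity)
  have hsq2R : Real.sqrt (2 * R) ≤ 2 * (X : ℝ) ^ (ρ / 2) := by
    rw [Real.sqrt_mul (by norm_num), Real.sqrt_eq_rpow (R : ℝ)]
    have e1 : Real.sqrt 2 ≤ 2 := by
      rw [Real.sqrt_le_left (by norm_num)]
      norm_num
    have e2 : (R : ℝ) ^ (1 / 2 : ℝ) ≤ (X : ℝ) ^ (ρ / 2) := by
      calc (R : ℝ) ^ (1 / 2 : ℝ) ≤ ((X : ℝ) ^ ρ) ^ (1 / 2 : ℝ) :=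
            Real.rpow_le_rpow (Nat.cast_nonneg _) hRle (by norm_num)
        _ = (X : ℝ) ^ (ρ / 2) := by
            rw [← Real.rpow_mul hX0.le]
            congr 1
            ring
    exact mul_le_mul e1 e2 (by positivity) (by norm_num)
  set Y : ℝ := (X : ℝ) ^ (1 + ρ / 2 - g / 8 - g / 24) with hY
  have t1 : 2 * (X : ℝ) ≤ 2 * Y := by
    have : (X : ℝ) ≤ Y := by
      calc (X : ℝ) = (X : ℝ) ^ (1 : ℝ) := (Real.rpow_one _).symm
        _ ≤ Y := Real.rpow_le_rpow_of_exponent_le hXone (by linarith)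
    linarith
  have t2 : 2 * (R : ℝ) * (2 * X) / Real.sqrt u ≤ 8 * Y := by
    rw [div_le_iff₀ (by
      refine lt_of_lt_of_le ?_ hsqu
      positivity)]
    calc 2 * (R : ℝ) * (2 * X) ≤ 2 * (X : ℝ) ^ ρ * (2 * X) := by gcongr
      _ = 4 * ((X : ℝ) ^ ρ * (X : ℝ) ^ (1 : ℝ)) := by rw [Real.rpow_one]; ring
      _ = 4 * (X : ℝ) ^ (ρ + 1) := by rw [← Real.rpow_add hX0]
      _ ≤ 4 * (X : ℝ) ^ ((1 + ρ / 2 - g / 8 - g / 24) + 1 / 6) := by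
          have := Real.rpow_le_rpow_of_exponent_le hXone
            (by linarith : ρ + 1 ≤ (1 + ρ / 2 - g / 8 - g / 24) + 1 / 6)
          linarith
      _ = 8 * Y * ((X : ℝ) ^ (1 / 6 : ℝ) / 2) := by
          rw [Real.rpow_add hX0, hY]
          ring
      _ ≤ 8 * Y * Real.sqrt u := by gcongr
  have t3 : (2 * (R : ℝ)) ^ 2 * Real.sqrt (2 * X) ≤ 8 * Y := by
    calc (2 * (R : ℝ)) ^ 2 * Real.sqrt (2 * X) ≤ (2 * (X : ℝ) ^ ρ) ^ 2 * (2 * (X : ℝ) ^ (1 / 2 : ℝ)) := by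
          gcongr
      _ = 8 * ((X : ℝ) ^ ρ * (X : ℝ) ^ ρ * (X : ℝ) ^ (1 / 2 : ℝ)) := by ring
      _ = 8 * (X : ℝ) ^ (ρ + ρ + 1 / 2) := by rw [← Real.rpow_add hX0, ← Real.rpow_add hX0]
      _ ≤ 8 * Y := by
          have := Real.rpow_le_rpow_of_exponent_le hXone
            (by linarith : ρ + ρ + 1 / 2 ≤ 1 + ρ / 2 - g / 8 - g / 24)
          rw [hY]
          linarith
  have t4 : (2 * (R : ℝ)) ^ 2 * Real.sqrt (2 * R) * u ≤ 8 * Y := by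
    calc (2 * (R : ℝ)) ^ 2 * Real.sqrt (2 * R) * u
        ≤ (2 * (X : ℝ) ^ ρ) ^ 2 * (2 * (X : ℝ) ^ (ρ / 2)) * (X : ℝ) ^ (1 / 3 : ℝ) := by
          gcongr
      _ = 8 * ((X : ℝ) ^ ρ * (X : ℝ) ^ ρ * (X : ℝ) ^ (ρ / 2) * (X : ℝ) ^ (1 / 3 : ℝ)) := by ring
      _ = 8 * (X : ℝ) ^ (ρ + ρ + ρ / 2 + 1 / 3) := by
          rw [← Real.rpow_add hX0, ← Real.rpow_add hX0, ← Real.rpow_add hX0]
      _ ≤ 8 * Y := by
          have := Real.rpow_le_rpow_of_exponent_le hXone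
            (by linarith : ρ + ρ + ρ / 2 + 1 / 3 ≤ 1 + ρ / 2 - g / 8 - g / 24)
          rw [hY]
          linarith
  have hY0 : 0 < Y := by positivity
  have hl2 : Real.log (2 * X) ≤ Real.log (3 * X) := Real.log_le_log (by linarith) (by linarith)
  have hl0 : 0 ≤ Real.log (2 * X) := Real.log_nonneg (by linarith)
  calc C * (1 + Real.log (2 * X)) ^ 5 *
        (2 * X + 2 * R * (2 * X) / Real.sqrt u + (2 * R) ^ 2 * Real.sqrt (2 * X) +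
          (2 * R) ^ 2 * Real.sqrt (2 * R) * u)
      ≤ C * (1 + Real.log (3 * X)) ^ 5 * (2 * Y + 8 * Y + 8 * Y + 8 * Y) := by
        have e0 : 0 ≤ C * (1 + Real.log (3 * X)) ^ 5 := by
          have : 0 ≤ Real.log (3 * X) := hl0.trans hl2
          positivity
        gcongr
    _ ≤ (100 * C) * (1 + Real.log (3 * X)) ^ 5 * Y := by
        have e1 : 0 ≤ C * (1 + Real.log (3 * X)) ^ 5 * Y := by
          have : 0 ≤ Real.log (3 * X) := hl0.trans hl2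
          positivity
        linarith
    _ ≤ (X : ℝ) ^ (g / 24) * Y := by gcongr
    _ = (X : ℝ) ^ (1 + ρ / 2 - g / 8) := by
        rw [hY, ← Real.rpow_add hX0]
        congr 1
        ring

end Pool.Agent.H24.TS
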