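import Mathlib

/-!
# [H24 TS BLK]  block averaging
-/

set_option autoImplicit false

namespace Pool.Agent.H24.TS

open Finset

theorem blk (X m : ℕ) (hm : m ≤ X) (E F B : ℕ → ℝ) (V : ℝ) (hV : 0 ≤ V) (hB0 : ∀ x, 0 ≤ B x)
    (hB : ∀ x n : ℕ, X < n → n ≤ 2 * X → x ≤ n → n ≤ x + m → |E n| ≤ B x)
    (hF : ∀ M : ℕ, ∑ n ∈ Icc M (M + m), |F n| ≤ V * (m + 1)) :
    ∑ n ∈ Ioc X (2 * X), |E n| * |F n| ≤ V * ∑ x ∈ Ioc 0 (2 * X), B x := by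
  have h1 : ∀ n ∈ Ioc X (2 * X), (m + 1 : ℝ) * (|E n| * |F n|) ≤
      ∑ x ∈ Icc (n - m) n, B x * |F n| := by
    intro n hn
    rw [mem_Ioc] at hn
    have h2 : ∑ x ∈ Icc (n - m) n, |E n| * |F n| = (m + 1 : ℝ) * (|E n| * |F n|) := by
      rw [sum_const, Nat.card_Icc, nsmul_eq_mul]
      have h3 : n + 1 - (n - m) = m + 1 := by omega
      rw [h3]
      push_cast
      rfl
    rw [← h2]
    refine sum_le_sum fun x hx => ?_
    rw [mem_Icc] at hx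
    exact mul_le_mul_of_nonneg_right (hB x n hn.1 hn.2 hx.2 (by omega)) (abs_nonneg _)
  have h2 : ∑ n ∈ Ioc X (2 * X), ∑ x ∈ Icc (n - m) n, B x * |F n| ≤
      ∑ x ∈ Ioc 0 (2 * X), ∑ n ∈ Icc x (x + m), B x * |F n| := by
    have e1 : ∀ n ∈ Ioc X (2 * X), ∑ x ∈ Icc (n - m) n, B x * |F n| =
        ∑ x ∈ Ioc 0 (2 * X), if n - m ≤ x ∧ x ≤ n then B x * |F n| else 0 := by
      intro n hn
      rw [mem_Ioc] at hn
      rw [← sum_filter]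
      refine sum_congr ?_ fun _ _ => rfl
      ext x
      rw [mem_filter, mem_Icc, mem_Ioc]
      constructor
      · rintro ⟨h5, h6⟩
        exact ⟨⟨by omega, by omega⟩, h5, h6⟩
      · rintro ⟨_, h5, h6⟩
        exact ⟨h5, h6⟩
    rw [sum_congr rfl e1, sum_comm]
    refine sum_le_sum fun x _ => ?_
    rw [← sum_filter]
    refine sum_le_sum_of_subset_of_nonneg ?_ fun n _ _ => mul_nonneg (hB0 x) (abs_nonneg _)
    intro n hn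
    rw [mem_filter] at hn
    rw [mem_Icc]
    obtain ⟨_, h5, h6⟩ := hn
    exact ⟨h6, by omega⟩
  have h3 : ∑ x ∈ Ioc 0 (2 * X), ∑ n ∈ Icc x (x + m), B x * |F n| ≤
      ∑ x ∈ Ioc 0 (2 * X), B x * (V * (m + 1)) := by
    refine sum_le_sum fun x _ => ?_
    rw [← mul_sum]
    exact mul_le_mul_of_nonneg_left (hF x) (hB0 x)
  have hm0 : (0 : ℝ) < m + 1 := by positivity
  have h4 : (m + 1 : ℝ) * ∑ n ∈ Ioc X (2 * X), |E n| * |F n| ≤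
      (m + 1 : ℝ) * (V * ∑ x ∈ Ioc 0 (2 * X), B x) := by
    calc (m + 1 : ℝ) * ∑ n ∈ Ioc X (2 * X), |E n| * |F n|
        = ∑ n ∈ Ioc X (2 * X), (m + 1 : ℝ) * (|E n| * |F n|) := mul_sum _ _ _
      _ ≤ ∑ n ∈ Ioc X (2 * X), ∑ x ∈ Icc (n - m) n, B x * |F n| := sum_le_sum h1
      _ ≤ ∑ x ∈ Ioc 0 (2 * X), ∑ n ∈ Icc x (x + m), B x * |F n| := h2
      _ ≤ ∑ x ∈ Ioc 0 (2 * X), B x * (V * (m + 1)) := h3
      _ = (m + 1 : ℝ) * (V * ∑ x ∈ Ioc 0 (2 * X), B x) := by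
        rw [← sum_mul]
        ring
  exact le_of_mul_le_mul_left h4 hm0

end Pool.Agent.H24.TS
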