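import Pool.Agent.H99.GB.Four

/-!
# [H24 TS LLS]  local large sieve for the test function: blocks of length `≥ R^2`

PROOF. `ph H q x = ∑_k fc e(k x / q)` (Fourier expansion as in `H99/GB/Four`, `Fex`), `∑_k |fc|^2 = mean of ph^2 ≤ 1`; the fractions `k/q`, `q ∈ QQ R`,
`1 ≤ k < q` are `1/(4R^2)`-separated modulo `1`; `H24/AB/LS.large_sieve` (the tool of `four`) on the block `(M, M+K]`.
-/

set_option autoImplicit false

namespace Pool.Agent.H24.TS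

open Finset Pool.Agent.H99.GB Pool.Agent.H24.AB

private lemma lls_space (R : ℕ) (hR : 1 ≤ R) (i j : Σ _ : ℕ, ℕ)
    (hi : i ∈ (QQ R).sigma (fun q => Ico 1 q)) (hj : j ∈ (QQ R).sigma (fun q => Ico 1 q))
    (hij : i ≠ j) (k : ℤ) :
    1 / (4 * (R : ℝ) ^ 2) ≤ |(i.2 : ℝ) / i.1 - (j.2 : ℝ) / j.1 - k| := by
  obtain ⟨q, a⟩ := i
  obtain ⟨r, b⟩ := j
  simp only [QQ, mem_filter, mem_sigma, mem_Ico, mem_Ioc] at hi hj
  obtain ⟨⟨⟨hqR, hqR'⟩, hq⟩, ha, ha'⟩ := hi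
  obtain ⟨⟨⟨hrR, hrR'⟩, hr⟩, hb, hb'⟩ := hj
  have p1 : (0 : ℝ) < q := by exact_mod_cast hq.pos
  have p2 : (0 : ℝ) < r := by exact_mod_cast hr.pos
  obtain ⟨M, hM⟩ : ∃ M : ℤ, M = (a : ℤ) * r - (b : ℤ) * q - k * (q * r) := ⟨_, rfl⟩
  have hMr : (a : ℝ) / q - (b : ℝ) / r - k = (M : ℝ) / (q * r) := by
    rw [hM]
    push_cast
    field_simp
  have hM0 : M ≠ 0 := by
    intro h0
    rw [hM] at h0
    have hqZ : Prime (q : ℤ) := Nat.prime_iff_prime_int.1 hq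
    have h1 : (q : ℤ) ∣ (a : ℤ) * r := ⟨b + k * r, by linear_combination h0⟩
    rcases hqZ.dvd_or_dvd h1 with h2 | h2
    · have h3 : q ∣ a := by exact_mod_cast h2
      have := Nat.le_of_dvd (by omega) h3
      omega
    · have h3 : q ∣ r := by exact_mod_cast h2
      have h4 : q = r := (Nat.prime_dvd_prime_iff_eq hq hr).1 h3
      subst h4
      have h5 : (a : ℤ) - b = k * q := by
        have hq0 : (q : ℤ) ≠ 0 := hqZ.ne_zero
        apply mul_left_cancel₀ hq0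
        linear_combination h0
      have h6 : k = 0 := by
        have h7 : |(a : ℤ) - b| < q := by
          rw [abs_lt]
          constructor <;> omega
        rw [h5, abs_mul] at h7
        have h8 : |(q : ℤ)| = q := abs_of_nonneg (by positivity)
        rw [h8] at h7
        have h9 : (0 : ℤ) < q := by exact_mod_cast hq.pos
        by_contra hk
        have h10 : (1 : ℤ) ≤ |k| := Int.one_le_abs hk
        nlinarith
      rw [h6, zero_mul] at h5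
      have h7 : a = b := by omega
      subst h7
      exact hij rfl
  have hM1 : (1 : ℝ) ≤ |(M : ℝ)| := by
    have : (1 : ℤ) ≤ |M| := Int.one_le_abs hM0
    exact_mod_cast this
  show 1 / (4 * (R : ℝ) ^ 2) ≤ |(a : ℝ) / q - (b : ℝ) / r - k|
  rw [hMr, abs_div, abs_of_pos (by positivity : (0 : ℝ) < (q : ℝ) * r)]
  have c1 : (q : ℝ) ≤ 2 * R := by exact_mod_cast hqR'
  have c2 : (r : ℝ) ≤ 2 * R := by exact_mod_cast hrR'
  have hprod : (q : ℝ) * r ≤ 4 * (R : ℝ) ^ 2 := by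
    calc (q : ℝ) * r ≤ (2 * R) * (2 * R) := by gcongr
      _ = 4 * (R : ℝ) ^ 2 := by ring
  exact div_le_div₀ (abs_nonneg _) hM1 (by positivity) hprod

theorem lls (M K H R : ℕ) (hR : 1 ≤ R) (hK : R ^ 2 ≤ K) :
    ∑ x ∈ Ioc M (M + K), (G (QQ R) H x) ^ 2 ≤ 1000 * (K : ℝ) * ((QQ R).card : ℝ) := by
  have hpos : ∀ q ∈ QQ R, 0 < q := by
    intro q hq
    unfold QQ at hq
    rw [mem_filter] at hq
    exact hq.2.pos
  have hG : ∀ x : ℕ, ((G (QQ R) H x : ℝ) : ℂ) =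
      ∑ i ∈ (QQ R).sigma (fun q => Ico 1 q), fc H i * ee ((x : ℝ) * ((i.2 : ℝ) / i.1)) := by
    intro x
    unfold G
    rw [Finset.sum_sigma, Complex.ofReal_sum]
    exact Finset.sum_congr rfl fun q hq => fex_exp H q x (hpos q hq)
  have hG2 : ∀ x : ℕ, (G (QQ R) H x) ^ 2 =
      ‖∑ i ∈ (QQ R).sigma (fun q => Ico 1 q), fc H i * ee ((x : ℝ) * ((i.2 : ℝ) / i.1))‖ ^ 2 := by
    intro x
    rw [← hG x, Complex.norm_real, Real.norm_eq_abs, sq_abs]
  have hR1 : (1 : ℝ) ≤ R := by exact_mod_cast hR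
  have hR2 : (1 : ℝ) ≤ (R : ℝ) ^ 2 := one_le_pow₀ hR1
  have hKr : (R : ℝ) ^ 2 ≤ K := by exact_mod_cast hK
  have hK1 : 1 ≤ K := by
    have : (1 : ℝ) ≤ K := hR2.trans hKr
    exact_mod_cast this
  have hls := large_sieve ((QQ R).sigma (fun q => Ico 1 q)) (fun i => (i.2 : ℝ) / i.1) (fun i => fc H i)
    (1 / (4 * (R : ℝ) ^ 2)) (by positivity) (by
      rw [div_le_one (by positivity)]
      linarith) (fun i hi j hj hij k => lls_space R hR i j hi hj hij k) M K hK1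
  have hfc : ∑ i ∈ (QQ R).sigma (fun q => Ico 1 q), ‖fc H i‖ ^ 2 ≤ ((QQ R).card : ℝ) := by
    rw [Finset.sum_sigma]
    calc ∑ q ∈ QQ R, ∑ a ∈ Ico 1 q, ‖fc H ⟨q, a⟩‖ ^ 2 ≤ ∑ q ∈ QQ R, (1 : ℝ) :=
          Finset.sum_le_sum fun q hq => fex_par H q (hpos q hq)
      _ = ((QQ R).card : ℝ) := by simp
  rw [Finset.sum_congr rfl fun x _ => hG2 x]
  refine hls.trans ?_
  have h1 : 1 / (1 / (4 * (R : ℝ) ^ 2)) = 4 * (R : ℝ) ^ 2 := by
    rw [one_div_one_div]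
  rw [h1]
  have h2 : 10 * ((K : ℝ) + 4 * (R : ℝ) ^ 2) ≤ 1000 * K := by linarith
  exact mul_le_mul h2 hfc (Finset.sum_nonneg fun _ _ => by positivity) (by positivity)

end Pool.Agent.H24.TS
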