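import Pool.Agent.H24.TS.Mdb
import Pool.Agent.H24.TS.Lls
import Pool.Agent.H24.TS.Blk
import Pool.Agent.H24.TS.Mvt
import Pool.Agent.H99.GB.Cov
import Pool.Agent.H99.GB.Hq
import Pool.Agent.H99.GB.Trf
import Pool.Agent.H67.VU.Pnt3
import Pool.Agent.H67.TS.Pcs
import Pool.Agent.H67.TS.Lnd

/-!
# [H24 TS FBL]  `δ ≥ θ/4` (`θ ≤ 2/3`), `δ ≥ 1/6` for `θ ≥ 2/3`: block method

PROOF. Suppose `OneN`. `pcs`, `lnd`, `mdb` with `u = 1-θ`, `α = δ + u`. `R = ⌊X^ρ⌋`, `H` from `hq` with `A = R`, `L = 4R` (so `H ≤ 5 X^ρ ≤ X^θ`).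
`cov`, `mvt` (`ρ < 1/3`), `pntA` as in `H99/GB/Fin`: `|∑_{X<n≤2X} G n * ET n H| ≥ N X/50 - error`, `N = #(QQ R) ≥ R/(4 log X)`. `trf`: `|ET| ≤ log(2X) |EI| + 2`.
`lls` with `K = m + 1`, `m = ⌊X^θ⌋ ≥ R^2`, Cauchy: `hF` of `blk` with `V = 40 √N`. `blk` with `E n = EI n H`, `F = G`, `B` of `mdb`:
`∑ |EI||G| ≤ 40 √N X^(1+δ+ε)`, `∑ |G| ≤ 40 √N X`. Hence `√N X ≤ C log X X^(1+δ+ε)`, and `2 δ < ρ`: contradiction.
-/

set_option autoImplicit false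

namespace Pool.Agent.H24.TS

open Finset Pool.Agent.H48.WN Pool.Agent.H67.TS Pool.Agent.H99.GB Pool.Agent.H67.VS Filter

private lemma fbl_card (R : ℕ) : (QQ R).card ≤ R := by
  unfold QQ
  refine (card_filter_le _ _).trans ?_
  rw [Nat.card_Ioc]
  omega

private lemma fbl_pl (R : ℕ) : ∑ n ∈ Ioc R (2 * R), pl n ≤ ((QQ R).card : ℝ) * Real.log (2 * R) := by
  have h : ∑ n ∈ Ioc R (2 * R), pl n = ∑ q ∈ QQ R, Real.log q := by
    unfold QQ pl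
    rw [Finset.sum_filter]
  rw [h, ← nsmul_eq_mul]
  refine Finset.sum_le_card_nsmul _ _ _ fun q hq => ?_
  unfold QQ at hq
  rw [mem_filter, mem_Ioc] at hq
  have h1 : (0 : ℝ) < q := by exact_mod_cast hq.2.pos
  have h2 : (q : ℝ) ≤ 2 * R := by exact_mod_cast hq.1.2
  exact Real.log_le_log h1 h2

private lemma fbl_log (X : ℕ) (hX : 1 ≤ X) : 1 ≤ Real.log (3 * X) := by
  have hX1r : (1 : ℝ) ≤ X := by exact_mod_cast hX
  rw [Real.le_log_iff_exp_le (by linarith)]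
  have := Real.exp_one_lt_d9
  linarith

private lemma fbl_ev (ρ d C : ℝ) (hρ : 0 < ρ) (hd : 0 < d) (hd1 : d ≤ 1) (X1 : ℕ) :
    ∀ᶠ X : ℕ in atTop, X1 ≤ X ∧ 3 ≤ X ∧ (1 - 1 / 2) * (X : ℝ) ≤ ∑ n ∈ Ioc X (2 * X), pl n ∧
      (1 - 1 / 2) * ((⌊(X : ℝ) ^ ρ⌋₊ : ℕ) : ℝ) ≤
        ∑ n ∈ Ioc ⌊(X : ℝ) ^ ρ⌋₊ (2 * ⌊(X : ℝ) ^ ρ⌋₊), pl n ∧
      Real.log (3 * X) ≤ (X : ℝ) ^ d ∧ C ≤ (X : ℝ) ^ d := by
  have hcast : Tendsto (fun X : ℕ => (X : ℝ)) atTop atTop := tendsto_natCast_atTop_atTop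
  have h1 := Pool.Agent.H67.VU.pntA (1 / 2) (by norm_num)
  have hR : Tendsto (fun X : ℕ => ⌊(X : ℝ) ^ ρ⌋₊) atTop atTop :=
    tendsto_nat_floor_atTop.comp ((tendsto_rpow_atTop hρ).comp hcast)
  have h2 := hR.eventually h1
  have h3 : ∀ᶠ X : ℕ in atTop, C ≤ (X : ℝ) ^ d :=
    ((tendsto_rpow_atTop hd).comp hcast).eventually_ge_atTop C
  have h4 : ∀ᶠ y : ℝ in atTop, ‖Real.log y‖ ≤ (1 / 3 : ℝ) * ‖y ^ d‖ :=
    (isLittleO_log_rpow_atTop hd).bound (by norm_num)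
  have h5 : Tendsto (fun X : ℕ => 3 * (X : ℝ)) atTop atTop :=
    hcast.const_mul_atTop (by norm_num)
  have h6 := h5.eventually h4
  filter_upwards [h1, h2, h3, h6, eventually_ge_atTop X1, eventually_ge_atTop 3] with X g1 g2 g3 g6 g7 g8
  refine ⟨g7, g8, g1, g2, ?_, g3⟩
  have hX0 : (0 : ℝ) ≤ X := Nat.cast_nonneg _
  have g9 : ‖(3 * (X : ℝ)) ^ d‖ = (3 * (X : ℝ)) ^ d := Real.norm_of_nonneg (by positivity)
  rw [g9, Real.mul_rpow (by norm_num) hX0] at g6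
  have g10 : (3 : ℝ) ^ d ≤ 3 := by
    have := Real.rpow_le_rpow_of_exponent_le (by norm_num : (1 : ℝ) ≤ 3) hd1
    rwa [Real.rpow_one] at this
  have g11 : (0 : ℝ) ≤ (X : ℝ) ^ d := by positivity
  have g12 := (Real.le_norm_self (Real.log (3 * X))).trans g6
  nlinarith

private lemma fbl_T (X H R : ℕ) (y K Θ M T W : ℝ) (hH1 : 1 ≤ H) (hHX : H ≤ X) (hRy : (R : ℝ) ≤ y)
    (h2R : 2 * R ≤ X) (hy0 : 0 < y) (hK1 : 1 ≤ K) (hlog : Real.log (3 * X) ≤ K)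
    (hΘ : Θ = ∑ m ∈ Ioc X (2 * X), pl m) (hM : M = ∑ q ∈ QQ R, cq H q / ((q : ℝ) - 1))
    (hT : T = ∑ i ∈ Ioc X (2 * X), G (QQ R) H i * ET i H)
    (hW : ∑ q ∈ QQ R, SC X q ≤ W) :
    |T + M * Θ| ≤ Real.sqrt (2 * y) * W + 20 * H * y ^ 2 * K := by
  have h1 : T + M * Θ = ∑ q ∈ QQ R, (∑ i ∈ Ioc X (2 * X), ph H q i * ET i H +
      cq H q / ((q : ℝ) - 1) * Θ) := by
    rw [Finset.sum_add_distrib, ← Finset.sum_mul, ← hM, Finset.sum_comm, hT]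
    congr 1
    refine Finset.sum_congr rfl fun i _ => ?_
    unfold G
    rw [Finset.sum_mul]
  have h2 : ∀ q ∈ QQ R, |∑ i ∈ Ioc X (2 * X), ph H q i * ET i H + cq H q / ((q : ℝ) - 1) * Θ| ≤
      Real.sqrt (2 * y) * SC X q + 20 * H * y * K := by
    intro q hqq
    have h3 := hqq
    unfold QQ at h3
    rw [mem_filter, mem_Ioc] at h3
    have hq2 : (q : ℝ) ≤ 2 * y := by
      have : (q : ℝ) ≤ 2 * R := by exact_mod_cast h3.1.2
      linarith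
    have hqX : q ≤ X := by omega
    have h4 := cov X H q h3.2 hqX hH1 hHX
    rw [← hΘ] at h4
    refine h4.trans ?_
    have hSC : 0 ≤ SC X q := by
      unfold SC
      exact Finset.sum_nonneg fun _ _ => norm_nonneg _
    have h5 : Real.sqrt q * SC X q ≤ Real.sqrt (2 * y) * SC X q :=
      mul_le_mul_of_nonneg_right (Real.sqrt_le_sqrt hq2) hSC
    have hl0 : 0 ≤ Real.log (3 * X) := by
      have := fbl_log X (hH1.trans hHX)
      linarith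
    have h6 : 10 * (H : ℝ) * q * Real.log (3 * X) ≤ 10 * H * (2 * y) * K := by
      have h7 : 10 * (H : ℝ) * q ≤ 10 * H * (2 * y) :=
        mul_le_mul_of_nonneg_left hq2 (by positivity)
      exact mul_le_mul h7 hlog hl0 (by positivity)
    linarith
  rw [h1]
  refine (Finset.abs_sum_le_sum_abs _ _).trans ((Finset.sum_le_sum h2).trans ?_)
  rw [Finset.sum_add_distrib, Finset.sum_const, nsmul_eq_mul, ← Finset.mul_sum]
  have hQy : ((QQ R).card : ℝ) ≤ y := by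
    have : ((QQ R).card : ℝ) ≤ R := by exact_mod_cast fbl_card R
    linarith
  have h9 : ((QQ R).card : ℝ) * (20 * H * y * K) ≤ y * (20 * H * y * K) :=
    mul_le_mul_of_nonneg_right hQy (by positivity)
  have h10 : Real.sqrt (2 * y) * ∑ q ∈ QQ R, SC X q ≤ Real.sqrt (2 * y) * W :=
    mul_le_mul_of_nonneg_left hW (Real.sqrt_nonneg _)
  have h11 : y * (20 * H * y * K) = 20 * H * y ^ 2 * K := by ring
  linarith

private lemma fbl_Q (X R : ℕ) (y K : ℝ) (hR1 : 1 ≤ R) (h2R : 2 * R ≤ X) (hRy2 : y / 2 ≤ R) (hK1 : 1 ≤ K)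
    (hlog : Real.log (3 * X) ≤ K)
    (hThR : (1 - 1 / 2) * (R : ℝ) ≤ ∑ n ∈ Ioc R (2 * R), pl n) : y / (4 * K) ≤ ((QQ R).card : ℝ) := by
  have h1 := fbl_pl R
  have h2 : Real.log (2 * R) ≤ K := by
    refine le_trans (Real.log_le_log ?_ ?_) hlog
    · have : (1 : ℝ) ≤ R := by exact_mod_cast hR1
      linarith
    · have : 2 * R ≤ 3 * X := by omega
      exact_mod_cast this
  have h3 : ((QQ R).card : ℝ) * Real.log (2 * R) ≤ ((QQ R).card : ℝ) * K :=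
    mul_le_mul_of_nonneg_left h2 (Nat.cast_nonneg _)
  rw [div_le_iff₀ (by positivity)]
  have h4 : ((QQ R).card : ℝ) * (4 * K) = 4 * (((QQ R).card : ℝ) * K) := by ring
  linarith

private lemma fbl_a (x y z K H : ℝ) (hx0 : 0 < x) (hy0 : 0 < y) (hz0 : 0 < z) (hK6 : (10 : ℝ) ^ 6 ≤ K)
    (hHzK : H ≤ z * K) (h1 : z * y * K ^ 8 ≤ x) :
    20 * H * y ^ 2 * K ≤ (y * x) / K ^ 2 / 1000 := by
  have hK1 : (1 : ℝ) ≤ K := by linarith
  have hK0 : (0 : ℝ) < K := by linarith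
  rw [le_div_iff₀ (by norm_num), le_div_iff₀ (by positivity)]
  have h2 : 20 * H * y ^ 2 * K * 1000 * K ^ 2 ≤ 20 * (z * K) * y ^ 2 * K * 1000 * K ^ 2 := by
    have h3 : 0 ≤ 20 * y ^ 2 * K * 1000 * K ^ 2 := by positivity
    have h4 := mul_le_mul_of_nonneg_right hHzK h3
    linarith
  refine h2.trans ?_
  have h4 : 20 * (z * K) * y ^ 2 * K * 1000 * K ^ 2 = y * (z * y * K ^ 4 * 20000) := by ring
  rw [h4]
  refine mul_le_mul_of_nonneg_left ?_ hy0.le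
  refine le_trans ?_ h1
  have h6 : (20000 : ℝ) ≤ K ^ 4 := by
    have : K ≤ K ^ 4 := le_self_pow₀ hK1 (by norm_num)
    linarith
  have h7 : z * y * K ^ 8 = z * y * K ^ 4 * K ^ 4 := by ring
  rw [h7]
  exact mul_le_mul_of_nonneg_left h6 (by positivity)

private lemma fbl_b (x y K Q M Θ T E2 : ℝ) (hx0 : 0 < x) (hy0 : 0 < y) (hK6 : (10 : ℝ) ^ 6 ≤ K)
    (hQ : y / (4 * K) ≤ Q) (hM : Q / 24 ≤ M) (hΘ : (1 - 1 / 2) * x ≤ Θ)
    (hT : |T + M * Θ| ≤ 2 * (y * x) / K ^ 2 + E2) (hE2 : E2 ≤ (y * x) / K ^ 2 / 1000) :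
    y * x / K ^ 2 ≤ |T| := by
  have hK0 : (0 : ℝ) < K := by linarith
  have h1 : y / (4 * K) / 24 ≤ M := by linarith
  have h2 : (y / (4 * K) / 24) * (x / 2) ≤ M * Θ := by
    refine mul_le_mul h1 (by linarith) (by positivity) (le_trans (by positivity) h1)
  have h3 : (y / (4 * K) / 24) * (x / 2) = (y * x / K ^ 2) * (K / 192) := by
    field_simp
    norm_num
  rw [h3] at h2
  have h4 : M * Θ ≤ |T| + |T + M * Θ| := by
    have h5 := neg_abs_le T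
    have h6 := le_abs_self (T + M * Θ)
    linarith
  have h7 : 0 < y * x / K ^ 2 := by positivity
  have h8 : 2 * (y * x) / K ^ 2 = 2 * (y * x / K ^ 2) := by ring
  rw [h8] at hT
  have h9 : (y * x / K ^ 2) * 4 ≤ (y * x / K ^ 2) * (K / 192) :=
    mul_le_mul_of_nonneg_left (by linarith) h7.le
  linarith

private lemma fbl_cs (S : Finset ℕ) (F : ℕ → ℝ) (k N : ℝ) (hk : 0 ≤ k) (hN : 0 ≤ N) (hc : (S.card : ℝ) ≤ k)
    (h : ∑ x ∈ S, F x ^ 2 ≤ 1000 * k * N) : ∑ x ∈ S, |F x| ≤ 32 * k * Real.sqrt N := by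
  have h1 := sq_sum_le_card_mul_sum_sq (s := S) (f := fun x => |F x|)
  have h2 : ∑ x ∈ S, |F x| ^ 2 = ∑ x ∈ S, F x ^ 2 := Finset.sum_congr rfl fun x _ => sq_abs _
  rw [h2] at h1
  have h0 : 0 ≤ ∑ x ∈ S, F x ^ 2 := Finset.sum_nonneg fun x _ => sq_nonneg _
  have h3 : (∑ x ∈ S, |F x|) ^ 2 ≤ (32 * k * Real.sqrt N) ^ 2 := by
    have h4 : (32 * k * Real.sqrt N) ^ 2 = 1024 * k ^ 2 * N := by
      rw [mul_pow, mul_pow, Real.sq_sqrt hN]
      norm_num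
    rw [h4]
    refine h1.trans ((mul_le_mul hc h h0 hk).trans ?_)
    have h5 : 0 ≤ k ^ 2 * N := by positivity
    have h6 : k * (1000 * k * N) = 1000 * (k ^ 2 * N) := by ring
    have h7 : 1024 * k ^ 2 * N = 1024 * (k ^ 2 * N) := by ring
    rw [h6, h7]
    linarith
  exact le_of_sq_le_sq h3 (by positivity)

private lemma fbl_G0 (Q : Finset ℕ) (H : ℕ) : |G Q H 0| ≤ (Q.card : ℝ) := by
  unfold G
  refine (Finset.abs_sum_le_sum_abs _ _).trans ?_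
  have h : ∀ q ∈ Q, |ph H q 0| ≤ 1 := by
    intro q _
    unfold ph
    rcases Nat.eq_zero_or_pos q with h | h
    · subst h
      simp
    · have hq : (0 : ℝ) < q := by exact_mod_cast h
      rw [abs_div, abs_of_pos hq, div_le_one hq, Nat.zero_mod, Nat.cast_zero, zero_sub, abs_neg,
        abs_of_nonneg (Nat.cast_nonneg _)]
      exact_mod_cast (Nat.mod_lt _ h).le
  refine (Finset.sum_le_card_nsmul _ _ _ h).trans ?_
  simp

private lemma fbl_blk (R H m : ℕ) (hR : 1 ≤ R) (hm : R ^ 2 ≤ m) (M : ℕ) :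
    ∑ n ∈ Icc M (M + m), |G (QQ R) H n| ≤ 40 * Real.sqrt ((QQ R).card : ℝ) * ((m : ℝ) + 1) := by
  obtain ⟨N, hN⟩ : ∃ N : ℝ, N = ((QQ R).card : ℝ) := ⟨_, rfl⟩
  have hN0 : 0 ≤ N := by rw [hN]; exact Nat.cast_nonneg _
  have hm0 : (0 : ℝ) ≤ m := Nat.cast_nonneg _
  have hs0 : 0 ≤ Real.sqrt N := Real.sqrt_nonneg _
  rw [← hN]
  rcases Nat.eq_zero_or_pos M with h | h
  · subst h
    have e1 : Icc 0 (0 + m) = insert 0 (Ioc 0 (0 + m)) := by
      ext k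
      rw [mem_insert, mem_Icc, mem_Ioc]
      omega
    rw [e1, Finset.sum_insert (by simp)]
    have h1 := fbl_G0 (QQ R) H
    rw [← hN] at h1
    have h2 := lls 0 m H R hR hm
    rw [← hN] at h2
    have h3 := fbl_cs (Ioc 0 (0 + m)) (fun x => G (QQ R) H x) m N hm0 hN0 (by rw [Nat.card_Ioc]; simp) h2
    have h4 : N ≤ Real.sqrt N * m := by
      have h5 : Real.sqrt N ≤ m := by
        rw [Real.sqrt_le_left hm0]
        have h6 : N ≤ (m : ℝ) := by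
          have h7 : (QQ R).card ≤ m := (fbl_card R).trans ((Nat.le_self_pow (by norm_num) R).trans hm)
          rw [hN]
          exact_mod_cast h7
        have h8 : (1 : ℝ) ≤ m := by
          have : 1 ≤ m := (Nat.one_le_pow _ _ hR).trans hm
          exact_mod_cast this
        nlinarith
      calc N = Real.sqrt N * Real.sqrt N := (Real.mul_self_sqrt hN0).symm
        _ ≤ Real.sqrt N * m := mul_le_mul_of_nonneg_left h5 hs0
    nlinarith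
  · have e1 : Icc M (M + m) = Ioc (M - 1) (M - 1 + (m + 1)) := by
      ext k
      rw [mem_Icc, mem_Ioc]
      omega
    rw [e1]
    have h2 := lls (M - 1) (m + 1) H R hR (hm.trans (Nat.le_succ m))
    rw [← hN] at h2
    have h3 := fbl_cs (Ioc (M - 1) (M - 1 + (m + 1))) (fun x => G (QQ R) H x) ((m + 1 : ℕ) : ℝ) N
      (Nat.cast_nonneg _) hN0 (by rw [Nat.card_Ioc]; simp) h2
    push_cast at h3
    nlinarith

private lemma fbl_X (X R H : ℕ) (hR : 1 ≤ R) (hX : R ^ 2 ≤ X) :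
    ∑ n ∈ Ioc X (2 * X), |G (QQ R) H n| ≤ 32 * X * Real.sqrt ((QQ R).card : ℝ) := by
  have h2 := lls X X H R hR hX
  have e1 : X + X = 2 * X := by ring
  rw [e1] at h2
  refine fbl_cs (Ioc X (2 * X)) (fun x => G (QQ R) H x) X _ (Nat.cast_nonneg _) (Nat.cast_nonneg _) ?_ h2
  rw [Nat.card_Ioc]
  have : 2 * X - X = X := by omega
  rw [this]

private lemma fbl_T2 (X H R m : ℕ) (B : ℕ → ℝ) (K T SB : ℝ) (hX3 : 3 ≤ X) (hH2 : H ^ 2 ≤ X) (hR : 1 ≤ R)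
    (hRm : R ^ 2 ≤ m) (hmX : m ≤ X) (hlog : Real.log (3 * X) ≤ K) (hB0 : ∀ x, 0 ≤ B x)
    (hB : ∀ x n : ℕ, X < n → n ≤ 2 * X → x ≤ n → n ≤ x + m → |EI n H| ≤ B x)
    (hSB : ∑ x ∈ Ioc 0 (2 * X), B x ≤ SB)
    (hT : T = ∑ i ∈ Ioc X (2 * X), G (QQ R) H i * ET i H) :
    |T| ≤ K * (40 * Real.sqrt ((QQ R).card : ℝ) * SB) + 64 * X * Real.sqrt ((QQ R).card : ℝ) := by
  have hs0 : 0 ≤ Real.sqrt ((QQ R).card : ℝ) := Real.sqrt_nonneg _
  have hlog0 : 0 ≤ Real.log (3 * X) := by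
    have := fbl_log X (by omega)
    linarith
  have hK0 : 0 ≤ K := hlog0.trans hlog
  have h1 : ∀ n ∈ Ioc X (2 * X), |G (QQ R) H n * ET n H| ≤
      K * (|EI n H| * |G (QQ R) H n|) + 2 * |G (QQ R) H n| := by
    intro n hn
    rw [mem_Ioc] at hn
    have h2 := trf n H (by omega) (by omega)
    have h3 : |ET n H| ≤ |ET n H - Real.log n * EI n H| + |Real.log n * EI n H| := by
      have h4 := abs_add_le (ET n H - Real.log n * EI n H) (Real.log n * EI n H)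
      rwa [sub_add_cancel] at h4
    have h5 : |Real.log n * EI n H| ≤ K * |EI n H| := by
      rw [abs_mul, abs_of_nonneg (Real.log_natCast_nonneg n)]
      refine mul_le_mul_of_nonneg_right ?_ (abs_nonneg _)
      refine le_trans (Real.log_le_log ?_ ?_) hlog
      · have : 0 < n := by omega
        exact_mod_cast this
      · have : n ≤ 3 * X := by omega
        exact_mod_cast this
    rw [abs_mul]
    have h6 : |ET n H| ≤ K * |EI n H| + 2 := by linarith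
    have h7 := mul_le_mul_of_nonneg_left h6 (abs_nonneg (G (QQ R) H n))
    linarith
  have h2 := blk X m hmX (fun n => EI n H) (fun n => G (QQ R) H n) B (40 * Real.sqrt ((QQ R).card : ℝ))
    (by positivity) hB0 hB (fbl_blk R H m hR hRm)
  have h3 := fbl_X X R H hR (hRm.trans hmX)
  have h4 : |T| ≤ ∑ n ∈ Ioc X (2 * X), |G (QQ R) H n * ET n H| := by
    rw [hT]
    exact Finset.abs_sum_le_sum_abs _ _
  refine h4.trans ((Finset.sum_le_sum h1).trans ?_)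
  rw [Finset.sum_add_distrib, ← Finset.mul_sum, ← Finset.mul_sum]
  have h5 : 40 * Real.sqrt ((QQ R).card : ℝ) * ∑ x ∈ Ioc 0 (2 * X), B x ≤
      40 * Real.sqrt ((QQ R).card : ℝ) * SB := mul_le_mul_of_nonneg_left hSB (by positivity)
  have h6 := mul_le_mul_of_nonneg_left (h2.trans h5) hK0
  linarith

theorem fbl (s θ ρ δ : ℝ) (hs : s = 1 ∨ s = -1) (hρ0 : 0 < ρ) (hρ1 : ρ < 1 / 3) (hρ2 : 2 * ρ < θ) (hθ1 : θ < 1)
    (hδ0 : 0 ≤ δ) (hδ : 2 * δ < ρ) (hα : 1 / 2 ≤ δ + (1 - θ)) : ¬ OneN s (δ + (1 - θ)) (1 - θ) := by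
  intro hone
  have hu : 0 < 1 - θ := by linarith
  have hu1 : 1 - θ < 1 := by linarith
  have hα0 : 1 - θ ≤ δ + (1 - θ) := by linarith
  have hα1 : δ + (1 - θ) < 1 := by linarith
  have hOne := pcs s _ _ hs hu hu1 hα0 hα1 hone
  have hSmb := lnd s _ _ hs hu hu1 hα hα1 hOne
  obtain ⟨η, hη, X1, hmv⟩ := mvt ρ hρ0 hρ1
  obtain ⟨d, hd0, hd1, hd2, hd3, hd4, hd5⟩ : ∃ d : ℝ, 0 < d ∧ d ≤ η / 2 ∧ d ≤ 1 / 32 ∧ 10 * d ≤ ρ - 2 * δ ∧
      d ≤ ρ / 2 ∧ d ≤ θ - 2 * ρ := by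
    refine ⟨min (min (η / 2) (1 / 32)) (min ((ρ - 2 * δ) / 10) (min (ρ / 2) (θ - 2 * ρ))), ?_, ?_, ?_, ?_, ?_, ?_⟩
    · refine lt_min (lt_min (by linarith) (by norm_num)) (lt_min (by linarith) (lt_min (by linarith) (by linarith)))
    · exact (min_le_left _ _).trans (min_le_left _ _)
    · exact (min_le_left _ _).trans (min_le_right _ _)
    · have := (min_le_right (min (η / 2) (1 / 32)) (min ((ρ - 2 * δ) / 10) (min (ρ / 2) (θ - 2 * ρ)))).trans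
        (min_le_left _ _)
      linarith
    · exact (min_le_right _ _).trans ((min_le_right _ _).trans (min_le_left _ _))
    · exact (min_le_right _ _).trans ((min_le_right _ _).trans (min_le_right _ _))
  obtain ⟨x0, hmdb⟩ := mdb s _ _ hs hu hu1 hα0 hα1 hOne hSmb d hd0
  obtain ⟨X0, hX0⟩ := (fbl_ev ρ d (10 ^ 6) hρ0 hd0 (by linarith) X1).exists_forall_of_atTop
  obtain ⟨X, hX, hXx0⟩ : ∃ X : ℕ, X0 ≤ X ∧ x0 ≤ X := ⟨max X0 ⌈x0⌉₊, le_max_left _ _,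
    (Nat.le_ceil x0).trans (by exact_mod_cast le_max_right _ _)⟩
  obtain ⟨hXX1, hX3, hTh, hThR, hlog, hK6'⟩ := hX0 X hX
  clear hX0
  obtain ⟨B, hB0, hB1, hB2⟩ := hmdb X hXx0
  clear hmdb
  obtain ⟨x, hx⟩ : ∃ x : ℝ, x = (X : ℝ) := ⟨_, rfl⟩
  obtain ⟨K, hK⟩ : ∃ K : ℝ, K = (X : ℝ) ^ d := ⟨_, rfl⟩
  obtain ⟨R, hR⟩ : ∃ R : ℕ, R = ⌊(X : ℝ) ^ ρ⌋₊ := ⟨_, rfl⟩
  obtain ⟨m, hm⟩ : ∃ m : ℕ, m = ⌊(X : ℝ) ^ θ⌋₊ := ⟨_, rfl⟩
  obtain ⟨y, hy⟩ : ∃ y : ℝ, y = (X : ℝ) ^ ρ := ⟨_, rfl⟩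
  rw [← hK] at hlog hK6'
  rw [← hR] at hThR
  have hX1 : 1 ≤ X := by omega
  have hx3 : (3 : ℝ) ≤ x := by rw [hx]; exact_mod_cast hX3
  have hx1 : (1 : ℝ) ≤ x := by linarith
  have hx0 : (0 : ℝ) < x := by linarith
  have hK6 : (10 : ℝ) ^ 6 ≤ K := hK6'
  have hK1 : (1 : ℝ) ≤ K := by linarith
  have hK0 : (0 : ℝ) < K := by linarith
  have hKd : ∀ n : ℕ, K ^ n = x ^ (n * d) := by
    intro n
    rw [hK, ← Real.rpow_natCast, ← Real.rpow_mul (by rw [← hx]; exact hx0.le), ← hx, mul_comm]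
  have hy0 : 0 < y := by rw [hy, ← hx]; positivity
  have hyK : K ^ 2 ≤ y := by
    rw [hKd, hy, ← hx]
    exact Real.rpow_le_rpow_of_exponent_le hx1 (by push_cast; linarith)
  have hK2 : K ≤ K ^ 2 := le_self_pow₀ hK1 (by norm_num)
  have hy8 : y * y * K ^ 8 ≤ x := by
    rw [hKd, hy, ← hx, ← Real.rpow_add hx0, ← Real.rpow_add hx0]
    refine (Real.rpow_le_rpow_of_exponent_le hx1
      (by push_cast; linarith : ρ + ρ + ((8 : ℕ) : ℝ) * d ≤ 1)).trans ?_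
    rw [Real.rpow_one]
  have hyθ : y * y * K ≤ x ^ θ := by
    rw [hK, hy, ← hx, ← Real.rpow_add hx0, ← Real.rpow_add hx0]
    exact Real.rpow_le_rpow_of_exponent_le hx1 (by linarith)
  have hy1 : 1 ≤ y := by linarith
  have hyy : y ≤ y * y := le_mul_of_one_le_right hy0.le hy1
  have hyyK : y * y ≤ y * y * K := le_mul_of_one_le_right (by positivity) hK1
  have hθx : x ^ θ ≤ x := by
    refine (Real.rpow_le_rpow_of_exponent_le hx1 hθ1.le).trans ?_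
    rw [Real.rpow_one]
  -- the length R
  have hRy : (R : ℝ) ≤ y := by
    rw [hR, hy]
    exact Nat.floor_le (by rw [← hx]; positivity)
  have hRy2 : y / 2 ≤ R := by
    have h1 : y < R + 1 := by
      rw [hR, hy]
      exact Nat.lt_floor_add_one _
    linarith
  have hR1 : 1 ≤ R := by
    have h1 : (1 : ℝ) ≤ R := by linarith
    exact_mod_cast h1
  have hyxK : y * y * K ≤ x := hyθ.trans hθx
  have h25 : 25 * (y * y) ≤ y * y * K := by
    have h1 : 0 ≤ y * y := by positivity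
    have h2 := mul_le_mul_of_nonneg_left (by linarith : (25 : ℝ) ≤ K) h1
    linarith
  have h2R : 2 * R ≤ X := by
    have h1 : 2 * (R : ℝ) ≤ X := by rw [← hx]; linarith
    exact_mod_cast h1
  have hQl := fbl_Q X R y K hR1 h2R hRy2 hK1 hlog hThR
  -- the length H
  obtain ⟨H, hH, hHq⟩ := hq R R (4 * R) hR1 le_rfl
  rw [mem_Ico] at hH
  have hH1 : 1 ≤ H := hR1.trans hH.1
  have hH5 : (H : ℝ) ≤ 5 * y := by
    have h1 : H ≤ 5 * R := by omega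
    have h2 : (H : ℝ) ≤ 5 * R := by exact_mod_cast h1
    linarith
  have hH0 : (0 : ℝ) ≤ H := Nat.cast_nonneg _
  have hHyK : (H : ℝ) ≤ y * K := by
    have h1 : y * 5 ≤ y * K := mul_le_mul_of_nonneg_left (by linarith) hy0.le
    linarith
  have hHX : H ≤ X := by
    have h1 : (H : ℝ) ≤ X := by
      rw [← hx]
      have h2 : y * K ≤ y * y * K := by
        rw [mul_assoc]
        exact le_mul_of_one_le_left (by positivity) hy1
      linarith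
    exact_mod_cast h1
  have hH2 : H ^ 2 ≤ X := by
    have h1 : (H : ℝ) ^ 2 ≤ X := by
      rw [← hx]
      have h2 : (H : ℝ) ^ 2 ≤ (5 * y) ^ 2 := pow_le_pow_left₀ hH0 hH5 2
      have h3 : (5 * y) ^ 2 = 25 * (y * y) := by ring
      linarith
    exact_mod_cast h1
  have hHθ : (H : ℝ) ≤ x ^ θ := by linarith
  -- the block length
  have hm1 : (m : ℝ) ≤ x ^ θ := by
    rw [hm, ← hx]
    exact Nat.floor_le (by positivity)
  have hmX : m ≤ X := by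
    have h1 : (m : ℝ) ≤ X := by rw [← hx]; linarith
    exact_mod_cast h1
  have hRm : R ^ 2 ≤ m := by
    rw [hm, ← hx]
    apply Nat.le_floor
    push_cast
    have h1 : (R : ℝ) ^ 2 ≤ y ^ 2 := pow_le_pow_left₀ (Nat.cast_nonneg _) hRy 2
    have h2 : y ^ 2 = y * y := by ring
    linarith
  -- the covariance
  obtain ⟨Θ, hΘ⟩ : ∃ Θ : ℝ, Θ = ∑ m ∈ Ioc X (2 * X), pl m := ⟨_, rfl⟩
  obtain ⟨M, hM⟩ : ∃ M : ℝ, M = ∑ q ∈ QQ R, cq H q / ((q : ℝ) - 1) := ⟨_, rfl⟩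
  obtain ⟨T, hT⟩ : ∃ T : ℝ, T = ∑ i ∈ Ioc X (2 * X), G (QQ R) H i * ET i H := ⟨_, rfl⟩
  rw [← hΘ, ← hx] at hTh
  rw [← hM] at hHq
  have hmvX := hmv X hXX1
  rw [← hR] at hmvX
  have hT1 := fbl_T X H R y K Θ M T _ hH1 hHX hRy h2R hy0 hK1 hlog hΘ hM hT hmvX
  have h4 : Real.sqrt (2 * y) ≤ 2 * Real.sqrt y := by
    rw [Real.sqrt_mul (by norm_num)]
    have h5 : Real.sqrt 2 ≤ 2 := by
      rw [Real.sqrt_le_left (by norm_num)]
      norm_num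
    exact mul_le_mul_of_nonneg_right h5 (Real.sqrt_nonneg _)
  have h5 : Real.sqrt y = x ^ (ρ / 2) := by
    rw [hy, ← hx, Real.sqrt_eq_rpow, ← Real.rpow_mul hx0.le]
    congr 1
    ring
  have h6 : Real.sqrt (2 * y) * (X : ℝ) ^ (1 + ρ / 2 - η) ≤ 2 * (y * x) / K ^ 2 := by
    have h7 : Real.sqrt (2 * y) * (X : ℝ) ^ (1 + ρ / 2 - η) ≤
        (2 * x ^ (ρ / 2)) * x ^ (1 + ρ / 2 - η) := by
      rw [← h5, ← hx]
      exact mul_le_mul_of_nonneg_right h4 (by positivity)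
    refine h7.trans ?_
    have h8 : x ^ ρ * x = x ^ (ρ + 1) := by rw [Real.rpow_add hx0, Real.rpow_one]
    rw [le_div_iff₀ (by positivity), hKd, hy, ← hx, mul_assoc, mul_assoc, ← Real.rpow_add hx0,
      ← Real.rpow_add hx0, h8]
    refine mul_le_mul_of_nonneg_left (Real.rpow_le_rpow_of_exponent_le hx1 ?_) (by norm_num)
    push_cast
    linarith
  have hTM : |T + M * Θ| ≤ 2 * (y * x) / K ^ 2 + 20 * H * y ^ 2 * K := by linarith
  have hE2' := fbl_a x y y K H hx0 hy0 hy0 hK6 hHyK hy8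
  have hTl := fbl_b x y K _ M Θ T _ hx0 hy0 hK6 hQl hHq hTh hTM hE2'
  -- the upper bound
  have hT2 := fbl_T2 X H R m B K T ((X : ℝ) ^ (1 + (δ + (1 - θ)) - (1 - θ) + d)) hX3 hH2 hR1 hRm hmX hlog hB0
    (fun a n h1 h2 h3 h4 => hB2 a n H h1 h2 h3 (by
      have h5 : (n : ℝ) ≤ a + m := by exact_mod_cast h4
      have e1 : 1 - (1 - θ) = θ := by ring
      rw [e1, ← hx]
      linarith) (by
      have e1 : 1 - (1 - θ) = θ := by ring
      rw [e1, ← hx]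
      exact hHθ)) hB1 hT
  have e1 : 1 + (δ + (1 - θ)) - (1 - θ) + d = 1 + δ + d := by ring
  rw [e1, ← hx] at hT2
  have hsN : Real.sqrt ((QQ R).card : ℝ) ≤ x ^ (ρ / 2) := by
    rw [← h5]
    refine Real.sqrt_le_sqrt ?_
    have : ((QQ R).card : ℝ) ≤ R := by exact_mod_cast fbl_card R
    linarith
  have hs0 : 0 ≤ Real.sqrt ((QQ R).card : ℝ) := Real.sqrt_nonneg _
  have h7 : K * (40 * Real.sqrt ((QQ R).card : ℝ) * x ^ (1 + δ + d)) ≤ 40 * x ^ (1 + ρ / 2 + δ + 2 * d) := by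
    have h8 : K * (40 * Real.sqrt ((QQ R).card : ℝ) * x ^ (1 + δ + d)) ≤
        K * (40 * x ^ (ρ / 2) * x ^ (1 + δ + d)) := by gcongr
    refine h8.trans (le_of_eq ?_)
    have h9 : x ^ (1 + ρ / 2 + δ + 2 * d) = K * (x ^ (ρ / 2) * x ^ (1 + δ + d)) := by
      rw [hK, ← hx, ← Real.rpow_add hx0, ← Real.rpow_add hx0]
      congr 1
      ring
    rw [h9]
    ring
  have h8 : 64 * x * Real.sqrt ((QQ R).card : ℝ) ≤ 64 * x ^ (1 + ρ / 2 + δ + 2 * d) := by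
    have h9 : x * Real.sqrt ((QQ R).card : ℝ) ≤ x ^ (1 + ρ / 2 + δ + 2 * d) := by
      calc x * Real.sqrt ((QQ R).card : ℝ) ≤ x * x ^ (ρ / 2) := mul_le_mul_of_nonneg_left hsN hx0.le
        _ = x ^ (1 + ρ / 2) := by rw [Real.rpow_add hx0, Real.rpow_one]
        _ ≤ x ^ (1 + ρ / 2 + δ + 2 * d) := Real.rpow_le_rpow_of_exponent_le hx1 (by linarith)
    linarith
  have h9 : y * x / K ^ 2 ≤ 104 * x ^ (1 + ρ / 2 + δ + 2 * d) := by linarith
  rw [div_le_iff₀ (by positivity)] at h9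
  have h10 : y * x ≤ K * (x ^ (1 + ρ / 2 + δ + 2 * d) * K ^ 2) / 2 := by
    have h11 : 0 ≤ x ^ (1 + ρ / 2 + δ + 2 * d) * K ^ 2 := by positivity
    have h12 := mul_le_mul_of_nonneg_right (by linarith : (208 : ℝ) ≤ K) h11
    linarith
  have h11 : K * (x ^ (1 + ρ / 2 + δ + 2 * d) * K ^ 2) ≤ y * x := by
    have h12 : K * (x ^ (1 + ρ / 2 + δ + 2 * d) * K ^ 2) = x ^ (1 + ρ / 2 + δ + 2 * d) * K ^ 3 := by ring
    have h13 : y * x = x ^ (ρ + 1) := by rw [hy, ← hx, Real.rpow_add hx0, Real.rpow_one]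
    rw [h12, h13, hKd, ← Real.rpow_add hx0]
    refine Real.rpow_le_rpow_of_exponent_le hx1 ?_
    push_cast
    linarith
  have h12 : 0 < y * x := by positivity
  linarith

end Pool.Agent.H24.TS
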