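import Pool.Agent.H24.TS.Mdb
import Pool.Agent.H99.GB.Fin
import Pool.Agent.H67.TS.Pcs
import Pool.Agent.H67.TS.Lnd

/-!
# [H24 TS FGB]  `δ ≥ 1/12` for every `θ ≥ 1/4`

PROOF. `pcs`, `lnd`, `mda` give `∑_{X<n≤2X} |EI n j| ≤ X^(1+δ+ε)` for ALL `j ≤ X^θ`; `gb` at `θ' = 1/4 - e` (`j = H ≤ 2 X^θ' ≤ X^θ`) gives the lower
bound `X^(1 + θ'/3 - e)`; contradiction for `e` small.
-/

set_option autoImplicit false

namespace Pool.Agent.H24.TS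

open Finset Pool.Agent.H48.WN Pool.Agent.H67.TS

theorem fgb (s θ δ : ℝ) (hs : s = 1 ∨ s = -1) (hθ : 1 / 4 ≤ θ) (hθ1 : θ < 1) (hδ0 : 0 ≤ δ) (hδ : δ < 1 / 12)
    (hα : 1 / 2 ≤ δ + (1 - θ)) : ¬ OneN s (δ + (1 - θ)) (1 - θ) := by
  intro h
  obtain ⟨e, he, he4⟩ : ∃ e : ℝ, 0 < e ∧ 1 / 12 = δ + 4 * e := ⟨(1 / 12 - δ) / 4, by linarith, by ring⟩
  obtain ⟨u, hu⟩ : ∃ u : ℝ, u = 1 - θ := ⟨_, rfl⟩
  rw [← hu] at h hα
  have hone := pcs s (δ + u) u hs (by linarith) (by linarith) (by linarith) (by linarith) h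
  have hsmb := lnd s (δ + u) u hs (by linarith) (by linarith) hα (by linarith) hone
  obtain ⟨x0, hmda⟩ := mda s (δ + u) u hs (by linarith) (by linarith) (by linarith) (by linarith) hone hsmb e he
  obtain ⟨X1, hX1⟩ := Pool.Agent.H99.GB.gb (1 / 4 - e) e 1 (by linarith) (by linarith) he (by norm_num)
  obtain ⟨X, hXa, hXb, hXc, hXd⟩ : ∃ X : ℕ, X1 ≤ X ∧ x0 ≤ (X : ℝ) ∧ 2 ≤ (X : ℝ) ∧ 2 ≤ (X : ℝ) ^ e := by
    have h1 : ∀ᶠ x : ℝ in Filter.atTop, 2 ≤ x ^ e := (tendsto_rpow_atTop he).eventually_ge_atTop 2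
    have h2 : ∀ᶠ n : ℕ in Filter.atTop, (2 : ℝ) ≤ (n : ℝ) ^ e := tendsto_natCast_atTop_atTop.eventually h1
    have h3 : ∀ᶠ n : ℕ in Filter.atTop, (x0 : ℝ) ≤ (n : ℝ) :=
      tendsto_natCast_atTop_atTop.eventually_ge_atTop _
    have h4 : ∀ᶠ n : ℕ in Filter.atTop, (2 : ℝ) ≤ (n : ℝ) :=
      tendsto_natCast_atTop_atTop.eventually_ge_atTop _
    obtain ⟨X, hX⟩ := (h2.and (h3.and (h4.and (Filter.eventually_ge_atTop X1)))).exists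
    exact ⟨X, hX.2.2.2, hX.2.1, hX.2.2.1, hX.1⟩
  have hX0 : (0 : ℝ) < X := by linarith
  have hX1' : (1 : ℝ) ≤ X := by linarith
  have hA0 : 0 < (X : ℝ) ^ (1 / 4 - e) := by positivity
  obtain ⟨H, _, hH2, hH3⟩ := hX1 X hXa ((X : ℝ) ^ (1 / 4 - e)) le_rfl (by linarith)
  have hHθ : (H : ℝ) ≤ (X : ℝ) ^ (1 - u) := by
    have e1 : (X : ℝ) ^ (1 / 4 : ℝ) = (X : ℝ) ^ e * (X : ℝ) ^ (1 / 4 - e) := by
      rw [← Real.rpow_add hX0]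
      congr 1
      ring
    have e2 : (X : ℝ) ^ (1 / 4 : ℝ) ≤ (X : ℝ) ^ (1 - u) :=
      Real.rpow_le_rpow_of_exponent_le hX1' (by linarith)
    have e3 : 2 * (X : ℝ) ^ (1 / 4 - e) ≤ (X : ℝ) ^ e * (X : ℝ) ^ (1 / 4 - e) :=
      mul_le_mul_of_nonneg_right hXd hA0.le
    have e4 : (H : ℝ) ≤ 2 * (X : ℝ) ^ (1 / 4 - e) := by
      refine hH2.trans (le_of_eq ?_)
      norm_num
    linarith
  have hup := hmda X H hXb hHθ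
  have hmin : min (1 / 4 - e) (1 / 2 - (1 / 4 - e)) = 1 / 4 - e := min_eq_left (by linarith)
  rw [hmin] at hH3
  have hlt : (X : ℝ) ^ (1 + (δ + u) - u + e) < (X : ℝ) ^ (1 + (1 / 4 - e) / 3 - e) :=
    Real.rpow_lt_rpow_of_exponent_lt (by linarith) (by linarith)
  linarith

end Pool.Agent.H24.TS
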