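import Mathlib

/-!
[H24 TS HOLK]  Hoelder's inequality for the moment of order `2k`
-/

namespace Pool.Agent.H24.TS

open Finset

theorem holk {ι : Type} (s : Finset ι) (g e : ι → ℝ) (B : ℝ) (k : ℕ) (hk : 1 ≤ k)
    (hB : ∀ i ∈ s, |e i| ≤ B) :
    (∑ i ∈ s, g i * e i) ^ (2 * k) ≤
      B * (∑ i ∈ s, (g i) ^ (2 * k)) * (∑ i ∈ s, |e i|) ^ (2 * k - 1) := by
  set W : ℝ := ∑ i ∈ s, |e i| with hW
  have hW0 : 0 ≤ W := Finset.sum_nonneg fun i _ => abs_nonneg _
  have heven : ∀ x : ℝ, x ^ (2 * k) = |x| ^ (2 * k) := by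
    intro x
    rw [pow_mul, pow_mul, sq_abs]
  rcases hW0.eq_or_lt with h0 | h0
  · have h1 : ∀ i ∈ s, e i = 0 := by
      intro i hi
      have h2 := (Finset.sum_eq_zero_iff_of_nonneg (fun i _ => abs_nonneg (e i))).1 h0.symm i hi
      exact abs_eq_zero.1 h2
    have h2 : ∑ i ∈ s, g i * e i = 0 := Finset.sum_eq_zero fun i hi => by rw [h1 i hi, mul_zero]
    rw [h2, ← h0, zero_pow (by omega), zero_pow (by omega), mul_zero]
  · have h1 : |∑ i ∈ s, g i * e i| ≤ ∑ i ∈ s, |e i| * |g i| := by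
      refine (Finset.abs_sum_le_sum_abs _ _).trans (le_of_eq ?_)
      refine Finset.sum_congr rfl fun i _ => ?_
      rw [abs_mul, mul_comm]
    have h2 : ∑ i ∈ s, |e i| * |g i| = W * ∑ i ∈ s, (|e i| / W) * |g i| := by
      rw [Finset.mul_sum]
      refine Finset.sum_congr rfl fun i _ => ?_
      field_simp
    have h3 := Real.pow_arith_mean_le_arith_mean_pow s (fun i => |e i| / W) (fun i => |g i|)
      (fun i _ => by positivity) (by rw [← Finset.sum_div, ← hW]; exact div_self h0.ne')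
      (fun i _ => abs_nonneg _) (2 * k)
    rw [heven]
    have h4 : |∑ i ∈ s, g i * e i| ^ (2 * k) ≤ (W * ∑ i ∈ s, (|e i| / W) * |g i|) ^ (2 * k) := by
      rw [← h2]
      exact pow_le_pow_left₀ (abs_nonneg _) h1 _
    refine h4.trans ?_
    rw [mul_pow]
    have h5 : W ^ (2 * k) * (∑ i ∈ s, (|e i| / W) * |g i|) ^ (2 * k) ≤
        W ^ (2 * k) * ∑ i ∈ s, (|e i| / W) * |g i| ^ (2 * k) :=
      mul_le_mul_of_nonneg_left h3 (by positivity)
    refine h5.trans ?_
    have h6 : W ^ (2 * k) = W ^ (2 * k - 1) * W := by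
      rw [← pow_succ]
      congr 1
      omega
    have h7 : W ^ (2 * k) * ∑ i ∈ s, (|e i| / W) * |g i| ^ (2 * k) =
        W ^ (2 * k - 1) * ∑ i ∈ s, |e i| * (g i) ^ (2 * k) := by
      rw [h6, mul_assoc, Finset.mul_sum]
      congr 1
      refine Finset.sum_congr rfl fun i _ => ?_
      rw [heven (g i)]
      field_simp
    rw [h7]
    have h8 : ∑ i ∈ s, |e i| * (g i) ^ (2 * k) ≤ B * ∑ i ∈ s, (g i) ^ (2 * k) := by
      rw [Finset.mul_sum]
      refine Finset.sum_le_sum fun i hi => ?_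
      refine mul_le_mul_of_nonneg_right (hB i hi) ?_
      rw [heven]
      positivity
    calc W ^ (2 * k - 1) * ∑ i ∈ s, |e i| * (g i) ^ (2 * k)
        ≤ W ^ (2 * k - 1) * (B * ∑ i ∈ s, (g i) ^ (2 * k)) :=
          mul_le_mul_of_nonneg_left h8 (by positivity)
      _ = _ := by ring

end Pool.Agent.H24.TS
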