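import Mathlib

/-!
[H24 TS LDT]  Landau's theorem: a Dirichlet series with nonnegative coefficients, which near every
real point of `(σ₀, ∞)` agrees with an analytic function, has abscissa of absolute convergence
`≤ σ₀`.

Proof.  Let `x₀` be the abscissa, `σ₀ < x₀`.  `F` is analytic at `x₀`, so differentiable on a ball
`B(x₀, 3r)`; `c = x₀ + r`, `B(c, 2r) ⊆ B(x₀, 3r)`.  The function `F` agrees with the series near
`c`.  Its Taylor series at `c` has the coefficients `(-1)^k/k! ∑ a(n) (log n)^k n^(-c)`; it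
converges at `y = x₀ - r/2`, all terms are `≥ 0` there, so (Tonelli for nonnegative finite sums)
`∑ a(n) n^(-y) < ∞`, a contradiction.
-/

namespace Pool.Agent.H24.TS

open Complex Filter Topology LSeries
open scoped ComplexOrder

/-- one term of the iterated derivative series, at a real point -/
theorem ldt_term (a : ℕ → ℂ) (c : ℝ) (k n : ℕ) :
    term (logMul^[k] a) c n = (Real.log n : ℂ) ^ k * term a c n := by
  rcases eq_or_ne n 0 with rfl | hn
  · simp
  rw [term_of_ne_zero hn, term_of_ne_zero hn]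
  have h : ∀ k : ℕ, (logMul^[k] a) n = (Real.log n : ℂ) ^ k * a n := by
    intro k
    induction k with
    | zero => simp
    | succ k ih =>
      rw [Function.iterate_succ_apply', logMul, ih, pow_succ, natCast_log]
      ring
  rw [h k]
  ring

/-- the real value of a term with nonnegative coefficient -/
theorem ldt_re (a : ℕ → ℂ) (ha : 0 ≤ a) (c : ℝ) (n : ℕ) :
    term a c n = ((term a c n).re : ℂ) ∧ 0 ≤ (term a c n).re := by
  have h1 : (0 : ℂ) ≤ term a c n := by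
    rcases eq_or_ne n 0 with rfl | hn
    · simp
    rw [term_of_ne_zero hn]
    have h2 := ha n
    have h3 : (0 : ℂ) ≤ ((n : ℂ) ^ (c : ℂ))⁻¹ := (inv_natCast_cpow_ofReal_pos hn c).le
    rw [div_eq_mul_inv]
    exact mul_nonneg h2 h3
  rw [Complex.nonneg_iff] at h1
  refine ⟨?_, h1.1⟩
  apply Complex.ext
  · simp
  · simp [h1.2.symm]

/-- shifting the exponent by `t` multiplies a term by `n^t = exp (t log n)` -/
theorem ldt_shift (a : ℕ → ℂ) (c t : ℝ) (n : ℕ) :
    (term a ((c - t : ℝ) : ℂ) n).re = Real.exp (t * Real.log n) * (term a c n).re := by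
  rcases eq_or_ne n 0 with rfl | hn
  · simp
  rw [term_of_ne_zero hn, term_of_ne_zero hn]
  have hn' : (n : ℂ) ≠ 0 := Nat.cast_ne_zero.2 hn
  have hpos : (0 : ℝ) < n := by exact_mod_cast Nat.pos_of_ne_zero hn
  have e : (n : ℂ) ^ (((c - t : ℝ)) : ℂ) =
      (n : ℂ) ^ (c : ℂ) * ((Real.exp (t * Real.log n) : ℝ) : ℂ)⁻¹ := by
    rw [ofReal_sub, cpow_sub _ _ hn', div_eq_mul_inv]
    congr 2
    rw [cpow_def_of_ne_zero hn', ofReal_exp]
    congr 1
    rw [← natCast_log]
    push_cast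
    ring
  rw [e]
  have h2 : a n / ((n : ℂ) ^ (c : ℂ) * ((Real.exp (t * Real.log n) : ℝ) : ℂ)⁻¹) =
      ((Real.exp (t * Real.log n) : ℝ) : ℂ) * (a n / (n : ℂ) ^ (c : ℂ)) := by
    have h3 : ((Real.exp (t * Real.log n) : ℝ) : ℂ) ≠ 0 := by
      exact_mod_cast (Real.exp_pos _).ne'
    field_simp
  rw [h2, re_ofReal_mul]

/-- the local step: if `F` is differentiable on `B(c, R)` and agrees with the series near `c`,
then the series converges at every real point of `(c - R, c]` -/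
theorem ldt_local (a : ℕ → ℂ) (ha : 0 ≤ a) (F : ℂ → ℂ) (c R : ℝ)
    (hc : abscissaOfAbsConv a < (c : EReal)) (hF : DifferentiableOn ℂ F (Metric.ball (c : ℂ) R))
    (hFa : F =ᶠ[𝓝 (c : ℂ)] LSeries a) (t : ℝ) (ht0 : 0 ≤ t) (ht : t < R) :
    LSeriesSummable a ((c - t : ℝ) : ℂ) := by
  have hc' : abscissaOfAbsConv a < (((c : ℂ).re : ℝ) : EReal) := by simpa using hc
  -- Taylor series at the point `c - t`
  have hz : (((c - t : ℝ)) : ℂ) ∈ Metric.ball (c : ℂ) R := by
    rw [Metric.mem_ball, dist_eq_norm]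
    have e : (((c - t : ℝ)) : ℂ) - c = ((-t : ℝ) : ℂ) := by push_cast; ring
    rw [e, norm_real, Real.norm_eq_abs, abs_neg, abs_of_nonneg ht0]
    exact ht
  have hT := hasSum_taylorSeries_on_ball hF hz
  -- rewrite the coefficients
  have hk : ∀ k : ℕ, (k.factorial : ℂ)⁻¹ • ((((c - t : ℝ)) : ℂ) - c) ^ k • iteratedDeriv k F c =
      (((k.factorial : ℝ)⁻¹ * t ^ k * ∑' n : ℕ, (Real.log n) ^ k * (term a (c : ℂ) n).re : ℝ) : ℂ) := by
    intro k
    have h1 : iteratedDeriv k F c = iteratedDeriv k (LSeries a) c :=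
      Filter.EventuallyEq.iteratedDeriv_eq k hFa
    rw [h1, LSeries_iteratedDeriv k hc']
    have h2 : LSeries (logMul^[k] a) c =
        ((∑' n : ℕ, (Real.log n) ^ k * (term a (c : ℂ) n).re : ℝ) : ℂ) := by
      rw [LSeries, ofReal_tsum]
      refine tsum_congr fun n => ?_
      rw [ldt_term, (ldt_re a ha c n).1]
      push_cast
      simp
    rw [h2, smul_eq_mul, smul_eq_mul]
    generalize (∑' n : ℕ, (Real.log n) ^ k * (term a (c : ℂ) n).re) = G
    have e : (((c - t : ℝ)) : ℂ) - c = -(t : ℂ) := by push_cast; ring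
    rw [e]
    have e2 : (-(t : ℂ)) ^ k = (-1) ^ k * (t : ℂ) ^ k := by rw [← mul_pow]; congr 1; ring
    rw [e2]
    have e3 : ((-1 : ℂ) ^ k) * (-1) ^ k = 1 := by
      rw [← mul_pow]; norm_num
    push_cast
    linear_combination ((k.factorial : ℂ)⁻¹ * (t : ℂ) ^ k * (G : ℂ)) * e3
  have hT2 : Summable fun k : ℕ =>
      ((k.factorial : ℝ)⁻¹ * t ^ k * ∑' n : ℕ, (Real.log n) ^ k * (term a (c : ℂ) n).re) := by
    have h1 := hT.summable
    simp_rw [hk] at h1
    exact_mod_cast h1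
  have hsumk : ∀ k : ℕ, Summable fun n : ℕ => (Real.log n) ^ k * (term a c n).re := by
    intro k
    have h1 : LSeriesSummable (logMul^[k] a) c :=
      LSeriesSummable_of_abscissaOfAbsConv_lt_re (by rw [absicssaOfAbsConv_logPowMul]; exact hc')
    have h2 : Summable fun n : ℕ => (((Real.log n) ^ k * (term a c n).re : ℝ) : ℂ) := by
      refine h1.congr fun n => ?_
      rw [ldt_term, (ldt_re a ha c n).1]
      push_cast
      simp
    exact_mod_cast h2
  -- bounded partial sums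
  set M := ∑' k : ℕ, ((k.factorial : ℝ)⁻¹ * t ^ k * ∑' n : ℕ, (Real.log n) ^ k * (term a (c : ℂ) n).re)
    with hM
  have hkey : ∀ S : Finset ℕ, ∑ n ∈ S, (term a (((c - t : ℝ)) : ℂ) n).re ≤ M := by
    intro S
    have h1 : ∀ n : ℕ, HasSum (fun k : ℕ => (k.factorial : ℝ)⁻¹ * t ^ k *
        ((Real.log n) ^ k * (term a c n).re)) ((term a (((c - t : ℝ)) : ℂ) n).re) := by
      intro n
      rw [ldt_shift a]
      have h2 : HasSum (fun k : ℕ => (t * Real.log n) ^ k / (k.factorial : ℝ))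
          (Real.exp (t * Real.log n)) := by
        rw [Real.exp_eq_exp_ℝ]
        exact NormedSpace.expSeries_div_hasSum_exp _
      have h3 := h2.mul_right (term a (c : ℂ) n).re
      refine h3.congr_fun fun k => ?_
      rw [mul_pow]
      ring
    have h4 : HasSum (fun k : ℕ => ∑ n ∈ S, (k.factorial : ℝ)⁻¹ * t ^ k *
        ((Real.log n) ^ k * (term a c n).re)) (∑ n ∈ S, (term a (((c - t : ℝ)) : ℂ) n).re) :=
      hasSum_sum fun n _ => h1 n
    refine hasSum_le (fun k => ?_) h4 hT2.hasSum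
    rw [← Finset.mul_sum]
    refine mul_le_mul_of_nonneg_left ?_ (by positivity)
    refine (hsumk k).sum_le_tsum S fun n _ => ?_
    exact mul_nonneg (pow_nonneg (Real.log_natCast_nonneg n) k) (ldt_re a ha c n).2
  have hreal : Summable fun n : ℕ => (term a (((c - t : ℝ)) : ℂ) n).re :=
    summable_of_sum_le (fun n => (ldt_re a ha (c - t) n).2) hkey
  have : Summable fun n : ℕ => (((term a (((c - t : ℝ)) : ℂ) n).re : ℝ) : ℂ) := by
    exact_mod_cast hreal
  exact this.congr fun n => (ldt_re a ha (c - t) n).1.symm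

/-- **Landau's theorem.** -/
theorem landau_abscissa (a : ℕ → ℂ) (ha : 0 ≤ a) (F : ℂ → ℂ) (σ₀ σ₁ : ℝ)
    (h1 : abscissaOfAbsConv a ≤ (σ₁ : EReal)) (hF : ∀ x : ℝ, σ₀ < x → AnalyticAt ℂ F (x : ℂ))
    (hFE : ∀ s : ℂ, σ₁ < s.re → F s = LSeries a s) :
    abscissaOfAbsConv a ≤ (σ₀ : EReal) := by
  by_contra hcon
  rw [not_le] at hcon
  -- the abscissa is a real number
  have hne_top : abscissaOfAbsConv a ≠ ⊤ := ne_of_lt (lt_of_le_of_lt h1 (EReal.coe_lt_top _))
  have hne_bot : abscissaOfAbsConv a ≠ ⊥ := ne_of_gt (lt_trans (EReal.bot_lt_coe _) hcon)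
  obtain ⟨x₀, hx₀⟩ : ∃ x₀ : ℝ, abscissaOfAbsConv a = (x₀ : EReal) :=
    ⟨(abscissaOfAbsConv a).toReal, (EReal.coe_toReal hne_top hne_bot).symm⟩
  rw [hx₀] at hcon h1
  have hσx : σ₀ < x₀ := by exact_mod_cast hcon
  have hxσ : x₀ ≤ σ₁ := by exact_mod_cast h1
  -- a ball on which `F` is differentiable
  obtain ⟨R, hR, hFR⟩ : ∃ R > 0, DifferentiableOn ℂ F (Metric.ball (x₀ : ℂ) R) := by
    have h2 := (hF x₀ hσx).eventually_analyticAt
    obtain ⟨R, hR, hb⟩ := Metric.eventually_nhds_iff_ball.1 h2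
    exact ⟨R, hR, fun z hz => (hb z hz).differentiableAt.differentiableWithinAt⟩
  obtain ⟨r, hr0, hr1, hrR⟩ : ∃ r : ℝ, 0 < r ∧ r ≤ 1 ∧ 3 * r ≤ R :=
    ⟨min 1 (R / 3), by positivity, min_le_left _ _, by
      have := min_le_right 1 (R / 3)
      linarith⟩
  set c : ℝ := x₀ + r with hc
  have hca : abscissaOfAbsConv a < (c : EReal) := by
    rw [hx₀]
    exact_mod_cast (by linarith : x₀ < c)
  have hball : DifferentiableOn ℂ F (Metric.ball (c : ℂ) (2 * r)) := by
    refine hFR.mono fun z hz => ?_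
    rw [Metric.mem_ball, dist_eq_norm] at hz ⊢
    have e : z - (x₀ : ℂ) = (z - (c : ℂ)) + (r : ℂ) := by
      rw [hc]; push_cast; ring
    rw [e]
    refine lt_of_le_of_lt (norm_add_le _ _) ?_
    rw [norm_real, Real.norm_eq_abs, abs_of_pos hr0]
    linarith
  -- `F` and the series agree on the real axis
  have hLan : ∀ s : ℂ, x₀ < s.re → AnalyticAt ℂ (LSeries a) s := by
    intro s hs
    refine LSeries_analyticOnNhd a s ?_
    show abscissaOfAbsConv a < _
    rw [hx₀]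
    exact_mod_cast hs
  set U : Set ℂ := (fun x : ℝ => (x : ℂ)) '' Set.Ioo x₀ (σ₁ + 3) with hU
  have hUpre : IsPreconnected U :=
    isPreconnected_Ioo.image _ continuous_ofReal.continuousOn
  have hFU : AnalyticOnNhd ℂ F U := by
    rintro z ⟨x, hx, rfl⟩
    exact hF x (hσx.trans hx.1)
  have hLU : AnalyticOnNhd ℂ (LSeries a) U := by
    rintro z ⟨x, hx, rfl⟩
    exact hLan _ (by simpa using hx.1)
  have hz₀ : ((σ₁ + 1 : ℝ) : ℂ) ∈ U := ⟨σ₁ + 1, ⟨by linarith, by linarith⟩, rfl⟩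
  have hev : F =ᶠ[𝓝 ((σ₁ + 1 : ℝ) : ℂ)] LSeries a := by
    have h2 : ∀ᶠ s : ℂ in 𝓝 ((σ₁ + 1 : ℝ) : ℂ), σ₁ < s.re := by
      refine (isOpen_lt continuous_const Complex.continuous_re).mem_nhds ?_
      show σ₁ < (((σ₁ + 1 : ℝ)) : ℂ).re
      rw [ofReal_re]; linarith
    filter_upwards [h2] with s hs using hFE s hs
  have hEq : Set.EqOn F (LSeries a) U :=
    hFU.eqOn_of_preconnected_of_eventuallyEq hLU hUpre hz₀ hev
  have hFc : F =ᶠ[𝓝 (c : ℂ)] LSeries a := by
    have hAF : AnalyticAt ℂ F (c : ℂ) := hF c (by linarith)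
    have hAL : AnalyticAt ℂ (LSeries a) (c : ℂ) := hLan _ (by simpa using (by linarith : x₀ < c))
    refine (hAF.frequently_eq_iff_eventually_eq hAL).1 ?_
    have h3 : Tendsto (fun x : ℝ => (x : ℂ)) (𝓝[>] c) (𝓝[≠] (c : ℂ)) := by
      refine tendsto_nhdsWithin_iff.2 ⟨?_, ?_⟩
      · exact (continuous_ofReal.tendsto c).mono_left nhdsWithin_le_nhds
      · filter_upwards [self_mem_nhdsWithin] with x hx
        have hx' : c < x := hx
        simp only [Set.mem_compl_iff, Set.mem_singleton_iff, ofReal_inj]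
        exact hx'.ne'
    refine h3.frequently ?_
    refine Eventually.frequently ?_
    have h4 : Set.Ioo c (σ₁ + 3) ∈ 𝓝[>] c := Ioo_mem_nhdsGT (by linarith)
    filter_upwards [h4] with x hx
    exact hEq ⟨x, ⟨by linarith [hx.1], hx.2⟩, rfl⟩
  have hfin := ldt_local a ha F c (2 * r) hca hball hFc (3 / 2 * r) (by positivity) (by linarith)
  have h5 := hfin.abscissaOfAbsConv_le
  rw [hx₀, ofReal_re] at h5
  have h6 : x₀ ≤ c - 3 / 2 * r := by exact_mod_cast h5
  linarith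

/-- Landau's theorem, local form -/
theorem landau_local (a : ℕ → ℂ) (ha : 0 ≤ a) (σ₀ : ℝ) (htop : abscissaOfAbsConv a ≠ ⊤)
    (h : ∀ x₀ : ℝ, σ₀ < x₀ → abscissaOfAbsConv a = (x₀ : EReal) → ∃ F : ℂ → ℂ, ∃ R > 0,
      DifferentiableOn ℂ F (Metric.ball (x₀ : ℂ) R) ∧
      ∀ z ∈ Metric.ball (x₀ : ℂ) R, x₀ < z.re → F z = LSeries a z) :
    abscissaOfAbsConv a ≤ (σ₀ : EReal) := by
  by_contra hcon
  rw [not_le] at hcon
  have hne_bot : abscissaOfAbsConv a ≠ ⊥ := ne_of_gt (lt_trans (EReal.bot_lt_coe _) hcon)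
  obtain ⟨x₀, hx₀⟩ : ∃ x₀ : ℝ, abscissaOfAbsConv a = (x₀ : EReal) :=
    ⟨(abscissaOfAbsConv a).toReal, (EReal.coe_toReal htop hne_bot).symm⟩
  have hσx : σ₀ < x₀ := by rw [hx₀] at hcon; exact_mod_cast hcon
  obtain ⟨F, R, hR, hFR, hFE⟩ := h x₀ hσx hx₀
  obtain ⟨r, hr0, hrR⟩ : ∃ r : ℝ, 0 < r ∧ 3 * r ≤ R := ⟨R / 3, by positivity, by linarith⟩
  set c : ℝ := x₀ + r with hc
  have hca : abscissaOfAbsConv a < (c : EReal) := by
    rw [hx₀]
    exact_mod_cast (by linarith : x₀ < c)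
  have hball : DifferentiableOn ℂ F (Metric.ball (c : ℂ) (2 * r)) := by
    refine hFR.mono fun z hz => ?_
    rw [Metric.mem_ball, dist_eq_norm] at hz ⊢
    have e : z - (x₀ : ℂ) = (z - (c : ℂ)) + (r : ℂ) := by
      rw [hc]; push_cast; ring
    rw [e]
    refine lt_of_le_of_lt (norm_add_le _ _) ?_
    rw [norm_real, Real.norm_eq_abs, abs_of_pos hr0]
    linarith
  have hFc : F =ᶠ[𝓝 (c : ℂ)] LSeries a := by
    have h1 : ∀ᶠ z : ℂ in 𝓝 (c : ℂ), x₀ < z.re := by
      refine (isOpen_lt continuous_const Complex.continuous_re).mem_nhds ?_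
      show x₀ < (c : ℂ).re
      rw [ofReal_re]; linarith
    have h2 : ∀ᶠ z : ℂ in 𝓝 (c : ℂ), z ∈ Metric.ball (x₀ : ℂ) R := by
      refine Metric.isOpen_ball.mem_nhds ?_
      rw [Metric.mem_ball, dist_eq_norm]
      have e : (c : ℂ) - (x₀ : ℂ) = (r : ℂ) := by rw [hc]; push_cast; ring
      rw [e, norm_real, Real.norm_eq_abs, abs_of_pos hr0]
      linarith
    filter_upwards [h1, h2] with z hz1 hz2 using hFE z hz2 hz1
  have hfin := ldt_local a ha F c (2 * r) hca hball hFc (3 / 2 * r) (by positivity) (by linarith)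
  have h5 := hfin.abscissaOfAbsConv_le
  rw [hx₀, ofReal_re] at h5
  have h6 : x₀ ≤ c - 3 / 2 * r := by exact_mod_cast h5
  linarith

/-- two analytic functions which agree far to the right agree near `x₀`, if the second one is analytic
on the real axis -/
theorem anl_ext (f g : ℂ → ℂ) (x₀ x₁ r : ℝ) (hr : 0 < r)
    (hf : ∀ z : ℂ, x₀ < z.re → AnalyticAt ℂ f z) (hg : ∀ x : ℝ, x₀ < x → AnalyticAt ℂ g (x : ℂ))
    (hgB : DifferentiableOn ℂ g (Metric.ball (x₀ : ℂ) r))
    (heq : ∀ z : ℂ, x₁ < z.re → f z = g z) :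
    ∀ z ∈ Metric.ball (x₀ : ℂ) r, x₀ < z.re → f z = g z := by
  -- equality on the real axis
  set b : ℝ := max x₀ x₁ + r + 2 with hb
  have hb0 : x₀ + r + 2 ≤ b := by rw [hb]; linarith [le_max_left x₀ x₁]
  have hb1 : x₁ + 2 ≤ b := by rw [hb]; linarith [le_max_right x₀ x₁]
  set U : Set ℂ := (fun x : ℝ => (x : ℂ)) '' Set.Ioo x₀ b with hU
  have hUpre : IsPreconnected U := isPreconnected_Ioo.image _ continuous_ofReal.continuousOn
  have hfU : AnalyticOnNhd ℂ f U := by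
    rintro z ⟨x, hx, rfl⟩
    exact hf _ (by simpa using hx.1)
  have hgU : AnalyticOnNhd ℂ g U := by
    rintro z ⟨x, hx, rfl⟩
    exact hg x hx.1
  have hz₀ : ((b - 1 : ℝ) : ℂ) ∈ U := ⟨b - 1, ⟨by linarith, by linarith⟩, rfl⟩
  have hev : f =ᶠ[𝓝 ((b - 1 : ℝ) : ℂ)] g := by
    have h2 : ∀ᶠ s : ℂ in 𝓝 ((b - 1 : ℝ) : ℂ), x₁ < s.re := by
      refine (isOpen_lt continuous_const Complex.continuous_re).mem_nhds ?_
      show x₁ < (((b - 1 : ℝ)) : ℂ).re
      rw [ofReal_re]; linarith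
    filter_upwards [h2] with s hs using heq s hs
  have hEq : Set.EqOn f g U := hfU.eqOn_of_preconnected_of_eventuallyEq hgU hUpre hz₀ hev
  -- the half ball
  set W : Set ℂ := Metric.ball (x₀ : ℂ) r ∩ {z : ℂ | x₀ < z.re} with hW
  have hWo : IsOpen W := Metric.isOpen_ball.inter (isOpen_lt continuous_const Complex.continuous_re)
  have hWc : Convex ℝ W := by
    refine (convex_ball _ _).inter ?_
    exact convex_halfSpace_re_gt x₀
  have hfW : AnalyticOnNhd ℂ f W := fun z hz => hf z hz.2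
  have hgW : AnalyticOnNhd ℂ g W := fun z hz =>
    hgB.analyticAt (Metric.isOpen_ball.mem_nhds hz.1)
  set c : ℝ := x₀ + r / 2 with hc
  have hcW : (c : ℂ) ∈ W := by
    refine ⟨?_, ?_⟩
    · rw [Metric.mem_ball, dist_eq_norm]
      have e : (c : ℂ) - (x₀ : ℂ) = ((r / 2 : ℝ) : ℂ) := by rw [hc]; push_cast; ring
      rw [e, norm_real, Real.norm_eq_abs, abs_of_pos (by positivity)]
      linarith
    · show x₀ < (c : ℂ).re
      rw [ofReal_re]; linarith
  have hfc : f =ᶠ[𝓝 (c : ℂ)] g := by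
    refine ((hfW _ hcW).frequently_eq_iff_eventually_eq (hgW _ hcW)).1 ?_
    have h3 : Tendsto (fun x : ℝ => (x : ℂ)) (𝓝[>] c) (𝓝[≠] (c : ℂ)) := by
      refine tendsto_nhdsWithin_iff.2 ⟨?_, ?_⟩
      · exact (continuous_ofReal.tendsto c).mono_left nhdsWithin_le_nhds
      · filter_upwards [self_mem_nhdsWithin] with x hx
        have hx' : c < x := hx
        simp only [Set.mem_compl_iff, Set.mem_singleton_iff, ofReal_inj]
        exact hx'.ne'
    refine h3.frequently ?_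
    refine Eventually.frequently ?_
    have h4 : Set.Ioo c b ∈ 𝓝[>] c := Ioo_mem_nhdsGT (by linarith)
    filter_upwards [h4] with x hx
    exact hEq ⟨x, ⟨by linarith [hx.1], hx.2⟩, rfl⟩
  have hEqW : Set.EqOn f g W :=
    hfW.eqOn_of_preconnected_of_eventuallyEq hgW hWc.isPreconnected hcW hfc
  intro z hz hz2
  exact hEqW ⟨hz, hz2⟩

end Pool.Agent.H24.TS
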