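import Pool.Agent.H67.TS.Sub
import Pool.Agent.H67.TS.L1

/-!
# [H24 TS MDB]  the one sided hypothesis bounds the mean error of ALL shorter windows

`κ = X^(1-u)`. PROOF. `B x = |EI (x-m) L| + C X^(α-u)` for `X/2 < x ≤ 2X` (`0` for `x ≤ X/2`), `m = ⌈40 X^(1-u)⌉`, `L = ⌈200 X^(1-u)⌉`.
`sub` with `x - m`, `L`, `a = n ∈ [x, x + κ]`, `j = h ≤ κ` (margins `16 (x-m)^(1-u) ≤ 32 X^(1-u)`; `(x-m)^(α-1) L ≤ C X^(α-u)`) gives `|EI n h| ≤ B x`.
(`EI n h = Pi n h` for integers: see how `Pcs` / `l1` pass from `One` to `EI`.) Sum over `x`: `l1` at `X/4`, `X/2`, `X` (three dyadic ranges).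
-/

set_option autoImplicit false

namespace Pool.Agent.H24.TS

open Finset Pool.Agent.H48.WN Pool.Agent.H67.TS

private theorem pi_ei (n H : ℕ) (hn3 : 2 ≤ n) : Pi n H = EI n H := by
  rw [ei_sub n H hn3]
  have hn2 : (2 : ℝ) ≤ n := by exact_mod_cast hn3
  have hH0 : (0 : ℝ) ≤ H := Nat.cast_nonneg H
  have hn3 : (2 : ℝ) ≤ ((n + H : ℕ) : ℝ) := by push_cast; linarith
  have e1 : ⌊((n : ℝ) + (H : ℝ))⌋₊ = n + H := by
    rw [← Nat.cast_add, Nat.floor_natCast]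
  unfold Pi PiN
  rw [e1, Nat.floor_natCast, l1_card (by omega : n ≤ n + H),
    ← intervalIntegral.integral_add_adjacent_intervals (l1_ii (le_refl 2) hn2)
      (l1_ii hn2 hn3)]
  have e2 : ∫ t in (n : ℝ)..((n : ℝ) + H), 1 / Real.log (max t 2) =
      ∫ t in (n : ℝ)..((n : ℝ) + H), 1 / Real.log t := by
    apply intervalIntegral.integral_congr
    intro t ht
    rw [Set.uIcc_of_le (by linarith)] at ht
    show 1 / Real.log (max t 2) = 1 / Real.log t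
    rw [max_eq_left (hn2.trans ht.1)]
  rw [e2]
  push_cast
  ring

/-- a sum over shifted arguments -/
private theorem shift_sum (f : ℕ → ℝ) (hf : ∀ n, 0 ≤ f n) (A X m q : ℕ) (hq : q + m < A + 1) (h8 : 2 * X ≤ 8 * q + m) :
    ∑ x ∈ Ioc A (2 * X), f (x - m) ≤ ∑ y ∈ Ioc q (8 * q), f y := by
  have e1 : ∑ x ∈ Ioc A (2 * X), f (x - m) = ∑ y ∈ (Ioc A (2 * X)).image (fun x => x - m), f y := by
    rw [Finset.sum_image]
    intro a ha b hb hab
    have ha' := mem_Ioc.1 (Finset.mem_coe.1 ha)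
    have hb' := mem_Ioc.1 (Finset.mem_coe.1 hb)
    have hab' : a - m = b - m := hab
    omega
  rw [e1]
  refine Finset.sum_le_sum_of_subset_of_nonneg ?_ fun i _ _ => hf i
  intro y hy
  obtain ⟨x, hx, rfl⟩ := Finset.mem_image.1 hy
  rw [mem_Ioc] at hx ⊢
  omega

theorem mdb (s α u : ℝ) (hs : s = 1 ∨ s = -1) (hu : 0 < u) (hu1 : u < 1) (hα0 : u ≤ α) (hα1 : α < 1)
    (h : One s α u) (hb : Smb α) (ε : ℝ) (hε : 0 < ε) : ∃ x0 : ℝ, ∀ X : ℕ, x0 ≤ X → ∃ B : ℕ → ℝ,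
      (∀ x, 0 ≤ B x) ∧ ∑ x ∈ Ioc 0 (2 * X), B x ≤ (X : ℝ) ^ (1 + α - u + ε) ∧
      ∀ x n j : ℕ, X < n → n ≤ 2 * X → x ≤ n → (n : ℝ) ≤ x + (X : ℝ) ^ (1 - u) → (j : ℝ) ≤ (X : ℝ) ^ (1 - u) →
        |EI n j| ≤ B x := by
  obtain ⟨C, x1, hC, hx1, hsub⟩ := sub s α u hs hu hu1 (hu.le.trans hα0) hα1 h
  obtain ⟨e, he⟩ : ∃ e, e = min ε 1 := ⟨_, rfl⟩
  have he0 : 0 < e := by rw [he]; exact lt_min hε one_pos
  have he1 : e ≤ 1 := by rw [he]; exact min_le_right _ _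
  have heε : e ≤ ε := by rw [he]; exact min_le_left _ _
  obtain ⟨x2, hl1⟩ := l1 s α u hs hu hu1 (hu.le.trans hα0) hα1 h hb (e / 2) (by linarith)
  obtain ⟨K, hK⟩ : ∃ K, K = 2412 + 1608 * C := ⟨_, rfl⟩
  have hK1 : 1 ≤ K := by rw [hK]; linarith
  refine ⟨max (4 * x1) (max (4 * x2) (max (K ^ (2 / e)) (max ((20000 : ℝ) ^ (1 / u)) 100))), fun X hX => ?_⟩
  have hX1 : 4 * x1 ≤ X := (le_max_left _ _).trans hX
  have hXa := (le_max_right _ _).trans hX
  have hX2 : 4 * x2 ≤ X := (le_max_left _ _).trans hXa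
  have hXb := (le_max_right _ _).trans hXa
  have hX3 : K ^ (2 / e) ≤ X := (le_max_left _ _).trans hXb
  have hXc := (le_max_right _ _).trans hXb
  have hX4 : (20000 : ℝ) ^ (1 / u) ≤ X := (le_max_left _ _).trans hXc
  have hX5 : (100 : ℝ) ≤ X := (le_max_right _ _).trans hXc
  have hX0 : (0 : ℝ) < X := by linarith
  have hX1' : (1 : ℝ) ≤ X := by linarith
  -- the unit of length
  obtain ⟨κ, hκ⟩ : ∃ κ : ℝ, κ = (X : ℝ) ^ (1 - u) := ⟨_, rfl⟩
  have hκ1 : 1 ≤ κ := by rw [hκ]; exact Real.one_le_rpow hX1' (by linarith)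
  have hκX : 20000 * κ ≤ X := by
    have a1 : (20000 : ℝ) ≤ (X : ℝ) ^ u := by
      have a2 : ((20000 : ℝ) ^ (1 / u)) ^ u ≤ (X : ℝ) ^ u := Real.rpow_le_rpow (by positivity) hX4 hu.le
      rwa [← Real.rpow_mul (by norm_num), show 1 / u * u = 1 by field_simp, Real.rpow_one] at a2
    have a3 : (X : ℝ) ^ u * κ = X := by
      rw [hκ, ← Real.rpow_add hX0, show u + (1 - u) = 1 by ring, Real.rpow_one]
    calc 20000 * κ ≤ (X : ℝ) ^ u * κ := mul_le_mul_of_nonneg_right a1 (by linarith)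
      _ = X := a3
  have hX8 : ∀ y : ℝ, 0 ≤ y → y ≤ 2 * X → y ^ (1 - u) ≤ 2 * κ := by
    intro y hy0 hy
    have a1 : y ^ (1 - u) ≤ (2 * (X : ℝ)) ^ (1 - u) := Real.rpow_le_rpow hy0 hy (by linarith)
    have a2 : (2 * (X : ℝ)) ^ (1 - u) = (2 : ℝ) ^ (1 - u) * κ := by
      rw [hκ]
      exact Real.mul_rpow (by norm_num) hX0.le
    have a3 : (2 : ℝ) ^ (1 - u) ≤ 2 := by
      calc (2 : ℝ) ^ (1 - u) ≤ 2 ^ (1 : ℝ) := Real.rpow_le_rpow_of_exponent_le (by norm_num) (by linarith)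
        _ = 2 := Real.rpow_one 2
    have a4 : (2 : ℝ) ^ (1 - u) * κ ≤ 2 * κ := mul_le_mul_of_nonneg_right a3 (by linarith)
    linarith
  obtain ⟨m, hm⟩ : ∃ m : ℕ, m = ⌈40 * κ⌉₊ := ⟨_, rfl⟩
  obtain ⟨L, hL⟩ : ∃ L : ℕ, L = ⌈200 * κ⌉₊ := ⟨_, rfl⟩
  have hm1 : 40 * κ ≤ m := by rw [hm]; exact Nat.le_ceil _
  have hm2 : (m : ℝ) ≤ 41 * κ := by
    have := (Nat.ceil_lt_add_one (show 0 ≤ 40 * κ by linarith)).le
    rw [hm]
    linarith
  have hL1 : 200 * κ ≤ L := by rw [hL]; exact Nat.le_ceil _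
  have hL2 : (L : ℝ) ≤ 201 * κ := by
    have := (Nat.ceil_lt_add_one (show 0 ≤ 200 * κ by linarith)).le
    rw [hL]
    linarith
  obtain ⟨D, hD⟩ : ∃ D : ℝ, D = 804 * C * (X : ℝ) ^ (α - u) := ⟨_, rfl⟩
  have hD0 : 0 ≤ D := by rw [hD]; positivity
  obtain ⟨q, hq⟩ : ∃ q : ℕ, q = X / 4 + 1 := ⟨_, rfl⟩
  have hq1 : (X : ℝ) ≤ 4 * q := by
    have : X ≤ 4 * q := by omega
    exact_mod_cast this
  have hq2 : 4 * (q : ℝ) ≤ X + 4 := by
    have : 4 * q ≤ X + 4 := by omega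
    exact_mod_cast this
  refine ⟨fun x => if X < 2 * x ∧ x ≤ 2 * X then |EI (x - m) L| + D else 0, ?_, ?_, ?_⟩
  · intro x
    show (0 : ℝ) ≤ if X < 2 * x ∧ x ≤ 2 * X then |EI (x - m) L| + D else 0
    split_ifs
    · positivity
    · exact le_rfl
  · -- the sum
    have s1 : ∑ x ∈ Ioc 0 (2 * X), (if X < 2 * x ∧ x ≤ 2 * X then |EI (x - m) L| + D else 0) ≤
        ∑ x ∈ Ioc (X / 2) (2 * X), (|EI (x - m) L| + D) := by
      rw [← Finset.sum_filter]
      refine Finset.sum_le_sum_of_subset_of_nonneg ?_ fun i _ _ => by positivity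
      intro x hx
      rw [mem_filter] at hx
      rw [mem_Ioc]
      omega
    have hmX : q + m < X / 2 + 1 := by
      have a1 : (q : ℝ) + m < (X : ℝ) / 2 - 1 := by linarith
      have a2 : ((q + m + 1 : ℕ) : ℝ) * 2 < X := by push_cast; linarith
      have a3 : (q + m + 1) * 2 < X := by exact_mod_cast a2
      omega
    have s2 : ∑ x ∈ Ioc (X / 2) (2 * X), |EI (x - m) L| ≤ ∑ y ∈ Ioc q (8 * q), |EI y L| :=
      shift_sum (fun y => |EI y L|) (fun y => abs_nonneg _) (X / 2) X m q hmX (by omega)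
    have s3 : ∑ y ∈ Ioc q (8 * q), |EI y L| = ∑ y ∈ Ioc q (2 * q), |EI y L| +
        ∑ y ∈ Ioc (2 * q) (2 * (2 * q)), |EI y L| + ∑ y ∈ Ioc (4 * q) (2 * (4 * q)), |EI y L| := by
      have t1 : Ioc q (8 * q) = Ioc q (2 * q) ∪ Ioc (2 * q) (8 * q) :=
        (Finset.Ioc_union_Ioc_eq_Ioc (by omega) (by omega)).symm
      have t2 : Ioc (2 * q) (8 * q) = Ioc (2 * q) (2 * (2 * q)) ∪ Ioc (4 * q) (2 * (4 * q)) := by
        rw [show 2 * (2 * q) = 4 * q by ring, show 2 * (4 * q) = 8 * q by ring]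
        exact (Finset.Ioc_union_Ioc_eq_Ioc (by omega) (by omega)).symm
      rw [t1, Finset.sum_union, t2, Finset.sum_union]
      · ring
      · rw [Finset.disjoint_left]
        intro a ha hb
        rw [mem_Ioc] at ha hb
        omega
      · rw [Finset.disjoint_left]
        intro a ha hb
        rw [mem_Ioc] at ha hb
        omega
    have s4 : ∀ Y : ℕ, (q : ℝ) ≤ Y → (Y : ℝ) ≤ X + 4 →
        ∑ y ∈ Ioc Y (2 * Y), |EI y L| ≤ 804 * ((X : ℝ) ^ (α + e / 2) * κ) := by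
      intro Y hY1 hY2
      have hY0 : (0 : ℝ) < Y := by linarith
      have b1 : (3 * (Y : ℝ)) ^ (1 - u) ≤ 4 * κ := by
        have c1 : (3 * (Y : ℝ)) ^ (1 - u) ≤ (2 * (2 * X) : ℝ) ^ (1 - u) :=
          Real.rpow_le_rpow (by positivity) (by linarith) (by linarith)
        have c2 : (2 * (2 * X) : ℝ) ^ (1 - u) = (2 : ℝ) ^ (1 - u) * (2 * X : ℝ) ^ (1 - u) :=
          Real.mul_rpow (by norm_num) (by positivity)
        have c3 : (2 : ℝ) ^ (1 - u) ≤ 2 := by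
          calc (2 : ℝ) ^ (1 - u) ≤ 2 ^ (1 : ℝ) := Real.rpow_le_rpow_of_exponent_le (by norm_num) (by linarith)
            _ = 2 := Real.rpow_one 2
        have c4 := hX8 (2 * X) (by positivity) le_rfl
        have c5 : (0 : ℝ) ≤ (2 * X : ℝ) ^ (1 - u) := by positivity
        nlinarith
      have b2 := hl1 Y L (by linarith) (by linarith) (by linarith)
      have b3 : (Y : ℝ) ^ (α + e / 2) ≤ 4 * (X : ℝ) ^ (α + e / 2) := by
        have c1 : (Y : ℝ) ^ (α + e / 2) ≤ (2 * X : ℝ) ^ (α + e / 2) :=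
          Real.rpow_le_rpow hY0.le (by linarith) (by linarith)
        have c2 : (2 * X : ℝ) ^ (α + e / 2) = (2 : ℝ) ^ (α + e / 2) * (X : ℝ) ^ (α + e / 2) :=
          Real.mul_rpow (by norm_num) hX0.le
        have c3 : (2 : ℝ) ^ (α + e / 2) ≤ 4 := by
          calc (2 : ℝ) ^ (α + e / 2) ≤ 2 ^ (2 : ℝ) := Real.rpow_le_rpow_of_exponent_le (by norm_num) (by linarith)
            _ = 4 := by norm_num
        rw [c2] at c1
        exact c1.trans (mul_le_mul_of_nonneg_right c3 (by positivity))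
      have b4 : 0 ≤ (X : ℝ) ^ (α + e / 2) := by positivity
      calc ∑ y ∈ Ioc Y (2 * Y), |EI y L| ≤ (Y : ℝ) ^ (α + e / 2) * L := b2
        _ ≤ (4 * (X : ℝ) ^ (α + e / 2)) * (201 * κ) := mul_le_mul b3 hL2 (Nat.cast_nonneg _) (by positivity)
        _ = 804 * ((X : ℝ) ^ (α + e / 2) * κ) := by ring
    have s5 : ∑ y ∈ Ioc q (8 * q), |EI y L| ≤ 2412 * ((X : ℝ) ^ (α + e / 2) * κ) := by
      rw [s3]
      have r1 := s4 q le_rfl (by linarith)
      have r2 := s4 (2 * q) (by push_cast; linarith) (by push_cast; linarith)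
      have r3 := s4 (4 * q) (by push_cast; linarith) (by push_cast; linarith)
      linarith
    have s6 : ∑ _x ∈ Ioc (X / 2) (2 * X), D ≤ 1608 * C * ((X : ℝ) ^ (α + e / 2) * κ) := by
      rw [Finset.sum_const, nsmul_eq_mul, Nat.card_Ioc]
      have r1 : ((2 * X - X / 2 : ℕ) : ℝ) ≤ 2 * X := by
        have : 2 * X - X / 2 ≤ 2 * X := Nat.sub_le _ _
        exact_mod_cast this
      have r2 : (X : ℝ) * (X : ℝ) ^ (α - u) = (X : ℝ) ^ α * κ := by
        rw [hκ, ← Real.rpow_add hX0, ← Real.rpow_one_add' hX0.le (by linarith)]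
        congr 1
        ring
      have r3 : (X : ℝ) ^ α ≤ (X : ℝ) ^ (α + e / 2) :=
        Real.rpow_le_rpow_of_exponent_le hX1' (by linarith)
      calc ((2 * X - X / 2 : ℕ) : ℝ) * D ≤ 2 * X * D := mul_le_mul_of_nonneg_right r1 hD0
        _ = 1608 * C * ((X : ℝ) * (X : ℝ) ^ (α - u)) := by rw [hD]; ring
        _ = 1608 * C * ((X : ℝ) ^ α * κ) := by rw [r2]
        _ ≤ 1608 * C * ((X : ℝ) ^ (α + e / 2) * κ) :=
            mul_le_mul_of_nonneg_left (mul_le_mul_of_nonneg_right r3 (by linarith)) (by positivity)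
    have s7 : K ≤ (X : ℝ) ^ (e / 2) := by
      have h9 : (K ^ (2 / e)) ^ (e / 2) ≤ (X : ℝ) ^ (e / 2) :=
        Real.rpow_le_rpow (by positivity) hX3 (by linarith)
      rwa [← Real.rpow_mul (by linarith), show 2 / e * (e / 2) = 1 by field_simp,
        Real.rpow_one] at h9
    calc ∑ x ∈ Ioc 0 (2 * X), (if X < 2 * x ∧ x ≤ 2 * X then |EI (x - m) L| + D else 0)
        ≤ ∑ x ∈ Ioc (X / 2) (2 * X), (|EI (x - m) L| + D) := s1
      _ = ∑ x ∈ Ioc (X / 2) (2 * X), |EI (x - m) L| + ∑ _x ∈ Ioc (X / 2) (2 * X), D := Finset.sum_add_distrib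
      _ ≤ 2412 * ((X : ℝ) ^ (α + e / 2) * κ) + 1608 * C * ((X : ℝ) ^ (α + e / 2) * κ) :=
          add_le_add (s2.trans s5) s6
      _ = K * ((X : ℝ) ^ (α + e / 2) * κ) := by rw [hK]; ring
      _ ≤ (X : ℝ) ^ (e / 2) * ((X : ℝ) ^ (α + e / 2) * κ) :=
          mul_le_mul_of_nonneg_right s7 (by positivity)
      _ = (X : ℝ) ^ (1 + α - u + e) := by
          rw [hκ, ← Real.rpow_add hX0, ← Real.rpow_add hX0]
          congr 1
          ring
      _ ≤ (X : ℝ) ^ (1 + α - u + ε) := Real.rpow_le_rpow_of_exponent_le hX1' (by linarith)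
  · intro x n j hn1 hn2 hxn hnx hj
    rw [← hκ] at hnx hj
    have hn1' : (X : ℝ) < n := by exact_mod_cast hn1
    have hn2' : (n : ℝ) ≤ 2 * X := by exact_mod_cast hn2
    have hxn' : (x : ℝ) ≤ n := by exact_mod_cast hxn
    have hj0 : (0 : ℝ) ≤ j := Nat.cast_nonneg j
    have hcond : X < 2 * x ∧ x ≤ 2 * X := by
      constructor
      · have : (X : ℝ) < 2 * x := by linarith
        exact_mod_cast this
      · omega
    show |EI n j| ≤ if X < 2 * x ∧ x ≤ 2 * X then |EI (x - m) L| + D else 0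
    rw [if_pos hcond]
    have hmx : m ≤ x := by
      have : (m : ℝ) ≤ x := by linarith
      exact_mod_cast this
    obtain ⟨y, hy⟩ : ∃ y : ℕ, y = x - m := ⟨_, rfl⟩
    have hy' : (y : ℝ) = x - m := by
      rw [hy, Nat.cast_sub hmx]
    have hy4 : (X : ℝ) / 4 ≤ y := by linarith
    have hyX : (y : ℝ) ≤ 2 * X := by linarith
    have hyκ := hX8 y (Nat.cast_nonneg _) hyX
    have h1 := hsub y L n j (by linarith) (by linarith) (by linarith) hj0 (by linarith)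
    rw [pi_ei n j (by
      have : (2 : ℝ) ≤ n := by linarith
      exact_mod_cast this), pi_ei y L (by
      have : (2 : ℝ) ≤ y := by linarith
      exact_mod_cast this)] at h1
    have h2 : s * EI y L ≤ |EI y L| := by
      rcases hs with rfl | rfl
      · rw [one_mul]
        exact le_abs_self _
      · rw [neg_one_mul]
        exact neg_le_abs _
    have h3 : C * (y : ℝ) ^ (α - 1) * L ≤ D := by
      have r1 : (y : ℝ) ^ (α - 1) ≤ 4 * (X : ℝ) ^ (α - 1) := by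
        have c1 : (y : ℝ) ^ (α - 1) ≤ (1 / 4 * (X : ℝ)) ^ (α - 1) :=
          Real.rpow_le_rpow_of_nonpos (by positivity) (by linarith) (by linarith)
        rw [Real.mul_rpow (by norm_num) hX0.le] at c1
        have c2 : (1 / 4 : ℝ) ^ (α - 1) ≤ (1 / 4 : ℝ) ^ (-1 : ℝ) :=
          Real.rpow_le_rpow_of_exponent_ge (by norm_num) (by norm_num) (by linarith)
        have c3 : (1 / 4 : ℝ) ^ (-1 : ℝ) = 4 := by
          rw [Real.rpow_neg_one]; norm_num
        rw [c3] at c2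
        exact c1.trans (mul_le_mul_of_nonneg_right c2 (by positivity))
      have r2 : (X : ℝ) ^ (α - 1) * κ = (X : ℝ) ^ (α - u) := by
        rw [hκ, ← Real.rpow_add hX0]
        congr 1
        ring
      calc C * (y : ℝ) ^ (α - 1) * L ≤ C * (4 * (X : ℝ) ^ (α - 1)) * (201 * κ) :=
            mul_le_mul (mul_le_mul_of_nonneg_left r1 hC.le) hL2 (Nat.cast_nonneg _) (by positivity)
        _ = 804 * C * ((X : ℝ) ^ (α - 1) * κ) := by ring
        _ = D := by rw [r2, hD]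
    rw [← hy]
    linarith

/-- mean error of all short windows -/
theorem mda (s α u : ℝ) (hs : s = 1 ∨ s = -1) (hu : 0 < u) (hu1 : u < 1) (hα0 : u ≤ α) (hα1 : α < 1)
    (h : One s α u) (hb : Smb α) (ε : ℝ) (hε : 0 < ε) : ∃ x0 : ℝ, ∀ X j : ℕ, x0 ≤ X → (j : ℝ) ≤ (X : ℝ) ^ (1 - u) →
      ∑ n ∈ Ioc X (2 * X), |EI n j| ≤ (X : ℝ) ^ (1 + α - u + ε) := by
  obtain ⟨x0, H⟩ := mdb s α u hs hu hu1 hα0 hα1 h hb ε hε
  refine ⟨x0, fun X j hX hj => ?_⟩
  obtain ⟨B, hB0, hB1, hB2⟩ := H X hX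
  have h0 : (0 : ℝ) ≤ (X : ℝ) ^ (1 - u) := by positivity
  refine le_trans ?_ hB1
  refine (Finset.sum_le_sum fun n hn => ?_).trans
    (Finset.sum_le_sum_of_subset_of_nonneg (f := B) ?_ fun i _ _ => hB0 i)
  · rw [mem_Ioc] at hn
    exact hB2 n n j hn.1 hn.2 le_rfl (by linarith) hj
  · intro n hn
    rw [mem_Ioc] at hn ⊢
    omega

end Pool.Agent.H24.TS
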