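import Mathlib

/-!
[H24 TS NEWT]  a pointwise inequality between a power of a sum and elementary symmetric functions

`|f i| ≤ 1`, `card ≤ n`, `G = ∑ f i`: `G^(2k) ≤ A_k (e_k^2 + n^k)` (Newton's identities: `k e_k = G e_(k-1) + ..`, the power
sums `p_i`, `i ≥ 2`, are at most `n`).
-/

namespace Pool.Agent.H24.TS

open Finset

/-- elementary symmetric function of the values -/
noncomputable def eS {σ : Type} [Fintype σ] (f : σ → ℝ) (k : ℕ) : ℝ :=
  ∑ t ∈ powersetCard k (univ : Finset σ), ∏ i ∈ t, f i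

theorem eS_zero {σ : Type} [Fintype σ] (f : σ → ℝ) : eS f 0 = 1 := by
  simp [eS]

theorem eS_newton {σ : Type} [Fintype σ] (f : σ → ℝ) (k : ℕ) :
    (k : ℝ) * eS f k = (-1) ^ (k + 1) *
      ∑ j ∈ range k, (-1) ^ j * eS f j * ∑ i, f i ^ (k - j) := by
  classical
  have h := congrArg (MvPolynomial.aeval f) (MvPolynomial.mul_esymm_eq_sum σ ℝ k)
  have he : ∀ j : ℕ, MvPolynomial.aeval f (MvPolynomial.esymm σ ℝ j) = eS f j := by
    intro j
    rw [MvPolynomial.esymm, map_sum]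
    unfold eS
    refine Finset.sum_congr rfl fun t _ => ?_
    rw [map_prod]
    simp
  have hp : ∀ j : ℕ, MvPolynomial.aeval f (MvPolynomial.psum σ ℝ j) = ∑ i, f i ^ j := by
    intro j
    rw [MvPolynomial.psum, map_sum]
    simp
  rw [map_mul, map_mul, map_sum, he] at h
  simp only [map_mul, map_pow, map_neg, map_one, he, hp, map_natCast] at h
  rw [h]
  congr 1
  rw [Finset.sum_filter, Finset.Nat.sum_antidiagonal_eq_sum_range_succ_mk, Finset.sum_range_succ]
  simp only [lt_irrefl, if_false, add_zero]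
  refine Finset.sum_congr rfl fun j hj => ?_
  rw [if_pos (mem_range.1 hj)]

section

variable {σ : Type} [Fintype σ] (f : σ → ℝ) (n T : ℝ)

theorem eS_psum (hf : ∀ i, |f i| ≤ 1) (hn : (Fintype.card σ : ℝ) ≤ n) (i : ℕ) :
    |∑ j, f j ^ i| ≤ n := by
  refine (Finset.abs_sum_le_sum_abs _ _).trans ?_
  have h1 : ∀ j ∈ (univ : Finset σ), |f j ^ i| ≤ 1 := by
    intro j _
    rw [abs_pow]
    exact pow_le_one₀ (abs_nonneg _) (hf j)
  refine (Finset.sum_le_sum h1).trans ?_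
  simpa using hn

theorem eS_le (hf : ∀ i, |f i| ≤ 1) (hn : (Fintype.card σ : ℝ) ≤ n) (hT1 : 1 ≤ T)
    (hTn : n ≤ T ^ 2) (hTG : |∑ i, f i| ≤ T) (k : ℕ) : |eS f k| ≤ T ^ k := by
  induction k using Nat.strong_induction_on with
  | _ k ih =>
  rcases Nat.eq_zero_or_pos k with h0 | h0
  · subst h0
    rw [eS_zero]
    simp
  · have hk : (0 : ℝ) < k := by exact_mod_cast h0
    have hT0 : 0 ≤ T := by linarith
    have h1 : (k : ℝ) * |eS f k| ≤ k * T ^ k := by
      have h2 : (k : ℝ) * |eS f k| = |(k : ℝ) * eS f k| := by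
        rw [abs_mul, abs_of_pos hk]
      rw [h2, eS_newton, abs_mul, abs_pow, abs_neg, abs_one, one_pow, one_mul]
      refine (Finset.abs_sum_le_sum_abs _ _).trans ?_
      have h3 : ∀ j ∈ range k, |(-1) ^ j * eS f j * ∑ i, f i ^ (k - j)| ≤ T ^ k := by
        intro j hj
        rw [mem_range] at hj
        rw [abs_mul, abs_mul, abs_pow, abs_neg, abs_one, one_pow, one_mul]
        have h4 := ih j hj
        have h5 : |∑ i, f i ^ (k - j)| ≤ T ^ (k - j) := by
          rcases Nat.lt_or_ge (k - j) 2 with h6 | h6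
          · have h7 : k - j = 1 := by omega
            rw [h7]
            simpa using hTG
          · refine (eS_psum f n hf hn _).trans (hTn.trans ?_)
            exact pow_le_pow_right₀ hT1 h6
        calc |eS f j| * |∑ i, f i ^ (k - j)| ≤ T ^ j * T ^ (k - j) :=
              mul_le_mul h4 h5 (abs_nonneg _) (by positivity)
          _ = T ^ k := by rw [← pow_add]; congr 1; omega
      refine (Finset.sum_le_sum h3).trans ?_
      simp
    exact le_of_mul_le_mul_left h1 hk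

theorem eS_step (hf : ∀ i, |f i| ≤ 1) (hn : (Fintype.card σ : ℝ) ≤ n) (hn0 : 0 ≤ n) (hT1 : 1 ≤ T)
    (hTn : n ≤ T ^ 2) (hTG : |∑ i, f i| ≤ T) (k : ℕ) :
    T ^ 2 * |((k + 1 : ℕ) : ℝ) * eS f (k + 1) - (∑ i, f i) * eS f k| ≤ k * (n * T ^ (k + 1)) := by
  have hT0 : 0 ≤ T := by linarith
  have h1 : ((k + 1 : ℕ) : ℝ) * eS f (k + 1) - (∑ i, f i) * eS f k =
      (-1) ^ (k + 1 + 1) * ∑ j ∈ range k, (-1) ^ j * eS f j * ∑ i, f i ^ (k + 1 - j) := by
    rw [eS_newton, Finset.sum_range_succ]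
    have e1 : k + 1 - k = 1 := by omega
    rw [e1]
    simp only [pow_one]
    have e2 : ((-1 : ℝ)) ^ (k + 1 + 1) * ((-1) ^ k * eS f k * ∑ i, f i) = (∑ i, f i) * eS f k := by
      have e3 : ((-1 : ℝ)) ^ (k + 1 + 1) * (-1) ^ k = 1 := by
        rw [← pow_add]
        exact Even.neg_one_pow ⟨k + 1, by ring⟩
      linear_combination ((∑ i, f i) * eS f k) * e3
    rw [mul_add, e2]
    ring
  rw [h1, abs_mul, abs_pow, abs_neg, abs_one, one_pow, one_mul]
  have h2 : ∀ j ∈ range k, |(-1) ^ j * eS f j * ∑ i, f i ^ (k + 1 - j)| ≤ T ^ j * n := by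
    intro j _
    rw [abs_mul, abs_mul, abs_pow, abs_neg, abs_one, one_pow, one_mul]
    exact mul_le_mul (eS_le f n T hf hn hT1 hTn hTG j) (eS_psum f n hf hn _) (abs_nonneg _)
      (by positivity)
  have h3 : |∑ j ∈ range k, (-1) ^ j * eS f j * ∑ i, f i ^ (k + 1 - j)| ≤ ∑ j ∈ range k, T ^ j * n :=
    (Finset.abs_sum_le_sum_abs _ _).trans (Finset.sum_le_sum h2)
  refine (mul_le_mul_of_nonneg_left h3 (by positivity)).trans ?_
  rw [Finset.mul_sum]
  have h4 : ∀ j ∈ range k, T ^ 2 * (T ^ j * n) ≤ n * T ^ (k + 1) := by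
    intro j hj
    rw [mem_range] at hj
    have h5 : T ^ (j + 2) ≤ T ^ (k + 1) := pow_le_pow_right₀ hT1 (by omega)
    calc T ^ 2 * (T ^ j * n) = n * T ^ (j + 2) := by ring
      _ ≤ n * T ^ (k + 1) := mul_le_mul_of_nonneg_left h5 hn0
  refine (Finset.sum_le_sum h4).trans ?_
  simp

/-- the constants -/
noncomputable def eC : ℕ → ℝ
  | 0 => 0
  | (k + 1) => eC k + (k + 1).factorial

theorem eC_nonneg (k : ℕ) : 0 ≤ eC k := by
  induction k with
  | zero => simp [eC]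
  | succ k ih => simp only [eC]; positivity

theorem eS_pow (hf : ∀ i, |f i| ≤ 1) (hn : (Fintype.card σ : ℝ) ≤ n) (hn0 : 0 ≤ n) (hT1 : 1 ≤ T)
    (hTn : n ≤ T ^ 2) (hTG : |∑ i, f i| ≤ T) (k : ℕ) :
    T ^ 2 * |(k.factorial : ℝ) * eS f k - (∑ i, f i) ^ k| ≤ eC k * (n * T ^ k) := by
  have hT0 : 0 ≤ T := by linarith
  induction k with
  | zero =>
    rw [eS_zero]
    simp [eC]
  | succ k ih =>
    have h1 : (((k + 1).factorial : ℕ) : ℝ) * eS f (k + 1) - (∑ i, f i) ^ (k + 1) =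
        (k.factorial : ℝ) * (((k + 1 : ℕ) : ℝ) * eS f (k + 1) - (∑ i, f i) * eS f k) +
          (∑ i, f i) * ((k.factorial : ℝ) * eS f k - (∑ i, f i) ^ k) := by
      rw [Nat.factorial_succ]
      push_cast
      ring
    have h2 := eS_step f n T hf hn hn0 hT1 hTn hTG k
    rw [h1]
    have h3 : T ^ 2 * |(k.factorial : ℝ) * (((k + 1 : ℕ) : ℝ) * eS f (k + 1) - (∑ i, f i) * eS f k) +
          (∑ i, f i) * ((k.factorial : ℝ) * eS f k - (∑ i, f i) ^ k)| ≤
        (k.factorial : ℝ) * (T ^ 2 * |((k + 1 : ℕ) : ℝ) * eS f (k + 1) - (∑ i, f i) * eS f k|) +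
        |∑ i, f i| * (T ^ 2 * |(k.factorial : ℝ) * eS f k - (∑ i, f i) ^ k|) := by
      have h4 := abs_add_le ((k.factorial : ℝ) * (((k + 1 : ℕ) : ℝ) * eS f (k + 1) - (∑ i, f i) * eS f k))
        ((∑ i, f i) * ((k.factorial : ℝ) * eS f k - (∑ i, f i) ^ k))
      rw [abs_mul, abs_mul, Nat.abs_cast] at h4
      have h5 := mul_le_mul_of_nonneg_left h4 (by positivity : 0 ≤ T ^ 2)
      linarith
    refine h3.trans ?_
    have h6 : (k.factorial : ℝ) * (T ^ 2 * |((k + 1 : ℕ) : ℝ) * eS f (k + 1) - (∑ i, f i) * eS f k|) ≤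
        (k.factorial : ℝ) * (k * (n * T ^ (k + 1))) :=
      mul_le_mul_of_nonneg_left h2 (by positivity)
    have h7 : |∑ i, f i| * (T ^ 2 * |(k.factorial : ℝ) * eS f k - (∑ i, f i) ^ k|) ≤
        T * (eC k * (n * T ^ k)) :=
      mul_le_mul hTG ih (by positivity) hT0
    have h8 : (k.factorial : ℝ) * k ≤ ((k + 1).factorial : ℝ) := by
      rw [Nat.factorial_succ]
      push_cast
      nlinarith [(by positivity : (0 : ℝ) < k.factorial)]
    have h9 : 0 ≤ n * T ^ (k + 1) := by positivity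
    have h10 := mul_le_mul_of_nonneg_right h8 h9
    simp only [eC]
    calc _ ≤ (k.factorial : ℝ) * (k * (n * T ^ (k + 1))) + T * (eC k * (n * T ^ k)) := add_le_add h6 h7
      _ = ((k.factorial : ℝ) * k) * (n * T ^ (k + 1)) + eC k * (n * T ^ (k + 1)) := by ring
      _ ≤ ((k + 1).factorial : ℝ) * (n * T ^ (k + 1)) + eC k * (n * T ^ (k + 1)) := by linarith
      _ = _ := by ring

end

/-- **The pointwise inequality.** -/
theorem eS_main (k : ℕ) : ∃ A B : ℝ, 0 ≤ A ∧ 0 ≤ B ∧ ∀ (σ : Type) [Fintype σ] (f : σ → ℝ) (n : ℝ),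
    (∀ i, |f i| ≤ 1) → 1 ≤ n → (Fintype.card σ : ℝ) ≤ n →
    (∑ i, f i) ^ (2 * k) ≤ A * (eS f k) ^ 2 + B * n ^ k := by
  obtain ⟨L, hL⟩ : ∃ L : ℝ, L = 1 + 2 ^ (k + 1) * eC k := ⟨_, rfl⟩
  have hC0 := eC_nonneg k
  have hL1 : 1 ≤ L := by
    rw [hL]
    have : 0 ≤ 2 ^ (k + 1) * eC k := by positivity
    linarith
  refine ⟨4 * (k.factorial : ℝ) ^ 2, L ^ k, by positivity, by positivity, ?_⟩
  intro σ _ f n hf hn1 hcard
  set G : ℝ := ∑ i, f i with hG
  rcases le_or_gt (G ^ 2) (L * n) with hsmall | hbig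
  · have h1 : G ^ (2 * k) ≤ L ^ k * n ^ k := by
      rw [pow_mul, ← mul_pow]
      exact pow_le_pow_left₀ (sq_nonneg _) hsmall k
    have h2 : 0 ≤ 4 * (k.factorial : ℝ) ^ 2 * (eS f k) ^ 2 := by positivity
    linarith
  · obtain ⟨T, hT⟩ : ∃ T : ℝ, T = |G| + Real.sqrt n := ⟨_, rfl⟩
    have hs1 : 1 ≤ Real.sqrt n := by
      rw [show (1 : ℝ) = Real.sqrt 1 by simp]
      exact Real.sqrt_le_sqrt hn1
    have hsn : Real.sqrt n ^ 2 = n := Real.sq_sqrt (by linarith)
    have hG0 : 0 ≤ |G| := abs_nonneg _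
    have hT1 : 1 ≤ T := by rw [hT]; linarith
    have hTn : n ≤ T ^ 2 := by rw [hT]; nlinarith
    have hTG : |∑ i, f i| ≤ T := by rw [← hG, hT]; linarith
    have hGs : G ^ 2 = |G| ^ 2 := (sq_abs G).symm
    have hsG : Real.sqrt n ≤ |G| := by
      have h1 : Real.sqrt n ^ 2 ≤ |G| ^ 2 := by
        rw [hsn, ← hGs]
        nlinarith
      exact (pow_le_pow_iff_left₀ (by linarith) hG0 (by norm_num)).1 h1
    have hT2 : T ≤ 2 * |G| := by rw [hT]; linarith
    have hTG2 : |G| ≤ T := by rw [hT]; linarith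
    have hp := eS_pow f n T hf hcard (by linarith) hT1 hTn hTG k
    rw [← hG] at hp
    have hTk : T ^ k ≤ 2 ^ k * |G| ^ k := by
      rw [← mul_pow]
      exact pow_le_pow_left₀ (by linarith) hT2 k
    have hT2' : L * n ≤ T ^ 2 := by
      have : |G| ^ 2 ≤ T ^ 2 := pow_le_pow_left₀ hG0 hTG2 2
      rw [← hGs] at this
      linarith
    -- `C n T^k ≤ (1/2) T^2 |G|^k`
    have h3 : eC k * (n * T ^ k) ≤ 1 / 2 * (T ^ 2 * |G| ^ k) := by
      have h4 : eC k * (n * T ^ k) ≤ eC k * (n * (2 ^ k * |G| ^ k)) :=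
        mul_le_mul_of_nonneg_left (mul_le_mul_of_nonneg_left hTk (by linarith)) hC0
      have h5 : 2 ^ (k + 1) * eC k * n ≤ T ^ 2 := by
        have h6 : 2 ^ (k + 1) * eC k ≤ L := by rw [hL]; linarith
        exact (mul_le_mul_of_nonneg_right h6 (by linarith)).trans hT2'
      have h7 : 2 ^ (k + 1) * eC k * n * |G| ^ k ≤ T ^ 2 * |G| ^ k :=
        mul_le_mul_of_nonneg_right h5 (by positivity)
      have h8 : eC k * (n * (2 ^ k * |G| ^ k)) = 1 / 2 * (2 ^ (k + 1) * eC k * n * |G| ^ k) := by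
        rw [pow_succ]
        ring
      rw [h8] at h4
      linarith
    have h4 : T ^ 2 * |G| ^ k ≤ T ^ 2 * ((k.factorial : ℝ) * |eS f k|) + eC k * (n * T ^ k) := by
      have h5 : |G| ^ k ≤ (k.factorial : ℝ) * |eS f k| + |(k.factorial : ℝ) * eS f k - G ^ k| := by
        have h6 : |G ^ k| ≤ |(k.factorial : ℝ) * eS f k| + |(k.factorial : ℝ) * eS f k - G ^ k| := by
          have h7 : G ^ k = (k.factorial : ℝ) * eS f k - ((k.factorial : ℝ) * eS f k - G ^ k) := by ring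
          calc |G ^ k| = |(k.factorial : ℝ) * eS f k - ((k.factorial : ℝ) * eS f k - G ^ k)| := by
                rw [← h7]
            _ ≤ _ := abs_sub _ _
        rw [abs_pow, abs_mul, Nat.abs_cast] at h6
        exact h6
      have h6 := mul_le_mul_of_nonneg_left h5 (by positivity : 0 ≤ T ^ 2)
      linarith
    have hT0 : 0 < T ^ 2 := by positivity
    have h5 : |G| ^ k ≤ 2 * ((k.factorial : ℝ) * |eS f k|) := by
      have h6 : T ^ 2 * |G| ^ k ≤ T ^ 2 * (2 * ((k.factorial : ℝ) * |eS f k|)) := by linarith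
      exact le_of_mul_le_mul_left h6 hT0
    have h6 : G ^ (2 * k) ≤ 4 * (k.factorial : ℝ) ^ 2 * (eS f k) ^ 2 := by
      have e1 : G ^ (2 * k) = (|G| ^ k) ^ 2 := by
        rw [← abs_pow, sq_abs]
        ring
      rw [e1]
      refine (pow_le_pow_left₀ (by positivity) h5 2).trans (le_of_eq ?_)
      rw [mul_pow, mul_pow, sq_abs]
      ring
    have h7 : 0 ≤ L ^ k * n ^ k := by positivity
    linarith

end Pool.Agent.H24.TS
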