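import Pool.Agent.H99.GB.Fex
import Pool.Agent.H24.TS.Newt

/-!
[H24 TS MOM]  the moment of order `2k` of the test function `G (QQ R) H` of `Pool/Agent/H99/GB`

`∑_{X < x ≤ 2X} G^(2k) ≤ C_k (X + (2R)^(2k)) |QQ R|^k`.

PROOF. `eS_main` (Newton) reduces it to the elementary symmetric function `e_k(x)`; this is an exponential sum over
functions `p` on `QQ R` with `k` nonzero values, frequencies `∑ p(q)/q`, which have distance `≥ (2R)^(-2k)` modulo 1
(`mom_spc`); `H24/AB/LS`.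
-/

set_option autoImplicit false

namespace Pool.Agent.H24.TS

open Finset Pool.Agent.H24.AB Pool.Agent.H99.GB

section

variable {σ : Type} [Fintype σ] [DecidableEq σ]

/-- the spacing -/
theorem mom_spc (q : σ → ℕ) (R k : ℕ) (hq : ∀ i, (q i).Prime) (hR : 1 ≤ R) (hqR : ∀ i, q i ≤ 2 * R)
    (hinj : Function.Injective q) (p p' : σ → ℕ) (hp : ∀ i, p i < q i) (hp' : ∀ i, p' i < q i)
    (hk : (univ.filter (fun i => p i ≠ 0)).card ≤ k)
    (hk' : (univ.filter (fun i => p' i ≠ 0)).card ≤ k) (hne : p ≠ p') (m : ℤ) :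
    1 / (2 * (R : ℝ)) ^ (2 * k) ≤ |∑ i, (p i : ℝ) / q i - ∑ i, (p' i : ℝ) / q i - m| := by
  classical
  set T : Finset σ := univ.filter (fun i => p i ≠ 0) ∪ univ.filter (fun i => p' i ≠ 0) with hT
  have hTc : T.card ≤ 2 * k := (card_union_le _ _).trans (by omega)
  have hout : ∀ i, i ∉ T → p i = 0 ∧ p' i = 0 := by
    intro i hi
    rw [hT, mem_union, mem_filter, mem_filter] at hi
    push Not at hi
    exact ⟨hi.1 (mem_univ _), hi.2 (mem_univ _)⟩
  obtain ⟨i0, hi0⟩ : ∃ i0, p i0 ≠ p' i0 := Function.ne_iff.1 hne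
  have hi0T : i0 ∈ T := by
    by_contra h
    obtain ⟨h1, h2⟩ := hout i0 h
    exact hi0 (by rw [h1, h2])
  have hqpos : ∀ i, (0 : ℝ) < q i := fun i => by exact_mod_cast (hq i).pos
  set M : ℤ := ∏ i ∈ T, (q i : ℤ) with hM
  have hMpos : (0 : ℝ) < (M : ℝ) := by
    rw [hM]
    push_cast
    exact Finset.prod_pos fun i _ => hqpos i
  have hMle : (M : ℝ) ≤ (2 * (R : ℝ)) ^ (2 * k) := by
    have h1 : (M : ℝ) ≤ ∏ i ∈ T, (2 * (R : ℝ)) := by
      rw [hM]
      push_cast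
      refine Finset.prod_le_prod (fun i _ => (hqpos i).le) fun i _ => ?_
      exact_mod_cast hqR i
    rw [Finset.prod_const] at h1
    refine h1.trans (pow_le_pow_right₀ ?_ hTc)
    have : (1 : ℝ) ≤ R := by exact_mod_cast hR
    linarith
  set N : ℤ := ∑ i ∈ T, ((p i : ℤ) - p' i) * ∏ j ∈ T.erase i, (q j : ℤ) - m * M with hN
  -- `N ≠ 0`
  have hN0 : N ≠ 0 := by
    intro h0
    have h1 : (q i0 : ℤ) ∣ m * M := by
      refine Dvd.dvd.mul_left ?_ m
      exact Finset.dvd_prod_of_mem (fun i => (q i : ℤ)) hi0T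
    have h2 : (q i0 : ℤ) ∣ ∑ i ∈ T.erase i0, ((p i : ℤ) - p' i) * ∏ j ∈ T.erase i, (q j : ℤ) := by
      refine Finset.dvd_sum fun i hi => ?_
      refine Dvd.dvd.mul_left ?_ _
      refine Finset.dvd_prod_of_mem (fun i => (q i : ℤ)) ?_
      rw [mem_erase] at hi ⊢
      exact ⟨fun h => hi.1 h.symm, hi0T⟩
    have h3 : (q i0 : ℤ) ∣ ((p i0 : ℤ) - p' i0) * ∏ j ∈ T.erase i0, (q j : ℤ) := by
      have h4 : ((p i0 : ℤ) - p' i0) * ∏ j ∈ T.erase i0, (q j : ℤ) =
          m * M - ∑ i ∈ T.erase i0, ((p i : ℤ) - p' i) * ∏ j ∈ T.erase i, (q j : ℤ) := by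
        have h5 : ((p i0 : ℤ) - p' i0) * ∏ j ∈ T.erase i0, (q j : ℤ) +
            ∑ i ∈ T.erase i0, ((p i : ℤ) - p' i) * ∏ j ∈ T.erase i, (q j : ℤ) =
            ∑ i ∈ T, ((p i : ℤ) - p' i) * ∏ j ∈ T.erase i, (q j : ℤ) :=
          Finset.add_sum_erase T
            (fun i => ((p i : ℤ) - p' i) * ∏ j ∈ T.erase i, (q j : ℤ)) hi0T
        rw [h0] at hN
        linarith
      rw [h4]
      exact dvd_sub h1 h2
    have hprime : Prime (q i0 : ℤ) := Nat.prime_iff_prime_int.1 (hq i0)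
    rcases hprime.dvd_or_dvd h3 with h4 | h4
    · have h5 : (p i0 : ℤ) - p' i0 = 0 := by
        apply Int.eq_zero_of_abs_lt_dvd h4
        have := hp i0
        have := hp' i0
        rw [abs_lt]
        constructor <;> omega
      exact hi0 (by omega)
    · rw [hprime.dvd_finsetProd_iff] at h4
      obtain ⟨j, hj, h5⟩ := h4
      rw [mem_erase] at hj
      have h6 : q i0 ∣ q j := by exact_mod_cast h5
      have h7 := (Nat.prime_dvd_prime_iff_eq (hq i0) (hq j)).1 h6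
      exact hj.1 (hinj h7).symm
  have hkey : (∑ i, (p i : ℝ) / q i - ∑ i, (p' i : ℝ) / q i - m) * M = (N : ℝ) := by
    have h1 : ∑ i, (p i : ℝ) / q i - ∑ i, (p' i : ℝ) / q i =
        ∑ i ∈ T, ((p i : ℝ) - p' i) / q i := by
      rw [← Finset.sum_sub_distrib]
      rw [← Finset.sum_subset (subset_univ T)]
      · refine Finset.sum_congr rfl fun i _ => ?_
        ring
      · intro i _ hi
        obtain ⟨h2, h3⟩ := hout i hi
        rw [h2, h3]
        simp
    rw [h1, sub_mul, Finset.sum_mul, hN]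
    push_cast
    congr 1
    refine Finset.sum_congr rfl fun i hi => ?_
    have h2 : (M : ℝ) = q i * ∏ j ∈ T.erase i, (q j : ℝ) := by
      rw [hM]
      push_cast
      exact (Finset.mul_prod_erase T (fun i => (q i : ℝ)) hi).symm
    rw [h2]
    have h3 := (hqpos i).ne'
    field_simp
  have h1 : (1 : ℝ) ≤ |(N : ℝ)| := by
    have h2 : (1 : ℤ) ≤ |N| := Int.one_le_abs hN0
    exact_mod_cast h2
  rw [← hkey, abs_mul, abs_of_pos hMpos] at h1
  have h2 : 1 / (2 * (R : ℝ)) ^ (2 * k) ≤ 1 / (M : ℝ) := one_div_le_one_div_of_le hMpos hMle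
  refine h2.trans ?_
  rw [div_le_iff₀ hMpos]
  exact h1

/-- the values allowed for the functions with support `S` -/
def momT (q : σ → ℕ) (S : Finset σ) (i : σ) : Finset ℕ := if i ∈ S then Ico 1 (q i) else {0}

/-- extended coefficients -/
noncomputable def momC (c : σ → ℕ → ℂ) (i : σ) (j : ℕ) : ℂ := if j = 0 then 1 else c i j

theorem mom_prod (q : σ → ℕ) (S : Finset σ) (F : σ → ℕ → ℂ) (hF : ∀ i, F i 0 = 1) :
    ∏ i ∈ S, ∑ j ∈ Ico 1 (q i), F i j =
      ∑ p ∈ Fintype.piFinset (momT q S), ∏ i, F i (p i) := by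
  rw [← Finset.prod_univ_sum]
  have h1 : ∀ i, ∑ j ∈ momT q S i, F i j = if i ∈ S then ∑ j ∈ Ico 1 (q i), F i j else 1 := by
    intro i
    unfold momT
    split_ifs
    · rfl
    · simp [hF]
  simp_rw [h1]
  rw [Finset.prod_ite_mem]
  simp

/-- `e_k` is an exponential sum -/
theorem mom_ls (q : σ → ℕ) (R k : ℕ) (hq : ∀ i, (q i).Prime) (hR : 1 ≤ R)
    (hqR : ∀ i, q i ≤ 2 * R) (hinj : Function.Injective q) (c : σ → ℕ → ℂ)
    (hc : ∀ i, ∑ j ∈ Ico 1 (q i), ‖c i j‖ ^ 2 ≤ 1) (f : σ → ℕ → ℝ)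
    (hf : ∀ i x, ((f i x : ℝ) : ℂ) = ∑ j ∈ Ico 1 (q i), c i j * ee ((x : ℝ) * ((j : ℝ) / q i)))
    (X : ℕ) (hX : 1 ≤ X) :
    ∑ x ∈ Ioc X (2 * X), (eS (fun i => f i x) k) ^ 2 ≤
      10 * ((X : ℝ) + (2 * (R : ℝ)) ^ (2 * k)) * (Fintype.card σ : ℝ) ^ k := by
  classical
  -- the index set
  set I : Finset ((_ : Finset σ) × (σ → ℕ)) :=
    (powersetCard k (univ : Finset σ)).sigma (fun S => Fintype.piFinset (momT q S)) with hI
  have hmem : ∀ z ∈ I, z.1.card = k ∧ (∀ i, z.2 i ∈ momT q z.1 i) := by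
    intro z hz
    rw [hI, mem_sigma, mem_powersetCard] at hz
    exact ⟨hz.1.2, fun i => Fintype.mem_piFinset.1 hz.2 i⟩
  have hsupp : ∀ z ∈ I, ∀ i, z.2 i ≠ 0 ↔ i ∈ z.1 := by
    intro z hz i
    have h1 := (hmem z hz).2 i
    unfold momT at h1
    split_ifs at h1 with h2
    · rw [mem_Ico] at h1
      exact ⟨fun _ => h2, fun _ => by omega⟩
    · rw [mem_singleton] at h1
      exact ⟨fun h => absurd h1 h, fun h => absurd h h2⟩
  have hlt : ∀ z ∈ I, ∀ i, z.2 i < q i := by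
    intro z hz i
    have h1 := (hmem z hz).2 i
    unfold momT at h1
    split_ifs at h1 with h2
    · rw [mem_Ico] at h1
      exact h1.2
    · rw [mem_singleton] at h1
      rw [h1]
      exact (hq i).pos
  have hfil : ∀ z ∈ I, univ.filter (fun i => z.2 i ≠ 0) = z.1 := by
    intro z hz
    ext i
    rw [mem_filter]
    exact ⟨fun h => (hsupp z hz i).1 h.2, fun h => ⟨mem_univ _, (hsupp z hz i).2 h⟩⟩
  set C : ((_ : Finset σ) × (σ → ℕ)) → ℂ := fun z => ∏ i, momC c i (z.2 i) with hC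
  set al : ((_ : Finset σ) × (σ → ℕ)) → ℝ := fun z => ∑ i, (z.2 i : ℝ) / q i with hal
  -- the expansion
  have hexp : ∀ x : ℕ, ((eS (fun i => f i x) k : ℝ) : ℂ) = ∑ z ∈ I, C z * ee ((x : ℝ) * al z) := by
    intro x
    unfold eS
    rw [Complex.ofReal_sum, hI, Finset.sum_sigma]
    refine Finset.sum_congr rfl fun S _ => ?_
    rw [Complex.ofReal_prod]
    have h1 : ∏ i ∈ S, ((f i x : ℝ) : ℂ) =
        ∏ i ∈ S, ∑ j ∈ Ico 1 (q i), momC c i j * ee ((x : ℝ) * ((j : ℝ) / q i)) := by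
      refine Finset.prod_congr rfl fun i _ => ?_
      rw [hf]
      refine Finset.sum_congr rfl fun j hj => ?_
      rw [mem_Ico] at hj
      unfold momC
      rw [if_neg (by omega)]
    rw [h1, mom_prod q S (fun i j => momC c i j * ee ((x : ℝ) * ((j : ℝ) / q i)))]
    · refine Finset.sum_congr rfl fun p _ => ?_
      rw [Finset.prod_mul_distrib]
      congr 1
      simp only [hal]
      rw [Finset.mul_sum]
      have h2 : ∀ t : Finset σ, ∏ i ∈ t, ee ((x : ℝ) * ((p i : ℝ) / q i)) =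
          ee (∑ i ∈ t, (x : ℝ) * ((p i : ℝ) / q i)) := by
        intro t
        induction t using Finset.induction_on with
        | empty => simp [ee_zero]
        | insert a s ha ih => rw [Finset.prod_insert ha, Finset.sum_insert ha, ee_add, ih]
      exact h2 univ
    · intro i
      simp [momC, ee_zero]
  have hls := large_sieve I al C (1 / (2 * (R : ℝ)) ^ (2 * k)) (by positivity) ?_ ?_ X X hX
  · have h1 : ∑ x ∈ Ioc X (X + X), ‖∑ z ∈ I, C z * ee ((x : ℝ) * al z)‖ ^ 2 =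
        ∑ x ∈ Ioc X (2 * X), (eS (fun i => f i x) k) ^ 2 := by
      rw [two_mul]
      refine Finset.sum_congr rfl fun x _ => ?_
      rw [← hexp, Complex.norm_real, Real.norm_eq_abs, sq_abs]
    rw [h1, one_div_one_div] at hls
    refine hls.trans (mul_le_mul_of_nonneg_left ?_ (by positivity))
    -- the coefficients
    have h2 : ∑ z ∈ I, ‖C z‖ ^ 2 =
        ∑ S ∈ powersetCard k (univ : Finset σ), ∏ i ∈ S, ∑ j ∈ Ico 1 (q i), ‖c i j‖ ^ 2 := by
      rw [hI, Finset.sum_sigma]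
      refine Finset.sum_congr rfl fun S _ => ?_
      have h3 := mom_prod q S (fun i j => ((‖momC c i j‖ ^ 2 : ℝ) : ℂ)) (fun i => by simp [momC])
      have h4 : (((∏ i ∈ S, ∑ j ∈ Ico 1 (q i), ‖momC c i j‖ ^ 2 : ℝ)) : ℂ) =
          ((∑ p ∈ Fintype.piFinset (momT q S), ∏ i, ‖momC c i (p i)‖ ^ 2 : ℝ) : ℂ) := by
        push_cast at h3 ⊢
        exact h3
      have h5 : (∏ i ∈ S, ∑ j ∈ Ico 1 (q i), ‖momC c i j‖ ^ 2 : ℝ) =
          ∑ p ∈ Fintype.piFinset (momT q S), ∏ i, ‖momC c i (p i)‖ ^ 2 := by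
        exact_mod_cast h4
      have h6 : ∀ p : σ → ℕ, ‖C ⟨S, p⟩‖ ^ 2 = ∏ i, ‖momC c i (p i)‖ ^ 2 := by
        intro p
        simp only [hC]
        rw [norm_prod, Finset.prod_pow]
      simp_rw [h6]
      rw [← h5]
      refine Finset.prod_congr rfl fun i _ => Finset.sum_congr rfl fun j hj => ?_
      rw [mem_Ico] at hj
      unfold momC
      rw [if_neg (by omega)]
    rw [h2]
    have h3 : ∀ S ∈ powersetCard k (univ : Finset σ),
        ∏ i ∈ S, ∑ j ∈ Ico 1 (q i), ‖c i j‖ ^ 2 ≤ 1 := by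
      intro S _
      exact Finset.prod_le_one (fun i _ => Finset.sum_nonneg fun j _ => by positivity)
        fun i _ => hc i
    refine (Finset.sum_le_sum h3).trans ?_
    rw [Finset.sum_const, card_powersetCard, nsmul_eq_mul, mul_one, card_univ]
    have h4 := Nat.choose_le_pow_div (α := ℝ) k (Fintype.card σ)
    refine h4.trans (div_le_self (by positivity) ?_)
    exact_mod_cast Nat.factorial_pos k
  · have h1 : (1 : ℝ) ≤ 2 * R := by
      have : (1 : ℝ) ≤ R := by exact_mod_cast hR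
      linarith
    rw [div_le_one (by positivity)]
    exact one_le_pow₀ h1
  · intro z hz z' hz' hne m
    refine mom_spc q R k hq hR hqR hinj z.2 z'.2 (hlt z hz) (hlt z' hz') ?_ ?_ ?_ m
    · rw [hfil z hz, (hmem z hz).1]
    · rw [hfil z' hz', (hmem z' hz').1]
    · intro h
      apply hne
      have h1 : z.1 = z'.1 := by rw [← hfil z hz, ← hfil z' hz', h]
      exact Sigma.ext h1 (heq_of_eq h)

end

theorem ph_le (H q x : ℕ) (hq : 1 ≤ q) : |ph H q x| ≤ 1 := by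
  unfold ph
  have hq0 : (0 : ℝ) < q := by exact_mod_cast hq
  rw [abs_div, abs_of_pos hq0, div_le_one hq0, abs_le]
  have h1 : ((x % q : ℕ) : ℝ) < q := by exact_mod_cast Nat.mod_lt _ hq
  have h2 : (((x + H) % q : ℕ) : ℝ) < q := by exact_mod_cast Nat.mod_lt _ hq
  have h3 : (0 : ℝ) ≤ ((x % q : ℕ) : ℝ) := Nat.cast_nonneg _
  have h4 : (0 : ℝ) ≤ (((x + H) % q : ℕ) : ℝ) := Nat.cast_nonneg _
  constructor <;> linarith

/-- **The moment of order `2k`.** -/
theorem mom (k : ℕ) : ∃ C : ℝ, 0 < C ∧ ∀ X H R : ℕ, 1 ≤ X → 1 ≤ R →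
    ∑ x ∈ Ioc X (2 * X), (G (QQ R) H x) ^ (2 * k) ≤
      C * ((X : ℝ) + (2 * (R : ℝ)) ^ (2 * k)) * ((QQ R).card : ℝ) ^ k := by
  obtain ⟨A, B, hA, hB, hmain⟩ := eS_main k
  refine ⟨10 * A + B + 1, by positivity, fun X H R hX hR => ?_⟩
  have hX0 : (1 : ℝ) ≤ X := by exact_mod_cast hX
  have hprime : ∀ i : {q // q ∈ QQ R}, (i : ℕ).Prime := by
    intro i
    have := i.2
    unfold QQ at this
    rw [mem_filter] at this
    exact this.2
  have hle : ∀ i : {q // q ∈ QQ R}, (i : ℕ) ≤ 2 * R := by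
    intro i
    have := i.2
    unfold QQ at this
    rw [mem_filter, mem_Ioc] at this
    exact this.1.2
  have hcard : Fintype.card {q // q ∈ QQ R} = (QQ R).card := Fintype.card_coe _
  -- there is a prime in `(R, 2R]`
  have hn1 : (1 : ℝ) ≤ ((QQ R).card : ℝ) := by
    obtain ⟨p, hp, h1, h2⟩ := Nat.exists_prime_lt_and_le_two_mul R (by omega)
    have : 0 < (QQ R).card := Finset.card_pos.2 ⟨p, by
      unfold QQ
      rw [mem_filter, mem_Ioc]
      exact ⟨⟨h1, h2⟩, hp⟩⟩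
    exact_mod_cast this
  choose c hc1 hc2 using fun i : {q // q ∈ QQ R} => fex H (i : ℕ) (hprime i).one_le
  have hls := mom_ls (σ := {q // q ∈ QQ R}) (fun i => (i : ℕ)) R k hprime hR hle
    Subtype.val_injective c hc2 (fun i x => ph H i x) hc1 X hX
  rw [hcard] at hls
  have hpt : ∀ x ∈ Ioc X (2 * X), (G (QQ R) H x) ^ (2 * k) ≤
      A * (eS (fun i : {q // q ∈ QQ R} => ph H i x) k) ^ 2 + B * ((QQ R).card : ℝ) ^ k := by
    intro x _
    have h1 := hmain {q // q ∈ QQ R} (fun i => ph H i x) ((QQ R).card : ℝ)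
      (fun i => ph_le H i x (hprime i).one_le) hn1 (by rw [hcard])
    have h2 : ∑ i : {q // q ∈ QQ R}, ph H i x = G (QQ R) H x := by
      unfold G
      exact Finset.sum_coe_sort (QQ R) (fun q => ph H q x)
    rwa [h2] at h1
  refine (Finset.sum_le_sum hpt).trans ?_
  rw [Finset.sum_add_distrib, ← Finset.mul_sum, Finset.sum_const, Nat.card_Ioc, nsmul_eq_mul]
  have e1 : 2 * X - X = X := by omega
  rw [e1]
  have h1 := mul_le_mul_of_nonneg_left hls hA
  have h2 : (X : ℝ) * (B * ((QQ R).card : ℝ) ^ k) ≤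
      B * (((X : ℝ) + (2 * (R : ℝ)) ^ (2 * k)) * ((QQ R).card : ℝ) ^ k) := by
    have h3 : (X : ℝ) ≤ (X : ℝ) + (2 * (R : ℝ)) ^ (2 * k) := by
      have : 0 ≤ (2 * (R : ℝ)) ^ (2 * k) := by positivity
      linarith
    calc (X : ℝ) * (B * ((QQ R).card : ℝ) ^ k) = B * ((X : ℝ) * ((QQ R).card : ℝ) ^ k) := by ring
      _ ≤ _ := mul_le_mul_of_nonneg_left (mul_le_mul_of_nonneg_right h3 (by positivity)) hB
  have h4 : 0 ≤ ((X : ℝ) + (2 * (R : ℝ)) ^ (2 * k)) * ((QQ R).card : ℝ) ^ k := by positivity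
  calc _ ≤ A * (10 * ((X : ℝ) + (2 * (R : ℝ)) ^ (2 * k)) * ((QQ R).card : ℝ) ^ k) +
        B * (((X : ℝ) + (2 * (R : ℝ)) ^ (2 * k)) * ((QQ R).card : ℝ) ^ k) := add_le_add h1 h2
    _ = (10 * A + B) * (((X : ℝ) + (2 * (R : ℝ)) ^ (2 * k)) * ((QQ R).card : ℝ) ^ k) := by ring
    _ ≤ (10 * A + B + 1) * (((X : ℝ) + (2 * (R : ℝ)) ^ (2 * k)) * ((QQ R).card : ℝ) ^ k) :=
        mul_le_mul_of_nonneg_right (by linarith) h4
    _ = _ := by ring

end Pool.Agent.H24.TS
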